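import Pool.Agent.W187.UR.NF

/-! The passage from a rotated mean to the order and the leading coefficient (abstract part). -/

set_option autoImplicit false

namespace Pool.Agent.N41.RM

open Filter Topology Set
open Pool.Agent.W187.UR (Lam)

/-- the law for a function `W` with the expansion given by `mdata_rot` -/
theorem law_abs {W : ℝ → ℂ} {Λ : ℂ} {m e : ℤ} {l r₀ : ℂ} {C T₀ : ℝ}
    (hr : Complex.exp r₀ = l) (hi : r₀.im = -Real.pi * ((e : ℤ) : ℝ))
    (h : ∀ T ≥ T₀, ‖W T - (m * (Real.log T - Λ) - r₀)‖ ≤ C / T) :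
    ∃ lr : ℝ, l = lr ∧ lr ≠ 0 ∧
      (fun T : ℝ => W T - (m * (Real.log T - Λ) - Real.log |lr| +
        Real.pi * e * Complex.I)) =O[atTop] (fun T : ℝ => 1 / T) ∧
      Tendsto (fun T : ℝ => Complex.exp (W T) / (T : ℂ) ^ m) atTop
        (𝓝 (Complex.exp (-(m * Λ)) / lr)) := by
  have hl0 : l ≠ 0 := by rw [← hr]; exact Complex.exp_ne_zero _
  have hlr : l = (((-1 : ℝ) ^ e * Real.exp r₀.re : ℝ) : ℂ) := by
    have h1 : r₀ = (r₀.re : ℂ) + (e : ℂ) * (-(Real.pi * Complex.I)) := by
      apply Complex.ext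
      · simp
      · rw [hi]; simp; ring
    rw [← hr]
    nth_rewrite 1 [h1]
    rw [Complex.exp_add, Complex.exp_int_mul, Complex.exp_neg, Complex.exp_pi_mul_I]
    push_cast
    norm_num
    ring
  have hlre : l = ((l.re : ℝ) : ℂ) := by
    rw [hlr, Complex.ofReal_re]
  have hlabs : Real.log |l.re| = r₀.re := by
    have h1 : |l.re| = Real.exp r₀.re := by
      rw [hlr, Complex.ofReal_re, abs_mul, Real.abs_exp]
      have : |(-1 : ℝ) ^ e| = 1 := by
        rw [abs_zpow]; simp
      rw [this, one_mul]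
    rw [h1, Real.log_exp]
  have hlre0 : l.re ≠ 0 := by
    intro h1
    rw [h1, Complex.ofReal_zero] at hlre
    exact hl0 hlre
  have hr₀ : -r₀ = -(Real.log |l.re| : ℂ) + Real.pi * e * Complex.I := by
    rw [hlabs]
    apply Complex.ext
    · simp
    · rw [Complex.neg_im, hi]; simp
  have hO : (fun T : ℝ => W T - (m * (Real.log T - Λ) - r₀)) =O[atTop]
      (fun T : ℝ => 1 / T) := by
    refine Asymptotics.IsBigO.of_bound C ?_
    filter_upwards [eventually_ge_atTop T₀, eventually_gt_atTop 0] with T hT hT1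
    have h5 := h T hT
    rw [Real.norm_eq_abs, abs_of_pos (by positivity : 0 < 1 / T), mul_one_div]
    exact h5
  refine ⟨l.re, hlre, hlre0, ?_, ?_⟩
  · refine hO.congr_left fun T => ?_
    linear_combination (-1 : ℂ) * hr₀
  · -- the product form
    have h1 : Tendsto (fun T : ℝ => W T - (m * (Real.log T - Λ) - r₀)) atTop (𝓝 0) := by
      refine hO.trans_tendsto ?_
      exact tendsto_const_nhds.div_atTop tendsto_id
    have h2 : Tendsto (fun T : ℝ => Complex.exp (W T - (m * (Real.log T - Λ) - r₀)) *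
        (Complex.exp (-(m * Λ)) / l)) atTop (𝓝 (1 * (Complex.exp (-(m * Λ)) / l))) := by
      refine Tendsto.mul_const _ ?_
      have := (Complex.continuous_exp.tendsto 0).comp h1
      simpa [Function.comp_def] using this
    rw [one_mul] at h2
    rw [← hlre]
    refine h2.congr' ?_
    filter_upwards [eventually_gt_atTop 0] with T hT
    have hTc : (T : ℂ) ≠ 0 := by exact_mod_cast hT.ne'
    have h3 : (T : ℂ) ^ m = Complex.exp (m * Real.log T) := by
      rw [Complex.exp_int_mul, ← Complex.ofReal_exp, Real.exp_log hT]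
    rw [h3, ← hr, ← Complex.exp_sub, ← Complex.exp_sub, ← Complex.exp_add]
    congr 1
    ring

/-- a limit along one sequence determines the order and the coefficient -/
theorem iff_abs {W : ℝ → ℂ} {Λ : ℂ} {m : ℤ} {l : ℝ} (hl0 : l ≠ 0)
    (h : Tendsto (fun T : ℝ => Complex.exp (W T) / (T : ℂ) ^ m) atTop
      (𝓝 (Complex.exp (-(m * Λ)) / l))) (r : ℤ) {B : ℝ} (hB : B ≠ 0) {t : ℕ → ℝ}
    (ht : Tendsto t atTop atTop)
    (h1 : Tendsto (fun n => Complex.exp (W (t n)) / (t n : ℂ) ^ r) atTop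
      (𝓝 (Complex.exp (-(r * Λ)) / B))) : m = r ∧ l = B := by
  have h := h.comp ht
  have hlc : (l : ℂ) ≠ 0 := by exact_mod_cast hl0
  have hBc : (B : ℂ) ≠ 0 := by exact_mod_cast hB
  set c₁ : ℂ := Complex.exp (-(m * Λ)) / l with hc₁
  set c₀ : ℂ := Complex.exp (-(r * Λ)) / B with hc₀
  have hc₁0 : c₁ ≠ 0 := div_ne_zero (Complex.exp_ne_zero _) hlc
  have hc₀0 : c₀ ≠ 0 := div_ne_zero (Complex.exp_ne_zero _) hBc
  have h2 : Tendsto (fun n => (t n : ℂ) ^ (m - r)) atTop (𝓝 (c₀ / c₁)) := by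
    refine (h1.div h hc₁0).congr' ?_
    filter_upwards [ht.eventually (eventually_gt_atTop 0)] with n hT
    have hTc : (t n : ℂ) ≠ 0 := by exact_mod_cast hT.ne'
    have h3 := Complex.exp_ne_zero (W (t n))
    rw [zpow_sub₀ hTc]
    have h4 : (t n : ℂ) ^ m ≠ 0 := zpow_ne_zero _ hTc
    have h5 : (t n : ℂ) ^ r ≠ 0 := zpow_ne_zero _ hTc
    simp only [Pi.div_apply, Function.comp_apply]
    field_simp
  have h3 : Tendsto (fun n => (t n) ^ (m - r)) atTop (𝓝 ‖c₀ / c₁‖) := by
    refine h2.norm.congr' ?_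
    filter_upwards [ht.eventually (eventually_gt_atTop 0)] with n hT
    rw [norm_zpow, Complex.norm_real, Real.norm_eq_abs, abs_of_pos hT]
  have h4 : m - r = 0 := by
    rcases lt_trichotomy (m - r) 0 with h5 | h5 | h5
    · exfalso
      have h6 : Tendsto (fun n => (t n) ^ (m - r)) atTop (𝓝 0) :=
        (tendsto_zpow_atTop_zero h5).comp ht
      have h7 := tendsto_nhds_unique h3 h6
      rw [norm_eq_zero] at h7
      exact div_ne_zero hc₀0 hc₁0 h7
    · exact h5
    · exfalso
      have h6 : Tendsto (fun T : ℝ => T ^ (m - r)) atTop atTop := by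
        obtain ⟨n, hn⟩ := Int.eq_ofNat_of_zero_le h5.le
        rw [hn]
        simp only [zpow_natCast]
        refine tendsto_pow_atTop ?_
        intro h0
        rw [h0] at hn
        rw [hn] at h5
        exact absurd h5 (by simp)
      exact not_tendsto_nhds_of_tendsto_atTop (h6.comp ht) _ h3
  have h5 : m = r := by linarith
  subst h5
  have h6 : c₀ = c₁ := by
    refine tendsto_nhds_unique h1 ?_
    simpa [Function.comp_def] using h
  refine ⟨rfl, ?_⟩
  rw [hc₀, hc₁] at h6
  have h7 := Complex.exp_ne_zero (-((m : ℂ) * Λ))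
  rw [div_eq_div_iff hBc hlc] at h6
  have h8 : (l : ℂ) = B := mul_left_cancel₀ h7 (by linear_combination h6)
  exact_mod_cast h8

end Pool.Agent.N41.RM
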