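import Pool.Agent.N41.RM.Pts

/-! Removing finitely many Euler factors; the real part of the rotated mean. -/

set_option autoImplicit false

namespace Pool.Agent.N41.RM

open Filter Topology Set NumberField IsDedekindDomain
open Pool.Agent.W187.UR (Lam)

/-- the real part of a function with the law -/
theorem re_of_law {W : ℝ → ℂ} {r : ℤ} {Λ c : ℂ}
    (h : (fun T : ℝ => W T - (r * (Real.log T - Λ) + c)) =O[atTop] (fun T : ℝ => 1 / T)) :
    Tendsto (fun T : ℝ => (W T).re / Real.log T) atTop (𝓝 r) := by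
  have h1 : Tendsto (fun T : ℝ => W T - (r * (Real.log T - Λ) + c)) atTop (𝓝 0) := by
    refine h.trans_tendsto ?_
    exact tendsto_const_nhds.div_atTop tendsto_id
  set K : ℂ := r * (-Λ) + c with hK
  have h2 : Tendsto (fun T : ℝ => ((W T - (r * (Real.log T - Λ) + c)).re + K.re) / Real.log T + r)
      atTop (𝓝 (0 + r)) := by
    refine Tendsto.add_const _ ?_
    have h3 := (Complex.continuous_re.tendsto 0).comp h1
    exact (h3.add_const K.re).div_atTop Real.tendsto_log_atTop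
  rw [zero_add] at h2
  refine h2.congr' ?_
  filter_upwards [eventually_gt_atTop 1] with T hT
  have hlog : Real.log T ≠ 0 := (Real.log_pos hT).ne'
  rw [div_add' _ _ _ hlog, ← Complex.add_re]
  congr 1
  have h4 : W T - (r * (Real.log T - Λ) + c) + K = W T - ((r * Real.log T : ℝ) : ℂ) := by
    rw [hK]
    push_cast
    ring
  rw [h4, Complex.sub_re, Complex.ofReal_re]
  ring

variable {K : Type} [Field K] [NumberField K] {N : ℕ}

open Classical in
/-- the parameters, replaced by zeros at the primes in `S` -/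
noncomputable def ext (S : Finset (HeightOneSpectrum (𝓞 K)))
    (α : HeightOneSpectrum (𝓞 K) → Fin N → ℂ) (v : HeightOneSpectrum (𝓞 K)) (j : Fin N) : ℂ :=
  if v ∈ S then 0 else α v j

/-- the Euler factors at the primes in `S` -/
noncomputable def bad (S : Finset (HeightOneSpectrum (𝓞 K)))
    (α : HeightOneSpectrum (𝓞 K) → Fin N → ℂ) (s : ℂ) : ℂ :=
  ∏ v ∈ S, ∏ j, (1 - α v j * (Ideal.absNorm v.asIdeal : ℂ) ^ (-s))

variable {S : Finset (HeightOneSpectrum (𝓞 K))} {α : HeightOneSpectrum (𝓞 K) → Fin N → ℂ} {i : ℕ}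

theorem factor_ne (h : ∀ v j, ‖α v j‖ ≤ (Ideal.absNorm v.asIdeal : ℝ) ^ ((i : ℝ) / 2)) {s : ℂ}
    (hs : (i : ℝ) / 2 < s.re) (v : HeightOneSpectrum (𝓞 K)) (j : Fin N) :
    1 - α v j * (Ideal.absNorm v.asIdeal : ℂ) ^ (-s) ≠ 0 := by
  intro h0
  have h1 : α v j * (Ideal.absNorm v.asIdeal : ℂ) ^ (-s) = 1 := (sub_eq_zero.1 h0).symm
  have h2 := congrArg norm h1
  have hq : (2 : ℝ) ≤ Ideal.absNorm v.asIdeal := Pool.Agent.R409.RA.two_le v
  have hq0 : (0 : ℝ) < Ideal.absNorm v.asIdeal := by linarith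
  have hn : 0 < Ideal.absNorm v.asIdeal := by exact_mod_cast hq0
  rw [norm_mul, Complex.norm_natCast_cpow_of_pos hn, norm_one, Complex.neg_re] at h2
  have h3 : ‖α v j‖ * (Ideal.absNorm v.asIdeal : ℝ) ^ (-s.re) < 1 := by
    calc ‖α v j‖ * (Ideal.absNorm v.asIdeal : ℝ) ^ (-s.re)
        ≤ (Ideal.absNorm v.asIdeal : ℝ) ^ ((i : ℝ) / 2) *
          (Ideal.absNorm v.asIdeal : ℝ) ^ (-s.re) :=
          mul_le_mul_of_nonneg_right (h v j) (by positivity)
      _ = (Ideal.absNorm v.asIdeal : ℝ) ^ ((i : ℝ) / 2 + -s.re) := (Real.rpow_add hq0 _ _).symm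
      _ < 1 := Real.rpow_lt_one_of_one_lt_of_neg (by linarith) (by linarith)
  linarith

theorem bad_analytic (s : ℂ) : AnalyticAt ℂ (bad S α) s := by
  unfold bad
  refine Finset.analyticAt_fun_prod _ fun v _ => Finset.analyticAt_fun_prod _ fun j _ => ?_
  have hq0 : (Ideal.absNorm v.asIdeal : ℂ) ≠ 0 := by
    have hq : (2 : ℝ) ≤ Ideal.absNorm v.asIdeal := Pool.Agent.R409.RA.two_le v
    have : (Ideal.absNorm v.asIdeal : ℝ) ≠ 0 := by linarith
    exact_mod_cast this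
  have h1 : (fun s : ℂ => 1 - α v j * (Ideal.absNorm v.asIdeal : ℂ) ^ (-s)) =
      fun s : ℂ => 1 - α v j * Complex.exp (Complex.log (Ideal.absNorm v.asIdeal : ℂ) * (-s)) := by
    funext s
    rw [Complex.cpow_def_of_ne_zero hq0]
  rw [h1]
  fun_prop

theorem bad_ne (h : ∀ v j, ‖α v j‖ ≤ (Ideal.absNorm v.asIdeal : ℝ) ^ ((i : ℝ) / 2)) {s : ℂ}
    (hs : (i : ℝ) / 2 < s.re) : bad S α s ≠ 0 :=
  Finset.prod_ne_zero_iff.2 fun v _ => Finset.prod_ne_zero_iff.2 fun j _ => factor_ne h hs v j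

theorem order_bad (h : ∀ v j, ‖α v j‖ ≤ (Ideal.absNorm v.asIdeal : ℝ) ^ ((i : ℝ) / 2)) {s : ℂ}
    (hs : (i : ℝ) / 2 < s.re) {F : ℂ → ℂ} (hF : MeromorphicAt F s) :
    meromorphicOrderAt (fun z => F z * bad S α z) s = meromorphicOrderAt F s := by
  have h1 : MeromorphicAt (bad S α) s := (bad_analytic s).meromorphicAt
  rw [fun_meromorphicOrderAt_mul hF h1,
    Pool.Agent.R409.RA.order_of_ne (bad_analytic s) (bad_ne h hs), add_zero]

theorem prod_bad {m : ℕ} (hi : i + 1 = 2 * m)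
    (h : ∀ v j, ‖α v j‖ ≤ (Ideal.absNorm v.asIdeal : ℝ) ^ ((i : ℝ) / 2))
    (hre : ∀ v k, (∑ j, α v j ^ (k + 1)).im = 0) {s : ℂ} (hs : (i : ℝ) / 2 + 1 < s.re) :
    (∏' v : HeightOneSpectrum (𝓞 K), ∏ j, (1 - α v j *
      (Ideal.absNorm v.asIdeal : ℂ) ^ (-s))⁻¹) * bad S α s =
    ∏' v : HeightOneSpectrum (𝓞 K), ∏ j, (1 - ext S α v j *
      (Ideal.absNorm v.asIdeal : ℂ) ^ (-s))⁻¹ := by
  classical
  have h1 := hasProd_nf hi h hre hs
  have h2 : HasProd (fun v : HeightOneSpectrum (𝓞 K) => if v ∈ S then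
      ∏ j, (1 - α v j * (Ideal.absNorm v.asIdeal : ℂ) ^ (-s)) else 1) (bad S α s) := by
    have h3 : HasProd (fun v : HeightOneSpectrum (𝓞 K) => if v ∈ S then
        ∏ j, (1 - α v j * (Ideal.absNorm v.asIdeal : ℂ) ^ (-s)) else 1) (∏ v ∈ S, (if v ∈ S then
        ∏ j, (1 - α v j * (Ideal.absNorm v.asIdeal : ℂ) ^ (-s)) else 1)) :=
      hasProd_prod_of_ne_finset_one (fun v hv => if_neg hv)
    have h4 : ∏ v ∈ S, (if v ∈ S then
        ∏ j, (1 - α v j * (Ideal.absNorm v.asIdeal : ℂ) ^ (-s)) else 1) = bad S α s :=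
      Finset.prod_congr rfl fun v hv => if_pos hv
    rwa [h4] at h3
  have h3 := h1.mul h2
  rw [← h3.tprod_eq]
  refine tprod_congr fun v => ?_
  unfold ext
  by_cases hv : v ∈ S
  · rw [if_pos hv, ← Finset.prod_mul_distrib]
    refine Finset.prod_congr rfl fun j _ => ?_
    rw [if_pos hv, inv_mul_cancel₀ (factor_ne h (by linarith) v j)]
    simp
  · rw [if_neg hv, mul_one]
    refine Finset.prod_congr rfl fun j _ => ?_
    rw [if_neg hv]

end Pool.Agent.N41.RM
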