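import Pool.Agent.W187.UR.RefC

/-! Rotated Mittag-Leffler means of Dirichlet series with complex coefficients. -/

set_option autoImplicit false

namespace Pool.Agent.N41.RM

open Complex MeasureTheory Filter Topology Set
open scoped Interval
open Pool.Agent.W189.ML Pool.Agent.W189.LC Pool.Agent.W338.UR Pool.Agent.W187.UR

/-- the data of a series with complex coefficients -/
structure ZData {ι : Type} (lam : ι → ℝ) (c : ι → ℂ) : Prop where
  lam_pos : ∀ i, 0 ≤ lam i
  sum : Summable fun i => ‖c i‖ * Real.exp (-(2 * lam i))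

/-- the generalised Dirichlet series with complex coefficients -/
noncomputable def zser {ι : Type} (lam : ι → ℝ) (c : ι → ℂ) (w : ℂ) : ℂ :=
  ∑' i, c i * exp (-(w * lam i))

/-- the rotated mean -/
noncomputable def zmean {ι : Type} (lam : ι → ℝ) (c : ι → ℂ) (γ T : ℝ) : ℂ :=
  ∑' i, c i * exp ((γ * (lam i / T) : ℝ) * I) * (om (lam i / T) : ℂ)

variable {ι : Type} {lam : ι → ℝ} {c : ι → ℂ}

theorem ZData.term_le (D : ZData lam c) {w : ℂ} (hw : 2 ≤ w.re) (i : ι) :
    ‖c i * exp (-(w * lam i))‖ ≤ ‖c i‖ * Real.exp (-(2 * lam i)) := by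
  rw [norm_mul, Complex.norm_exp]
  refine mul_le_mul_of_nonneg_left ?_ (norm_nonneg _)
  apply Real.exp_le_exp.2
  have : (-(w * lam i)).re = -(w.re * lam i) := by simp
  rw [this]
  nlinarith [D.lam_pos i]

theorem ZData.ser_le (D : ZData lam c) {w : ℂ} (hw : 2 ≤ w.re) :
    ‖zser lam c w‖ ≤ ∑' i, ‖c i‖ * Real.exp (-(2 * lam i)) :=
  tsum_of_norm_bounded D.sum.hasSum fun i => D.term_le hw i

theorem ZData.ser_cont (D : ZData lam c) : ContinuousOn (zser lam c) {w | 2 ≤ w.re} := by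
  unfold zser
  exact continuousOn_tsum (fun i => by fun_prop) D.sum fun i w hw => D.term_le hw i

/-- absolute convergence of the rotated mean -/
theorem ZData.summable (D : ZData lam c) (γ : ℝ) {T : ℝ} (hT : 0 < T) :
    Summable fun i => ‖c i * exp ((γ * (lam i / T) : ℝ) * I) * (om (lam i / T) : ℂ)‖ := by
  set a : ℝ := 2 * T with ha
  refine Summable.of_nonneg_of_le (fun i => norm_nonneg _) (fun i => ?_)
    (D.sum.mul_left (Real.exp (Real.exp a) + 1))
  have h0 : 0 ≤ lam i / T := div_nonneg (D.lam_pos i) hT.le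
  have h1 := om_le (a := a) (by positivity) h0
  have h2 : a * (lam i / T) = 2 * lam i := by rw [ha]; field_simp
  rw [h2] at h1
  rw [norm_mul, norm_mul, Complex.norm_exp_ofReal_mul_I, mul_one, Complex.norm_real,
    Real.norm_eq_abs, abs_of_nonneg (om_nonneg h0)]
  calc ‖c i‖ * om (lam i / T) ≤ ‖c i‖ * ((Real.exp (Real.exp a) + 1) * Real.exp (-(2 * lam i))) :=
        mul_le_mul_of_nonneg_left h1 (norm_nonneg _)
    _ = _ := by ring

theorem zmean_eq [Countable ι] (D : ZData lam c) {γ T b : ℝ} (hT : 1 ≤ T) (hb : 2 * T ≤ b) :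
    J b (fun z => zser lam c ((z - γ * I) / T)) = zmean lam c γ T := by
  have hT0 : (0 : ℝ) < T := by linarith
  have hTc : (T : ℂ) ≠ 0 := by exact_mod_cast hT0.ne'
  have hb0 : 0 ≤ b := by linarith
  have hre : ∀ z ∈ HS b, 2 ≤ ((z - γ * I) / T).re := by
    intro z hz
    have : ((z - γ * I) / T).re = z.re / T := by simp
    rw [this, le_div_iff₀ hT0]
    exact hb.trans hz.1
  have h1 := J_hasSum (a := b) hb0 (F := fun i z => c i * exp (-((z - γ * I) / T * lam i)))
    D.sum
    (fun i => ⟨by fun_prop, ‖c i‖ * Real.exp (-(2 * lam i)), 0, by positivity, le_rfl, fun z hz => by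
      have := D.term_le (hre z hz) i
      linarith⟩) fun i z hz => D.term_le (hre z hz) i
  have h2 : ∀ i, J b (fun z => c i * exp (-((z - γ * I) / T * lam i))) =
      c i * exp ((γ * (lam i / T) : ℝ) * I) * (om (lam i / T) : ℂ) := by
    intro i
    have e3 : (fun z : ℂ => c i * exp (-((z - γ * I) / T * lam i))) =
        fun z => (c i * exp ((γ * (lam i / T) : ℝ) * I)) *
          exp (-(z * ((lam i / T : ℝ) : ℂ))) := by
      funext z
      rw [mul_assoc, ← Complex.exp_add]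
      congr 2
      push_cast
      field_simp
      ring
    rw [e3, J_const_mul, J_exp]
    rfl
  simp only [h2] at h1
  exact h1.tsum_eq.symm

/-- the difference -/
noncomputable def FZ (lam : ι → ℝ) (c : ι → ℂ) (γ : ℝ) (m : ℤ) (r₀ : ℂ) (T : ℝ) (z : ℂ) : ℂ :=
  (zser lam c (ww γ T z) - (m * Real.log T - r₀)) - (-m : ℂ) * ell γ z

theorem rightz [Countable ι] (D : ZData lam c) {γ : ℝ} (hγ : 0 < γ) (m : ℤ)
    (r₀ : ℂ) : ∃ Q : ℝ, 0 ≤ Q ∧ ∀ T : ℝ, 1 ≤ T → Adm (2 * T) (FZ lam c γ m r₀ T) ∧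
    J (2 * T) (FZ lam c γ m r₀ T) = zmean lam c γ T - (m * Real.log T - m * J 1 (ell γ) - r₀) ∧
    ∀ z ∈ HS (2 * T), ‖FZ lam c γ m r₀ T z‖ ≤ Q * z.re := by
  set S2 : ℝ := ∑' i, ‖c i‖ * Real.exp (-(2 * lam i)) with hS2
  have hS20 : 0 ≤ S2 := tsum_nonneg fun i => by positivity
  refine ⟨S2 + |(m : ℝ)| + ‖r₀‖ + |(m : ℝ)| * (Real.pi + γ + 3), by positivity, fun T hT => ?_⟩
  have hT0 : 0 < T := by linarith
  have hb0 : 0 ≤ 2 * T := by positivity
  have hre2 : ∀ z ∈ HS (2 * T), 2 ≤ (ww γ T z).re := by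
    intro z hz
    rw [ww_re, le_div_iff₀ hT0]
    exact hz.1
  have hsb : ∀ z ∈ HS (2 * T), ‖zser lam c (ww γ T z)‖ ≤ S2 := fun z hz => D.ser_le (hre2 z hz)
  have hwd : Differentiable ℂ (ww γ T) := by unfold ww; fun_prop
  have admS : Adm (2 * T) (fun z : ℂ => zser lam c (ww γ T z)) := by
    refine ⟨D.ser_cont.comp hwd.continuous.continuousOn hre2, S2, 0, hS20, le_rfl,
      fun z hz => ?_⟩
    have := hsb z hz
    linarith
  have hb1 : 1 ≤ 2 * T := by linarith
  have admL : Adm (2 * T) (ell γ) := (ell_adm hγ).mono hb1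
  have admC := adm_const (2 * T) (m * Real.log T - r₀)
  have hbd : ∀ z ∈ HS (2 * T), ‖FZ lam c γ m r₀ T z‖ ≤
      (S2 + |(m : ℝ)| + ‖r₀‖ + |(m : ℝ)| * (Real.pi + γ + 3)) * z.re := by
    intro z hz
    have hz1 : 1 ≤ z.re := hb1.trans hz.1
    have hzT : T ≤ z.re := by linarith [hz.1]
    have h1 := hsb z hz
    have h2 := ell_le hγ (HS_mono hb1 hz)
    have h3 : ‖(m * Real.log T - r₀ : ℂ)‖ ≤ |(m : ℝ)| * z.re + ‖r₀‖ * z.re := by
      refine (norm_sub_le _ _).trans (add_le_add ?_ ?_)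
      · rw [norm_mul, Complex.norm_intCast, Complex.norm_real, Real.norm_eq_abs,
          abs_of_nonneg (Real.log_nonneg hT)]
        have : Real.log T ≤ T := (Real.log_le_sub_one_of_pos hT0).trans (by linarith)
        exact mul_le_mul_of_nonneg_left (this.trans hzT) (abs_nonneg _)
      · exact le_mul_of_one_le_right (norm_nonneg _) hz1
    have h4 : ‖(-m : ℂ) * ell γ z‖ ≤ |(m : ℝ)| * ((Real.pi + γ + 3) * z.re) := by
      rw [norm_mul, norm_neg, Complex.norm_intCast]
      refine mul_le_mul_of_nonneg_left (h2.trans ?_) (abs_nonneg _)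
      have : 0 ≤ Real.pi + γ + 2 := by positivity
      nlinarith
    unfold FZ
    refine (norm_sub_le _ _).trans ?_
    have h5 : S2 ≤ S2 * z.re := le_mul_of_one_le_right hS20 hz1
    calc ‖zser lam c (ww γ T z) - (m * Real.log T - r₀)‖ + ‖(-m : ℂ) * ell γ z‖
        ≤ (S2 * z.re + (|(m : ℝ)| * z.re + ‖r₀‖ * z.re)) +
          |(m : ℝ)| * ((Real.pi + γ + 3) * z.re) :=
          add_le_add ((norm_sub_le _ _).trans (add_le_add (h1.trans h5) h3)) h4
      _ = _ := by ring
  have admSC : Adm (2 * T) (fun z : ℂ => zser lam c (ww γ T z) - (m * Real.log T - r₀)) := by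
    obtain ⟨A, B, hA, hB, h⟩ := admS.bound
    obtain ⟨A', B', hA', hB', h'⟩ := admC.bound
    refine ⟨admS.cont.sub admC.cont, A + A', B + B', by positivity, by positivity,
      fun z hz => ?_⟩
    have e1 := h z hz
    have e2 := h' z hz
    refine (norm_sub_le _ _).trans ?_
    linarith
  have admML : Adm (2 * T) (fun z : ℂ => (-m : ℂ) * ell γ z) := by
    obtain ⟨A, B, hA, hB, h⟩ := admL.bound
    refine ⟨continuousOn_const.mul admL.cont, ‖(-m : ℂ)‖ * A, ‖(-m : ℂ)‖ * B, by positivity,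
      by positivity, fun z hz => ?_⟩
    rw [norm_mul]
    calc ‖(-m : ℂ)‖ * ‖ell γ z‖ ≤ ‖(-m : ℂ)‖ * (A + B * z.re) :=
          mul_le_mul_of_nonneg_left (h z hz) (norm_nonneg _)
      _ = _ := by ring
  refine ⟨?_, ?_, hbd⟩
  · refine ⟨admSC.cont.sub admML.cont, 0,
      S2 + |(m : ℝ)| + ‖r₀‖ + |(m : ℝ)| * (Real.pi + γ + 3), le_rfl, ?_, fun z hz => ?_⟩
    · positivity
    · rw [zero_add]
      exact hbd z hz
  · have E1 := zmean_eq (γ := γ) (b := 2 * T) D hT le_rfl
    have e1 : J (2 * T) (FZ lam c γ m r₀ T) =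
        J (2 * T) (fun z : ℂ => zser lam c (ww γ T z) - (m * Real.log T - r₀)) -
        J (2 * T) (fun z : ℂ => (-m : ℂ) * ell γ z) := J_sub hb0 admSC admML
    have e2 : J (2 * T) (fun z : ℂ => zser lam c (ww γ T z) - (m * Real.log T - r₀)) =
        J (2 * T) (fun z : ℂ => zser lam c (ww γ T z)) -
        J (2 * T) (fun _ => (m * Real.log T - r₀ : ℂ)) := J_sub hb0 admS admC
    have e3 : J 1 (ell γ) = J (2 * T) (ell γ) :=
      J_shift' zero_le_one hb1 (ell_adm hγ) (ell_diff γ)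
    have e4 : J (2 * T) (fun z : ℂ => zser lam c (ww γ T z)) = zmean lam c γ T := E1
    rw [e1, e2, J_const_mul, J_cst, e4, ← e3]
    ring

/-- the refined asymptotics of the rotated means for complex coefficients (the proof is the one of
helper338, `Pool.Agent.W338.UR.Ref`) -/
theorem refz [Countable ι] (D : ZData lam c) {γ : ℝ} (hγ : Real.pi / 2 < γ) {m : ℤ} {r₀ : ℂ}
    {L : ℂ → ℂ} {η B : ℝ} (H : Bel m r₀ η B L)
    (hL2 : ∀ w : ℂ, w.re = 2 → -η ≤ w.im → w.im < 0 → -zser lam c w = L w) :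
    ∃ C T₀ : ℝ, 0 ≤ C ∧ 1 ≤ T₀ ∧ ∀ T ≥ T₀,
      ‖zmean lam c γ T - (m * Real.log T - m * J 1 (fun z => log (z - γ * I)) - r₀)‖ ≤ C / T := by
  obtain ⟨hθ1, hθ2, hθ3, hκ0⟩ := th_facts hγ
  have hpi := Real.pi_pos
  have hγ0 : 0 < γ := by linarith
  have hη := H.hη
  obtain ⟨C1, hC1, hleft⟩ := left hγ H
  obtain ⟨Q, hQ, hright⟩ := rightz D hγ0 m r₀
  set θ : ℝ := th γ with hθ
  set κ : ℝ := -Real.cos θ with hκ
  have hq : 0 < (Real.pi + γ) / η := by positivity
  refine ⟨C1 + Q * (2 / κ ^ 2) + Q, (Real.pi + γ) / η + (1 + γ) + 1, by positivity,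
    by linarith, fun T hT => ?_⟩
  have hT1 : 1 ≤ T := by linarith
  have hT0 : 0 < T := by linarith
  obtain ⟨admF, hJ, hF⟩ := hright T hT1
  set b : ℝ := 2 * T with hb
  have hb0 : 0 ≤ b := by linarith
  have hexpb : Real.exp (-b) ≤ 1 / T := by
    rw [Real.exp_neg, le_div_iff₀ hT0, inv_mul_le_iff₀ (Real.exp_pos _), mul_one]
    have := Real.add_one_le_exp b
    linarith
  -- the rays
  have E1 : ‖∫ x in Ioi b, rho (FZ lam c γ m r₀ T) x‖ ≤ Q / T := by
    have := norm_rays_le' (Φ := FZ lam c γ m r₀ T) (A := 0) (B := Q) hb0 le_rfl hQ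
      (s := Ioi b)
      (fun x hx => by have := hF _ (up_mem (le_of_lt hx)); simpa using this)
      (fun x hx => by have := hF _ (down_mem (le_of_lt hx)); simpa using this)
      subset_rfl measurableSet_Ioi
    refine this.trans ?_
    rw [zero_add, div_eq_mul_one_div]
    exact mul_le_mul_of_nonneg_left hexpb hQ
  -- the upper part
  have E2 : ‖∫ y in θ..Real.pi, K (b + y * I) * FZ lam c γ m r₀ T (b + y * I)‖ ≤
      Q * (2 / κ ^ 2) / T * |Real.pi - θ| := by
    refine intervalIntegral.norm_integral_le_of_norm_le_const fun y hy => ?_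
    rw [uIoc_of_le hθ3] at hy
    rw [norm_mul]
    have h1 : ‖K (b + y * I)‖ ≤ Real.exp (-(κ * Real.exp b)) := by
      refine norm_K_neg ?_
      rw [hκ, neg_neg]
      exact Real.cos_le_cos_of_nonneg_of_le_pi (by linarith) hy.2 hy.1.le
    have h2 := hF (b + y * I) (vert_mem (by linarith [hy.1]) hy.2)
    have h3 : ((b : ℂ) + y * I).re = b := by simp
    rw [h3] at h2
    calc ‖K (b + y * I)‖ * ‖FZ lam c γ m r₀ T (b + y * I)‖
        ≤ Real.exp (-(κ * Real.exp b)) * (Q * b) :=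
          mul_le_mul h1 h2 (norm_nonneg _) (Real.exp_pos _).le
      _ = Q * (Real.exp (-(κ * Real.exp b)) * b) := by ring
      _ ≤ Q * (2 / κ ^ 2 * Real.exp (-b)) := mul_le_mul_of_nonneg_left (dexp_le hκ0 hb0) hQ
      _ ≤ Q * (2 / κ ^ 2 * (1 / T)) := by gcongr
      _ = _ := by ring
  -- the lower part
  have E3 : ‖∫ y in (-Real.pi)..θ, K (b + y * I) * FZ lam c γ m r₀ T (b + y * I)‖ ≤
      C1 / T := by
    have h0 : (∫ y in (-Real.pi)..θ, K (b + y * I) * FZ lam c γ m r₀ T (b + y * I)) =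
        -∫ y in (-Real.pi)..θ, K (b + y * I) * Rr m r₀ L (ww γ T (b + y * I)) := by
      rw [← intervalIntegral.integral_neg]
      refine intervalIntegral.integral_congr fun y hy => ?_
      rw [uIcc_of_le (by linarith)] at hy
      have hzr : ((b : ℂ) + y * I).re = b := by simp
      have hzi : ((b : ℂ) + y * I).im = y := by simp
      obtain ⟨d1, d2, d3, d4⟩ := dom hη hγ hT (z := b + y * I) (by rw [hzr]; linarith)
        (by rw [hzr]) (by rw [hzi]; exact hy.1) (by rw [hzi]; exact hy.2)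
      have hre : (ww γ T (b + y * I)).re = 2 := by
        rw [ww_re, hzr, hb]
        field_simp
      have h5 := hL2 _ hre d3 d4
      have h6 : log (ww γ T (b + y * I)) = ell γ (b + y * I) - Real.log T := by
        have h1 : ww γ T (b + y * I) = ((T⁻¹ : ℝ) : ℂ) * (b + y * I - γ * I) := by
          unfold ww
          push_cast
          field_simp
        have h2 : (b : ℂ) + y * I - γ * I ≠ 0 := by
          intro h
          have := congrArg Complex.re h
          simp at this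
          linarith
        unfold ell
        rw [h1, Complex.log_ofReal_mul (by positivity) h2, Real.log_inv]
        push_cast
        ring
      have h7 : FZ lam c γ m r₀ T (b + y * I) = -Rr m r₀ L (ww γ T (b + y * I)) := by
        unfold FZ Rr
        rw [h6]
        linear_combination -h5
      simp only [h7]
      ring
    rw [h0, norm_neg]
    exact hleft T hT
  -- the sum
  have hii := admF.vint
  have hsub1 : IntervalIntegrable (fun y : ℝ => K (b + y * I) * FZ lam c γ m r₀ T (b + y * I))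
      volume (-Real.pi) θ := hii.mono_set (by
        rw [uIcc_of_le (by linarith), uIcc_of_le (by linarith)]
        exact Icc_subset_Icc le_rfl hθ3)
  have hsub2 : IntervalIntegrable (fun y : ℝ => K (b + y * I) * FZ lam c γ m r₀ T (b + y * I))
      volume θ Real.pi := hii.mono_set (by
        rw [uIcc_of_le (by linarith), uIcc_of_le (by linarith)]
        exact Icc_subset_Icc (by linarith) le_rfl)
  have E4 := intervalIntegral.integral_add_adjacent_intervals hsub1 hsub2
  have hn2 : ‖(2 * Real.pi : ℂ)⁻¹‖ = (2 * Real.pi)⁻¹ := by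
    rw [norm_inv, norm_mul, Complex.norm_real, Real.norm_eq_abs, abs_of_pos Real.pi_pos]
    norm_num
  have hpi3 := Real.pi_gt_three
  have hpt : |Real.pi - θ| ≤ 2 * Real.pi := by
    rw [abs_of_nonneg (by linarith)]; linarith
  have E5 : ‖V b (FZ lam c γ m r₀ T)‖ ≤ C1 / T + Q * (2 / κ ^ 2) / T := by
    unfold V
    rw [← E4, norm_mul, hn2, inv_mul_le_iff₀ (by positivity)]
    refine (norm_add_le _ _).trans ?_
    have hx : 0 ≤ C1 / T := by positivity
    have hy : 0 ≤ Q * (2 / κ ^ 2) / T := by positivity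
    have h1 : C1 / T ≤ 2 * Real.pi * (C1 / T) := by nlinarith
    have h2 : Q * (2 / κ ^ 2) / T * |Real.pi - θ| ≤ Q * (2 / κ ^ 2) / T * (2 * Real.pi) :=
      mul_le_mul_of_nonneg_left hpt hy
    calc _ ≤ C1 / T + Q * (2 / κ ^ 2) / T * |Real.pi - θ| := add_le_add E3 E2
      _ ≤ 2 * Real.pi * (C1 / T) + Q * (2 / κ ^ 2) / T * (2 * Real.pi) := add_le_add h1 h2
      _ = _ := by ring
  have E6 : ‖zmean lam c γ T - (m * Real.log T - m * J 1 (ell γ) - r₀)‖ ≤
      (C1 + Q * (2 / κ ^ 2) + Q) / T := by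
    rw [← hJ]
    unfold J
    refine (norm_add_le _ _).trans ((add_le_add E5 E1).trans (le_of_eq ?_))
    ring
  exact E6

end Pool.Agent.N41.RM
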