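import Pool.Agent.W187.UR.BelC
import Pool.Agent.N41.RM.CSer

/-! The logarithm below the real segment, without reality assumptions. -/

set_option autoImplicit false

namespace Pool.Agent.N41.RM

open Complex MeasureTheory Filter Topology Set
open Pool.Agent.W189.ML Pool.Agent.W189.LC Pool.Agent.W338.UR Pool.Agent.W187.UR Pool.Agent.W392.UR

/-- a continuous logarithm is differentiable -/
theorem diff_of_log {f Q : ℂ → ℂ} {w : ℂ} (hf : ContinuousAt f w) (hQ : DifferentiableAt ℂ Q w)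
    (h : ∀ᶠ z in 𝓝 w, exp (f z) = Q z) : DifferentiableAt ℂ f w := by
  have hw := h.self_of_nhds
  have hQ0 : Q w ≠ 0 := by rw [← hw]; exact Complex.exp_ne_zero _
  have h1 : (fun z => f w + log (Q z / Q w)) =ᶠ[𝓝 w] f := by
    have h2 : ∀ᶠ z in 𝓝 w, ‖f z - f w‖ < 1 := by
      have h3 : ContinuousAt (fun z => ‖f z - f w‖) w := (hf.sub continuousAt_const).norm
      refine h3.eventually_lt continuousAt_const ?_
      simp
    filter_upwards [h, h2] with z h3 h4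
    have h5 : Q z / Q w = exp (f z - f w) := by rw [Complex.exp_sub, h3, hw]
    have h6 := (abs_le.1 ((Complex.abs_im_le_norm (f z - f w)).trans h4.le))
    have h7 := Real.pi_gt_three
    rw [h5, Complex.log_exp (by linarith [h6.1]) (by linarith [h6.2])]
    ring
  have h8 : DifferentiableAt ℂ (fun z => f w + log (Q z / Q w)) w := by
    refine (differentiableAt_const _).add (DifferentiableAt.clog (hQ.div_const _) ?_)
    rw [div_self hQ0]
    exact Complex.one_mem_slitPlane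
  exact h8.congr_of_eventuallyEq h1.symm

/-- a logarithm of a function without zeros near the segment -/
theorem rectz {Q : ℂ → ℂ} (hQ : ∀ x ∈ Icc (0 : ℝ) 2, AnalyticAt ℂ Q (x : ℂ))
    (hQ0 : ∀ x ∈ Icc (0 : ℝ) 2, Q (x : ℂ) ≠ 0) :
    ∃ δ > 0, ∃ ℓ : ℂ → ℂ, ∃ M : ℝ, 0 ≤ M ∧ (∀ w : ℂ, 0 ≤ w.re → w.re ≤ 2 → |w.im| ≤ δ →
      ‖ℓ w - ℓ 0‖ ≤ M * ‖w‖ ∧ DifferentiableAt ℂ ℓ w ∧ exp (ℓ w) = Q w) ∧
      ∀ᶠ w in 𝓝 (2 : ℂ), exp (ℓ w) = Q w := by
  set Kc : Set ℂ := (fun x : ℝ => (x : ℂ)) '' Icc 0 2 with hKc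
  have hKcc : IsCompact Kc := isCompact_Icc.image (by fun_prop)
  have hKconv : Convex ℝ Kc := by
    have : Kc = Complex.ofRealCLM '' Icc 0 2 := rfl
    rw [this]
    exact (convex_Icc (0 : ℝ) 2).is_linear_image (IsLinearMap.mk (by simp) (by simp))
  set U : Set ℂ := {w | AnalyticAt ℂ Q w ∧ Q w ≠ 0} with hU
  have hUo : IsOpen U := by
    rw [isOpen_iff_mem_nhds]
    rintro w ⟨hw1, hw2⟩
    filter_upwards [hw1.eventually_analyticAt,
      hw1.continuousAt.eventually (isOpen_ne.mem_nhds hw2)] with v h3 h4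
    exact ⟨h3, h4⟩
  have hKU : Kc ⊆ U := by
    rintro _ ⟨x, hx, rfl⟩
    exact ⟨hQ x hx, hQ0 x hx⟩
  obtain ⟨δ₂, hδ₂, hsub⟩ := hKcc.exists_cthickening_subset_open hUo hKU
  set V : Set ℂ := Metric.thickening δ₂ Kc with hV
  have hVo : IsOpen V := Metric.isOpen_thickening
  have hVU : V ⊆ U := (Metric.thickening_subset_cthickening _ _).trans hsub
  have hVc : Convex ℝ V := hKconv.thickening _
  have hne : V.Nonempty := ⟨((0 : ℝ) : ℂ), Metric.self_subset_thickening hδ₂ _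
    ⟨0, ⟨le_rfl, by norm_num⟩, rfl⟩⟩
  have hsc : IsSimplyConnected V := by
    have := hVc.contractibleSpace hne
    show SimplyConnectedSpace V
    infer_instance
  obtain ⟨ℓ, hℓc, hℓe⟩ := Complex.exists_continuousOn_eqOn_exp_comp
    hsc hVo (g := Q)
    (fun w hw => (hVU hw).1.continuousAt.continuousWithinAt) (by
      rintro ⟨w, hw, h0⟩
      exact (hVU hw).2 h0)
  have hex : ∀ w ∈ V, ∀ᶠ z in 𝓝 w, exp (ℓ z) = Q z := by
    intro w hw
    filter_upwards [hVo.mem_nhds hw] with z hz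
    exact hℓe hz
  have hd : ∀ w ∈ V, DifferentiableAt ℂ ℓ w := fun w hw =>
    diff_of_log (hℓc.continuousAt (hVo.mem_nhds hw)) (hVU hw).1.differentiableAt (hex w hw)
  set δ₁ : ℝ := δ₂ / 2 with hδ₁
  have hδ₁0 : 0 < δ₁ := by positivity
  have hcc : IsCompact (Metric.cthickening δ₁ Kc) := hKcc.cthickening
  have hCV : Metric.cthickening δ₁ Kc ⊆ V :=
    Metric.cthickening_subset_thickening' hδ₂ (by linarith) _
  have h0V : (0 : ℂ) ∈ V := by
    refine hCV ?_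
    refine Metric.self_subset_cthickening _ ⟨0, ⟨le_rfl, by norm_num⟩, by simp⟩
  have hlc : ContinuousOn (dslope ℓ 0) (Metric.cthickening δ₁ Kc) := by
    intro w hw
    by_cases h : w = 0
    · rw [h]
      exact (continuousAt_dslope_same.2 (hd 0 h0V)).continuousWithinAt
    · exact ((continuousAt_dslope_of_ne h).2 (hd w (hCV hw)).continuousAt).continuousWithinAt
  obtain ⟨M, hM⟩ := hcc.exists_bound_of_continuousOn hlc
  have hmem : ∀ w : ℂ, 0 ≤ w.re → w.re ≤ 2 → |w.im| ≤ δ₁ → w ∈ Metric.cthickening δ₁ Kc := by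
    intro w h3 h4 h5
    refine Metric.mem_cthickening_of_dist_le w (w.re : ℂ) δ₁ Kc ⟨w.re, ⟨h3, h4⟩, rfl⟩ ?_
    rw [Complex.dist_eq]
    have : w - (w.re : ℂ) = (w.im : ℂ) * I := by
      apply Complex.ext <;> simp
    rw [this, norm_mul, Complex.norm_I, mul_one, Complex.norm_real, Real.norm_eq_abs]
    exact h5
  refine ⟨δ₁, hδ₁0, ℓ, |M|, abs_nonneg _, fun w h3 h4 h5 => ⟨?_, ?_, ?_⟩, ?_⟩
  · have h6 := hM w (hmem w h3 h4 h5)
    have h7 := sub_smul_dslope ℓ 0 w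
    rw [← h7, sub_zero, smul_eq_mul, norm_mul, mul_comm]
    exact mul_le_mul_of_nonneg_right (h6.trans (le_abs_self M)) (norm_nonneg _)
  · exact hd w (hCV (hmem w h3 h4 h5))
  · exact hℓe (hCV (hmem w h3 h4 h5))
  · refine hex 2 (hCV ?_)
    exact hmem 2 (by norm_num) (by norm_num) (by simpa using hδ₁0.le)

/-- splitting off all the zeros and poles on the segment (no reality assumption; the proof is the one
of helper392, `Pool.Agent.W392.UR.Fac`) -/
theorem facz {Φ g : ℂ → ℂ}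
    (hmero : ∀ x ∈ Icc (0 : ℝ) 2, MeromorphicAt Φ (x : ℂ))
    (htop : ∀ x ∈ Icc (0 : ℝ) 2, meromorphicOrderAt Φ (x : ℂ) ≠ ⊤)
    (hga : ∀ w : ℂ, 1 < w.re → AnalyticAt ℂ g w)
    (heq : ∀ w : ℂ, 1 < w.re → Φ w = exp (g w))
    {m : ℤ} (hm : meromorphicOrderAt Φ 0 = m) :
    ∃ (Z : Finset ℝ) (n : ℝ → ℤ) (Q : ℂ → ℂ), (∀ x ∈ Z, 0 < x ∧ x ≤ 1) ∧
      (∀ x ∈ Icc (0 : ℝ) 2, AnalyticAt ℂ Q (x : ℂ)) ∧
      (∀ x ∈ Icc (0 : ℝ) 2, Q (x : ℂ) ≠ 0) ∧
      (∀ᶠ w in 𝓝 (2 : ℂ), exp (g w) = w ^ m * (∏ x ∈ Z, (w - (x : ℂ)) ^ (n x)) * Q w) ∧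
      meromorphicTrailingCoeffAt Φ 0 = (∏ x ∈ Z, ((0 : ℂ) - (x : ℂ)) ^ (n x)) * Q 0 ∧
      (∑ x ∈ Z, n x) = ∑ᶠ x ∈ Ioc (0 : ℝ) 1, (meromorphicOrderAt Φ (x : ℂ)).untop₀ := by
  classical
  -- the right side
  have hopen : IsOpen {z : ℂ | 1 < z.re} := isOpen_lt continuous_const Complex.continuous_re
  have hnear : ∀ w : ℂ, 1 < w.re → Φ =ᶠ[𝓝 w] fun z => exp (g z) := by
    intro w hw
    filter_upwards [hopen.mem_nhds hw] with z hz
    exact heq z hz
  have hΦa : ∀ w : ℂ, 1 < w.re → AnalyticAt ℂ Φ w := fun w hw =>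
    ((hga w hw).cexp).congr (hnear w hw).symm
  have hΦ0 : ∀ w : ℂ, 1 < w.re → Φ w ≠ 0 := by
    intro w hw
    rw [heq w hw]
    exact Complex.exp_ne_zero _
  have hordr : ∀ w : ℂ, 1 < w.re → meromorphicOrderAt Φ w = 0 := by
    intro w hw
    rw [(hΦa w hw).meromorphicOrderAt_eq, (hΦa w hw).analyticOrderAt_eq_zero.2 (hΦ0 w hw)]
    rfl
  -- the zeros
  have hfin : {x : ℝ | x ∈ Icc (0 : ℝ) 2 ∧ meromorphicOrderAt Φ (x : ℂ) ≠ 0}.Finite := by
    set U : Set ℂ := (fun x : ℝ => (x : ℂ)) '' Icc 0 2 with hU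
    have hmU : MeromorphicOn Φ U := by
      rintro _ ⟨y, hy, rfl⟩
      exact hmero y hy
    have hcp : IsCompact U := isCompact_Icc.image (by fun_prop)
    have hfin := (MeromorphicOn.divisor Φ U).finiteSupport hcp
    refine (hfin.preimage (f := fun x : ℝ => (x : ℂ)) (Complex.ofReal_injective.injOn)).subset ?_
    rintro x ⟨hx, hx0⟩
    have hxU : (x : ℂ) ∈ U := ⟨x, hx, rfl⟩
    simp only [Set.mem_preimage, Function.mem_support]
    rw [MeromorphicOn.divisor_apply hmU hxU]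
    have := htop x hx
    intro h
    rw [WithTop.untop₀_eq_zero] at h
    rcases h with h | h
    · exact hx0 h
    · exact this h
  have hfin2 : {x : ℝ | x ∈ Ioc (0 : ℝ) 1 ∧ meromorphicOrderAt Φ (x : ℂ) ≠ 0}.Finite :=
    hfin.subset fun x hx => ⟨⟨hx.1.1.le, hx.1.2.trans (by norm_num)⟩, hx.2⟩
  set Z : Finset ℝ := hfin2.toFinset with hZ
  have hZm : ∀ x, x ∈ Z ↔ x ∈ Ioc (0 : ℝ) 1 ∧ meromorphicOrderAt Φ (x : ℂ) ≠ 0 := fun x =>
    hfin2.mem_toFinset
  set n : ℝ → ℤ := fun x => (meromorphicOrderAt Φ (x : ℂ)).untop₀ with hn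
  have hnx : ∀ x ∈ Icc (0 : ℝ) 2, meromorphicOrderAt Φ (x : ℂ) = (n x : WithTop ℤ) := fun x hx =>
    (WithTop.coe_untop₀_of_ne_top (htop x hx)).symm
  have h0Z : (0 : ℝ) ∉ Z := fun h => lt_irrefl _ ((hZm 0).1 h).1.1
  have hn0 : n 0 = m := by
    have h1 := hnx 0 ⟨le_rfl, by norm_num⟩
    rw [Complex.ofReal_zero, hm] at h1
    exact_mod_cast h1.symm
  set A : Finset ℝ := insert 0 Z with hA
  set P : ℂ → ℂ := fun w => ∏ x ∈ A, (w - (x : ℂ)) ^ (-n x) with hP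
  set P' : ℂ → ℂ := fun w => ∏ x ∈ A, (w - (x : ℂ)) ^ (n x) with hP'
  have hPP : ∀ w : ℂ, (∀ x ∈ A, w ≠ (x : ℂ)) → P' w * P w = 1 := by
    intro w hw
    rw [hP, hP']
    simp only
    rw [← Finset.prod_mul_distrib]
    refine Finset.prod_eq_one fun x hx => ?_
    rw [← zpow_add₀ (sub_ne_zero.2 (hw x hx))]
    simp
  have hA1 : ∀ x ∈ A, 0 ≤ x ∧ x ≤ 1 := by
    intro x hx
    rw [hA, Finset.mem_insert] at hx
    rcases hx with rfl | hx
    · exact ⟨le_rfl, zero_le_one⟩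
    · have := ((hZm x).1 hx).1
      exact ⟨this.1.le, this.2⟩
  have hPa : ∀ y : ℝ, y ∉ A → AnalyticAt ℂ P (y : ℂ) := by
    intro y hy
    rw [hP]
    refine Finset.analyticAt_fun_prod _ fun x hx => ?_
    refine AnalyticAt.zpow (by fun_prop) ?_
    rw [sub_ne_zero]
    intro h
    have : y = x := by exact_mod_cast h
    exact hy (this ▸ hx)
  -- the quotient
  set U : Set ℂ := {z | MeromorphicAt Φ z} with hU
  set g0 : ℂ → ℂ := fun w => P w * Φ w with hg0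
  have hPm : ∀ z : ℂ, MeromorphicAt P z := by
    intro z
    rw [hP]
    refine MeromorphicAt.fun_prod fun x _ => ?_
    fun_prop
  have hgm : MeromorphicOn g0 U := fun z hz' => (hPm z).mul hz'
  have hmem : ∀ x ∈ Icc (0 : ℝ) 2, (x : ℂ) ∈ U := fun x hx => hmero x hx
  set Q : ℂ → ℂ := toMeromorphicNFOn g0 U with hQ
  have hNF : MeromorphicNFOn Q U := meromorphicNFOn_toMeromorphicNFOn g0 U
  have hord : ∀ x ∈ Icc (0 : ℝ) 2, meromorphicOrderAt Q (x : ℂ) = 0 := by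
    intro x hx
    rw [hQ, meromorphicOrderAt_toMeromorphicNFOn hgm (hmem x hx), hg0]
    have h4 : meromorphicOrderAt (fun w => P w * Φ w) (x : ℂ) =
        meromorphicOrderAt P (x : ℂ) + meromorphicOrderAt Φ (x : ℂ) :=
      meromorphicOrderAt_mul (hPm x) (hmem x hx)
    rw [h4, hP, (order_prod A (fun x => -n x) x).2]
    by_cases hxA : x ∈ A
    · rw [if_pos hxA, hnx x hx]
      norm_cast
      simp
    · rw [if_neg hxA]
      have h5 : meromorphicOrderAt Φ (x : ℂ) = 0 := by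
        rcases le_or_gt x 1 with h | h
        · by_contra hne
          apply hxA
          rw [hA, Finset.mem_insert]
          rcases hx.1.eq_or_lt with h6 | h6
          · exact Or.inl h6.symm
          · exact Or.inr ((hZm x).2 ⟨⟨h6, h⟩, hne⟩)
        · exact hordr x (by simpa using h)
      rw [h5]
      simp
  have hQa : ∀ x ∈ Icc (0 : ℝ) 2, AnalyticAt ℂ Q (x : ℂ) := fun x hx =>
    (hNF (hmem x hx)).meromorphicOrderAt_nonneg_iff_analyticAt.1 (hord x hx).ge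
  have hQ0 : ∀ x ∈ Icc (0 : ℝ) 2, Q (x : ℂ) ≠ 0 := fun x hx =>
    (hNF (hmem x hx)).meromorphicOrderAt_eq_zero_iff.1 (hord x hx)
  have hQne : ∀ x ∈ Icc (0 : ℝ) 2, Q =ᶠ[𝓝[≠] (x : ℂ)] g0 := fun x hx =>
    hgm.toMeromorphicNFOn_eq_self_on_nhdsNE (hmem x hx)
  have hxA : ∀ x : ℝ, 1 < x → x ∉ A := fun x hx h => absurd (hA1 x h).2 (not_le.2 hx)
  -- on `(1, 2]` the functions agree
  have hQg : ∀ x ∈ Icc (0 : ℝ) 2, 1 < x → Q =ᶠ[𝓝 (x : ℂ)] g0 := by
    intro x hx hx1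
    have h6 : AnalyticAt ℂ g0 (x : ℂ) := (hPa x (hxA x hx1)).mul (hΦa x (by simpa using hx1))
    exact ((hQa x hx).continuousAt.eventuallyEq_nhds_iff_eventuallyEq_nhdsNE h6.continuousAt).1
      (hQne x hx)
  have h22 : (2 : ℝ) ∈ Icc (0 : ℝ) 2 := ⟨by norm_num, le_rfl⟩
  have hP'eq : ∀ w : ℂ, P' w = w ^ m * ∏ x ∈ Z, (w - (x : ℂ)) ^ (n x) := by
    intro w
    rw [hP', hA]
    simp only
    rw [Finset.prod_insert h0Z, Complex.ofReal_zero, sub_zero, hn0]
  refine ⟨Z, n, Q, fun x hx => ((hZm x).1 hx).1, hQa, hQ0, ?_, ?_⟩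
  · have h7 := hQg 2 h22 (by norm_num)
    have h8 := hnear ((2 : ℝ) : ℂ) (by simp)
    have h9 : ∀ᶠ w : ℂ in 𝓝 (((2 : ℝ) : ℂ)), ∀ x ∈ A, w ≠ (x : ℂ) := by
      rw [Finset.eventually_all]
      intro x hx
      refine isOpen_ne.mem_nhds ?_
      intro h
      have h10 : (2 : ℝ) = x := by exact_mod_cast h
      have := (hA1 x hx).2
      linarith
    have h10 : ((2 : ℝ) : ℂ) = 2 := by norm_num
    rw [h10] at h7 h8 h9
    filter_upwards [h7, h8, h9] with w e1 e2 e3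
    rw [e1, hg0, ← hP'eq]
    simp only
    rw [← e2, ← mul_assoc, hPP w e3, one_mul]
  · set G : ℂ → ℂ := fun w => (∏ x ∈ Z, (w - (x : ℂ)) ^ (n x)) * Q w with hG
    have h00 : (0 : ℝ) ∈ Icc (0 : ℝ) 2 := ⟨le_rfl, by norm_num⟩
    have hZne : ∀ x ∈ Z, (0 : ℂ) - (x : ℂ) ≠ 0 := by
      intro x hx
      rw [zero_sub, neg_ne_zero]
      have := ((hZm x).1 hx).1.1
      exact_mod_cast this.ne'
    have hGa : AnalyticAt ℂ G 0 := by
      have h1 : AnalyticAt ℂ (fun w : ℂ => ∏ x ∈ Z, (w - (x : ℂ)) ^ (n x)) 0 := by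
        refine Finset.analyticAt_fun_prod _ fun x hx => ?_
        exact AnalyticAt.zpow (by fun_prop) (hZne x hx)
      have h2 := hQa 0 h00
      rw [Complex.ofReal_zero] at h2
      exact h1.mul h2
    have hQ00 : Q 0 ≠ 0 := by
      have := hQ0 0 h00
      rwa [Complex.ofReal_zero] at this
    have hG0 : G 0 ≠ 0 := by
      rw [hG]
      refine mul_ne_zero (Finset.prod_ne_zero_iff.2 fun x hx => ?_) hQ00
      exact zpow_ne_zero _ (hZne x hx)
    have htr : meromorphicTrailingCoeffAt Φ 0 = G 0 := by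
      refine hGa.meromorphicTrailingCoeffAt_of_ne_zero_of_eq_nhdsNE (n := m) hG0 ?_
      have e0 := hQne 0 h00
      rw [Complex.ofReal_zero] at e0
      have e9 : ∀ᶠ w : ℂ in 𝓝[≠] (0 : ℂ), ∀ x ∈ A, w ≠ (x : ℂ) := by
        rw [Finset.eventually_all]
        intro x hx
        by_cases hx0 : x = 0
        · rw [hx0, Complex.ofReal_zero]
          exact self_mem_nhdsWithin
        · refine mem_nhdsWithin_of_mem_nhds (isOpen_ne.mem_nhds ?_)
          intro h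
          apply hx0
          exact_mod_cast h.symm
      filter_upwards [e0, e9] with w e1 e2
      rw [smul_eq_mul, sub_zero, hG]
      simp only
      rw [← mul_assoc, ← hP'eq, e1, hg0]
      simp only
      rw [← mul_assoc, hPP w e2, one_mul]
    refine ⟨htr, ?_⟩
    have hsupp : ∀ x : ℝ, x ∈ Z ↔ x ∈ Ioc (0 : ℝ) 1 ∧ n x ≠ 0 := by
      intro x
      rw [hZm x]
      refine and_congr_right fun hx => ?_
      have h1 := hnx x ⟨hx.1.le, by linarith [hx.2]⟩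
      rw [h1]
      norm_cast
    have h2 : (∑ᶠ x ∈ Ioc (0 : ℝ) 1, n x) = ∑ x ∈ Z, n x := by
      refine finsum_mem_eq_sum_of_inter_support_eq _ ?_
      ext x
      simp only [Set.mem_inter_iff, Function.mem_support, Finset.mem_coe, hsupp x]
      tauto
    rw [← h2]


/-- two continuous logarithms differ by a constant near `2` -/
theorem branchz {L ℓ : ℂ → ℂ} (hL : ContinuousAt L 2) (hℓ : ContinuousAt ℓ 2)
    (h : ∀ᶠ w in 𝓝 (2 : ℂ), exp (L w) = exp (ℓ w)) :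
    ∃ (k : ℤ), ∃ δ > 0, ∀ w : ℂ, dist w 2 < δ → L w = ℓ w + k * (2 * Real.pi * I) := by
  obtain ⟨k, hk⟩ := Complex.exp_eq_exp_iff_exists_int.1 h.self_of_nhds
  refine ⟨k, ?_⟩
  set d : ℂ → ℂ := fun w => L w - ℓ w - k * (2 * Real.pi * I) with hd
  have hdc : ContinuousAt d 2 := (hL.sub hℓ).sub continuousAt_const
  have hd2 : d 2 = 0 := by
    rw [hd]
    simp only
    rw [hk]
    ring
  have hexp : ∀ᶠ w in 𝓝 (2 : ℂ), exp (d w) = 1 := by
    filter_upwards [h] with w hw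
    rw [hd]
    simp only
    rw [Complex.exp_sub, Complex.exp_sub, hw, Complex.exp_int_mul, Complex.exp_two_pi_mul_I,
      one_zpow, div_self (Complex.exp_ne_zero _), div_one]
  have hsmall : ∀ᶠ w in 𝓝 (2 : ℂ), ‖d w‖ < 1 := by
    have := hdc.norm
    have h3 : ‖d 2‖ < 1 := by rw [hd2]; simp
    exact this.eventually (gt_mem_nhds h3)
  have hz : ∀ᶠ w in 𝓝 (2 : ℂ), d w = 0 := by
    filter_upwards [hexp, hsmall] with w e1 e2
    obtain ⟨n, hn⟩ := Complex.exp_eq_one_iff.1 e1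
    by_cases hn0 : n = 0
    · rw [hn, hn0]; simp
    · exfalso
      rw [hn] at e2
      rw [norm_mul, norm_mul, norm_mul, Complex.norm_I, Complex.norm_real, Real.norm_eq_abs,
        abs_of_pos Real.pi_pos, Complex.norm_intCast] at e2
      have : (1 : ℝ) ≤ |(n : ℝ)| := by
        have := Int.one_le_abs hn0
        exact_mod_cast this
      have h3 := Real.pi_gt_three
      norm_num at e2
      nlinarith
  obtain ⟨δ, hδ, h3⟩ := Metric.eventually_nhds_iff.1 hz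
  refine ⟨δ, hδ, fun w hw => ?_⟩
  have := h3 hw
  rw [hd] at this
  simp only at this
  linear_combination this

/-- **the logarithm below the real segment** -/
theorem belz {Φ g : ℂ → ℂ}
    (h1 : ∀ x ∈ Icc (0 : ℝ) 2, MeromorphicAt Φ (x : ℂ))
    (h2 : ∀ x ∈ Icc (0 : ℝ) 2, meromorphicOrderAt Φ (x : ℂ) ≠ ⊤)
    (h3 : ∀ w : ℂ, 1 < w.re → AnalyticAt ℂ g w)
    (h4 : ∀ w : ℂ, 1 < w.re → Φ w = exp (g w))
    {m : ℤ} (hm : meromorphicOrderAt Φ 0 = m) :
    ∃ (η B : ℝ) (L : ℂ → ℂ) (r₀ : ℂ), Bel m r₀ η B L ∧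
      (∀ w : ℂ, w.re = 2 → -η ≤ w.im → w.im < 0 → g w = L w) ∧
      exp r₀ = meromorphicTrailingCoeffAt Φ 0 := by
  obtain ⟨Z, n, Q, hZ, hQa, hQ0, hQ2, htr, hN⟩ := facz h1 h2 h3 h4 hm
  obtain ⟨δ₁, hδ₁, ℓ, M, hM0, hM, hℓ2⟩ := rectz hQa hQ0
  -- the branch near `2`
  have hg2 : AnalyticAt ℂ g 2 := h3 2 (by norm_num)
  have hne2 : ∀ x ∈ Z, (2 : ℂ) - (x : ℂ) ∈ slitPlane := by
    intro x hx
    left
    have := (hZ x hx).2
    simp
    linarith
  have hs2 : (2 : ℂ) ∈ slitPlane := by left; simp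
  set L₀ : ℂ → ℂ := fun w => m * log w + (∑ x ∈ Z, (n x : ℂ) * log (w - x)) + ℓ w with hL₀
  have hℓc : ContinuousAt ℓ 2 := (hM 2 (by norm_num) (by norm_num) (by
    simpa using hδ₁.le)).2.1.continuousAt
  have hL₀c : ContinuousAt L₀ 2 := by
    refine ContinuousAt.add (ContinuousAt.add ?_ ?_) hℓc
    · exact continuousAt_const.mul (ContinuousAt.clog continuousAt_id hs2)
    · refine tendsto_finsetSum _ fun x hx => ?_
      exact continuousAt_const.mul (ContinuousAt.clog (by fun_prop) (hne2 x hx))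
  obtain ⟨k, δ₂, hδ₂, hbr⟩ := branchz (L := g) (ℓ := L₀) hg2.continuousAt hL₀c (by
      have e1 : ∀ᶠ w in 𝓝 (2 : ℂ), w ∈ slitPlane := isOpen_slitPlane.mem_nhds hs2
      have e2 : ∀ᶠ w in 𝓝 (2 : ℂ), ∀ x ∈ Z, w - (x : ℂ) ∈ slitPlane := by
        rw [Filter.eventually_all_finset]
        intro x hx
        have : ContinuousAt (fun w : ℂ => w - (x : ℂ)) 2 := by fun_prop
        exact this.eventually (isOpen_slitPlane.mem_nhds (hne2 x hx))
      filter_upwards [hQ2, e1, e2, hℓ2] with w h6 h7 h8 h5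
      have h9 : w ≠ 0 := slitPlane_ne_zero h7
      have h10 : ∀ x ∈ Z, w - (x : ℂ) ≠ 0 := fun x hx => slitPlane_ne_zero (h8 x hx)
      rw [hL₀]
      simp only
      rw [Complex.exp_add, Complex.exp_add, h6, Complex.exp_int_mul, Complex.exp_log h9,
        Complex.exp_sum, h5]
      have h11 : ∏ x ∈ Z, exp ((n x : ℂ) * log (w - x)) = ∏ x ∈ Z, (w - (x : ℂ)) ^ (n x) :=
        Finset.prod_congr rfl fun x hx => by
          rw [Complex.exp_int_mul, Complex.exp_log (h10 x hx)]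
      rw [h11])
  set η : ℝ := min (min δ₁ (δ₂ / 2)) 1 with hη
  have hη0 : 0 < η := lt_min (lt_min hδ₁ (by positivity)) one_pos
  set L : ℂ → ℂ := fun w => L₀ w + k * (2 * Real.pi * I) with hL
  set r₀ : ℂ := (∑ x ∈ Z, (n x : ℂ) * (Real.log x - Real.pi * I)) + ℓ 0 +
    k * (2 * Real.pi * I) with hr₀
  refine ⟨η, (∑ x ∈ Z, |(n x : ℝ)| * Cx x) + M, L, r₀, ⟨hη0, ?_, ?_, ?_⟩, ?_, ?_⟩
  · have : 0 ≤ ∑ x ∈ Z, |(n x : ℝ)| * Cx x :=
      Finset.sum_nonneg fun x hx => mul_nonneg (abs_nonneg _) (Cx_nonneg (hZ x hx).1)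
    linarith
  · intro w h6 h7 h8 h9
    have h10 : |w.im| ≤ δ₁ := by
      rw [abs_of_neg h9]
      have := (min_le_left (min δ₁ (δ₂ / 2)) 1).trans (min_le_left _ _)
      linarith
    have h11 := (hM w h6.le h7 h10).2.1
    rw [hL, hL₀]
    refine DifferentiableAt.add_const _ (DifferentiableAt.add (DifferentiableAt.add ?_ ?_) h11)
    · exact (DifferentiableAt.clog differentiableAt_id (Or.inl h6)).const_mul _
    · refine DifferentiableAt.fun_sum fun x hx => ?_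
      refine (DifferentiableAt.clog (by fun_prop) (Or.inr ?_)).const_mul _
      simp
      exact h9.ne
  · intro w h6 h7 h8 h9
    have h10 : |w.im| ≤ δ₁ := by
      rw [abs_of_neg h9]
      have := (min_le_left (min δ₁ (δ₂ / 2)) 1).trans (min_le_left _ _)
      linarith
    have h8' : -1 ≤ w.im := by
      have := min_le_right (min δ₁ (δ₂ / 2)) 1
      linarith
    have h11 := (hM w h6.le h7 h10).1
    have h12 : L w - m * log w - r₀ = (∑ x ∈ Z, (n x : ℂ) *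
        (log (w - x) - (Real.log x - Real.pi * I))) + (ℓ w - ℓ 0) := by
      rw [hL, hr₀, hL₀]
      simp only [mul_sub, Finset.sum_sub_distrib]
      ring
    rw [h12]
    set X := ‖w‖ * (1 + ‖w‖ * |Real.log (-w.im)|) with hX
    have hX1 : ‖w‖ ≤ X := by
      have : 0 ≤ ‖w‖ * (‖w‖ * |Real.log (-w.im)|) := by positivity
      rw [hX]; nlinarith
    have h13 : ‖∑ x ∈ Z, (n x : ℂ) * (log (w - x) - (Real.log x - Real.pi * I))‖ ≤
        ∑ x ∈ Z, |(n x : ℝ)| * Cx x * X := by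
      refine norm_sum_le_of_le _ fun x hx => ?_
      rw [norm_mul, Complex.norm_intCast, mul_assoc]
      exact mul_le_mul_of_nonneg_left (one_zero (hZ x hx).1 (hZ x hx).2 h6 h7 h8' h9)
        (abs_nonneg _)
    rw [← Finset.sum_mul] at h13
    calc ‖_ + (ℓ w - ℓ 0)‖ ≤ (∑ x ∈ Z, |(n x : ℝ)| * Cx x) * X + M * ‖w‖ :=
          (norm_add_le _ _).trans (add_le_add h13 h11)
      _ ≤ (∑ x ∈ Z, |(n x : ℝ)| * Cx x) * X + M * X := by gcongr
      _ = _ := by rw [hX]; ring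
  · intro w h6 h7 h8
    have h9 : dist w 2 < δ₂ := by
      rw [Complex.dist_eq]
      have e1 : w - 2 = ((w.im : ℝ) : ℂ) * I := by
        apply Complex.ext <;> simp [h6]
      rw [e1, norm_mul, Complex.norm_I, mul_one, Complex.norm_real, Real.norm_eq_abs,
        abs_of_neg h8]
      have := (min_le_left (min δ₁ (δ₂ / 2)) 1).trans (min_le_right _ _)
      linarith
    exact hbr w h9
  · have h00 : exp (ℓ 0) = Q 0 := (hM 0 (by simp) (by simp) (by simpa using hδ₁.le)).2.2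
    rw [htr, hr₀, Complex.exp_add, Complex.exp_add, Complex.exp_sum, h00, Complex.exp_int_mul,
      Complex.exp_two_pi_mul_I, one_zpow, mul_one]
    congr 1
    refine Finset.prod_congr rfl fun x hx => ?_
    have hx0 := (hZ x hx).1
    rw [Complex.exp_int_mul, Complex.exp_sub, Complex.exp_pi_mul_I, ← Complex.ofReal_exp,
      Real.exp_log hx0]
    congr 1
    ring

end Pool.Agent.N41.RM
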