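import Pool.Agent.N41.RM.Off

/-! Euler products of arbitrary weight and the rotated law at an arbitrary point of the plane. -/

set_option autoImplicit false

namespace Pool.Agent.N41.RM

open Filter Topology Set
open Pool.Agent.W187.UR (Lam cmean)
open Pool.Agent.W189.ML (ser om)

variable {P : Type} {N : ℕ}

/-- the data of an Euler product with parameters of absolute value at most `q ^ κ` -/
structure EG (κ : ℝ) (q : P → ℝ) (a : P → Fin N → ℂ) : Prop where
  two_le : ∀ v, 2 ≤ q v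
  sum : ∀ σ : ℝ, 1 < σ → Summable fun v => q v ^ (-σ)
  ha : ∀ v j, ‖a v j‖ ≤ q v ^ κ
  real : ∀ v k, (∑ j, a v j ^ (k + 1)).im = 0

variable {q : P → ℝ} {a : P → Fin N → ℂ} {κ : ℝ}

theorem EG.pos (E : EG κ q a) (v : P) : 0 < q v := by linarith [E.two_le v]

theorem EG.fq_nonneg (E : EG κ q a) (x : P × ℕ) : 0 ≤ fq q x := by
  unfold fq
  have := Real.log_nonneg (by linarith [E.two_le x.1] : 1 ≤ q x.1)
  positivity

theorem EG.cq_le (E : EG κ q a) (x : P × ℕ) :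
    |cq a x| ≤ N * (q x.1 ^ κ) ^ (x.2 + 1) := by
  have hq0 := E.pos x.1
  have h0 : (0 : ℝ) ≤ x.2 := x.2.cast_nonneg
  unfold cq
  rw [abs_div, abs_of_pos (by positivity : (0 : ℝ) < (x.2 : ℝ) + 1), div_le_iff₀ (by positivity)]
  have h1 : |(∑ j, a x.1 j ^ (x.2 + 1)).re| ≤ N * (q x.1 ^ κ) ^ (x.2 + 1) := by
    refine (Complex.abs_re_le_norm _).trans ?_
    refine (norm_sum_le_of_le (n := fun _ => (q x.1 ^ κ) ^ (x.2 + 1)) _
      fun j _ => ?_).trans (le_of_eq ?_)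
    · rw [norm_pow]
      exact pow_le_pow_left₀ (norm_nonneg _) (E.ha x.1 j) _
    · rw [Finset.sum_const, Finset.card_univ, Fintype.card_fin, nsmul_eq_mul]
  refine h1.trans (le_mul_of_one_le_right (by positivity) (by linarith))

theorem EG.exp_fq (E : EG κ q a) (σ : ℝ) (x : P × ℕ) :
    Real.exp (-(σ * fq q x)) = (q x.1 ^ (-σ)) ^ (x.2 + 1) := by
  have hq0 := E.pos x.1
  rw [← Real.rpow_natCast, ← Real.rpow_mul hq0.le, Real.rpow_def_of_pos hq0]
  unfold fq
  congr 1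
  push_cast
  ring

theorem EG.term_le (E : EG κ q a) {σ : ℝ} (hσ : 1 + κ ≤ σ) (x : P × ℕ) :
    |cq a x| * Real.exp (-(σ * fq q x)) ≤ (N * q x.1 ^ (-(σ - κ))) * (1 / 2) ^ x.2 := by
  have hq0 := E.pos x.1
  rw [E.exp_fq]
  have h1 : (q x.1 ^ κ) ^ (x.2 + 1) * (q x.1 ^ (-σ)) ^ (x.2 + 1) =
      q x.1 ^ (-(σ - κ)) * (q x.1 ^ (-(σ - κ))) ^ x.2 := by
    rw [← mul_pow, ← Real.rpow_add hq0, pow_succ', show κ + -σ = -(σ - κ) by ring]
  have h2 : q x.1 ^ (-(σ - κ)) ≤ 1 / 2 := by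
    calc q x.1 ^ (-(σ - κ)) ≤ q x.1 ^ (-1 : ℝ) :=
          Real.rpow_le_rpow_of_exponent_le (by linarith [E.two_le x.1]) (by linarith)
      _ = (q x.1)⁻¹ := Real.rpow_neg_one _
      _ ≤ 2⁻¹ := inv_anti₀ (by norm_num) (E.two_le x.1)
      _ = 1 / 2 := by norm_num
  calc |cq a x| * (q x.1 ^ (-σ)) ^ (x.2 + 1)
      ≤ N * (q x.1 ^ κ) ^ (x.2 + 1) * (q x.1 ^ (-σ)) ^ (x.2 + 1) := by
        gcongr
        exact E.cq_le x
    _ = (N * q x.1 ^ (-(σ - κ))) * (q x.1 ^ (-(σ - κ))) ^ x.2 := by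
      rw [mul_assoc, h1, mul_assoc]
    _ ≤ _ := by gcongr

theorem EG.summable (E : EG κ q a) {σ : ℝ} (hσ : 1 + κ < σ) :
    Summable fun x => |cq a x| * Real.exp (-(σ * fq q x)) := by
  have hg : Summable fun n : ℕ => (1 / 2 : ℝ) ^ n :=
    summable_geometric_of_lt_one (by norm_num) (by norm_num)
  have h1 := ((E.sum (σ - κ) (by linarith)).mul_left (N : ℝ)).mul_of_nonneg hg
    (fun v => by
      have := E.pos v
      show 0 ≤ (N : ℝ) * q v ^ (-(σ - κ))
      positivity) (fun n => by positivity)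
  exact Summable.of_nonneg_of_le (fun x => by positivity) (fun x => E.term_le (by linarith) x) h1

/-- the Euler factor at `v` in terms of the series -/
theorem EG.factor_sum (E : EG κ q a) {w : ℂ} (hw : 1 + κ < w.re) (v : P) :
    HasSum (fun n : ℕ => (cq a (v, n) : ℂ) * Complex.exp (-(w * fq q (v, n))))
      (∑' n : ℕ, (cq a (v, n) : ℂ) * Complex.exp (-(w * fq q (v, n)))) ∧
    Complex.exp (∑' n : ℕ, (cq a (v, n) : ℂ) * Complex.exp (-(w * fq q (v, n)))) =
      ∏ j, (1 - a v j * (q v : ℂ) ^ (-w))⁻¹ := by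
  have hq0 := E.pos v
  set x : ℂ := (q v : ℂ) ^ (-w) with hx
  have hxn : ‖x‖ = q v ^ (-w.re) := by
    rw [hx, Complex.norm_cpow_eq_rpow_re_of_pos hq0]
    simp
  have hb : ∀ j, ‖a v j * x‖ < 1 := by
    intro j
    rw [norm_mul, hxn]
    calc ‖a v j‖ * q v ^ (-w.re) ≤ q v ^ κ * q v ^ (-w.re) := by
          gcongr
          exact E.ha v j
      _ = q v ^ (κ + -w.re) := (Real.rpow_add hq0 _ _).symm
      _ < 1 := Real.rpow_lt_one_of_one_lt_of_neg (by linarith [E.two_le v]) (by linarith)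
  have hterm : ∀ n : ℕ, (cq a (v, n) : ℂ) * Complex.exp (-(w * fq q (v, n))) =
      ∑ j, (a v j * x) ^ (n + 1) / ((n + 1 : ℕ) : ℂ) := by
    intro n
    have e1 : x ^ (n + 1) = Complex.exp (-(w * fq q (v, n))) := by
      have hqc : (q v : ℂ) ≠ 0 := by exact_mod_cast hq0.ne'
      rw [hx, Complex.cpow_def_of_ne_zero hqc, ← Complex.exp_nat_mul]
      congr 1
      unfold fq
      rw [← Complex.ofReal_log hq0.le]
      push_cast
      ring
    have e2 : (cq a (v, n) : ℂ) = (∑ j, a v j ^ (n + 1)) / ((n + 1 : ℕ) : ℂ) := by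
      have e3 : ((∑ j, a v j ^ (n + 1)).re : ℂ) = ∑ j, a v j ^ (n + 1) := by
        apply Complex.ext
        · simp
        · rw [E.real v n, Complex.ofReal_im]
      unfold cq
      push_cast
      rw [e3]
    rw [e2, ← e1, Finset.sum_div, Finset.sum_mul]
    refine Finset.sum_congr rfl fun j _ => ?_
    rw [mul_pow]
    ring
  have hs : ∀ z : ℂ, ‖z‖ < 1 →
      HasSum (fun n : ℕ => z ^ (n + 1) / ((n + 1 : ℕ) : ℂ)) (-Complex.log (1 - z)) := by
    intro z hz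
    have := Complex.hasSum_taylorSeries_neg_log hz
    rw [← hasSum_nat_add_iff' 1] at this
    simpa using this
  have hS : HasSum (fun n : ℕ => (cq a (v, n) : ℂ) * Complex.exp (-(w * fq q (v, n))))
      (∑ j, -Complex.log (1 - a v j * x)) := by
    simp only [hterm]
    exact hasSum_sum fun j _ => hs _ (hb j)
  refine ⟨hS.summable.hasSum, ?_⟩
  rw [hS.tsum_eq, Complex.exp_sum]
  refine Finset.prod_congr rfl fun j _ => ?_
  rw [Complex.exp_neg]
  have hne : 1 - a v j * x ≠ 0 := by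
    intro h
    rw [sub_eq_zero] at h
    have := hb j
    rw [← h] at this
    simp at this
  rw [Complex.exp_log hne]

theorem EG.csummable (E : EG κ q a) {w : ℂ} (hw : 1 + κ < w.re) :
    Summable fun x : P × ℕ => (cq a x : ℂ) * Complex.exp (-(w * fq q x)) := by
  refine Summable.of_norm_bounded (E.summable hw) fun x => ?_
  rw [norm_mul, Complex.norm_real, Real.norm_eq_abs, norm_expo]

/-- the Euler product is the exponential of the series -/
theorem EG.hasProd (E : EG κ q a) {w : ℂ} (hw : 1 + κ < w.re) :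
    HasProd (fun v => ∏ j, (1 - a v j * (q v : ℂ) ^ (-w))⁻¹)
      (Complex.exp (ser (fq q) (cq a) w)) := by
  have h1 : HasSum (fun x : P × ℕ => (cq a x : ℂ) * Complex.exp (-(w * fq q x)))
      (ser (fq q) (cq a) w) := (E.csummable hw).hasSum
  have h2 := h1.prod_fiberwise (fun v => (E.factor_sum hw v).1)
  have h3 := h2.cexp
  have h4 : (Complex.exp ∘ fun v =>
      ∑' n : ℕ, (cq a (v, n) : ℂ) * Complex.exp (-(w * fq q (v, n)))) =
      fun v => ∏ j, (1 - a v j * (q v : ℂ) ^ (-w))⁻¹ := by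
    funext v
    exact (E.factor_sum hw v).2
  rw [h4] at h3
  exact h3

/-- the data for the rotated law -/
theorem EG.ds (E : EG κ q a) {F : ℂ → ℂ} (hm : ∀ s, MeromorphicAt F s)
    (hF : ∀ s : ℂ, 1 + κ < s.re → F s = ∏' v, ∏ j, (1 - a v j * (q v : ℂ) ^ (-s))⁻¹) :
    DS (1 + κ) (fq q) (cq a) F where
  lam_nonneg := E.fq_nonneg
  sum := fun σ hσ => E.summable hσ
  mero := hm
  eq := fun s hs => by rw [hF s hs, (E.hasProd hs).tprod_eq]

/-- the term of the rotated mean at the point `σ₀ + i t` -/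
noncomputable def oterm (q : P → ℝ) (a : P → Fin N → ℂ) (σ₀ t γ T : ℝ) (x : P × ℕ) : ℂ :=
  (((∑ j, a x.1 j ^ (x.2 + 1)).re / ((x.2 + 1) * q x.1 ^ (σ₀ * (x.2 + 1))) *
    Real.cos (t * ((x.2 + 1) * Real.log (q x.1))) : ℝ) : ℂ) *
    (Complex.exp ((γ * ((x.2 + 1) * Real.log (q x.1) / T) : ℝ) * Complex.I) /
      (Real.Gamma (1 + (x.2 + 1) * Real.log (q x.1) / T) : ℂ))

theorem EG.oterm_eq (E : EG κ q a) (σ₀ t γ T : ℝ) (x : P × ℕ) : oterm q a σ₀ t γ T x =
    (offc (fq q) (cq a) σ₀ t x : ℂ) * Complex.exp ((γ * (fq q x / T) : ℝ) * Complex.I) *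
      (om (fq q x / T) : ℂ) := by
  have hq0 := E.pos x.1
  unfold oterm offc om
  have h1 : Real.exp (-(σ₀ * fq q x)) = (q x.1 ^ (σ₀ * (x.2 + 1)))⁻¹ := by
    rw [← Real.rpow_neg hq0.le, Real.rpow_def_of_pos hq0]
    unfold fq
    congr 1
    ring
  have h2 : fq q x = (x.2 + 1) * Real.log (q x.1) := rfl
  have h3 : cq a x = (∑ j, a x.1 j ^ (x.2 + 1)).re / (x.2 + 1) := rfl
  rw [h1, h2, h3, div_mul_eq_div_div]
  push_cast
  ring

theorem EG.oterm_summable (E : EG κ q a) (σ₀ t γ : ℝ) {T : ℝ} (hT : 0 < T) :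
    Summable fun x => ‖oterm q a σ₀ t γ T x‖ := by
  set σ : ℝ := 1 + |κ| + |σ₀| + 1 with hσ
  have h0 := abs_nonneg κ
  have h00 := abs_nonneg σ₀
  have h01 := le_abs_self κ
  have h02 := neg_abs_le σ₀
  have hσ0 : 0 < σ := by rw [hσ]; linarith
  refine Summable.of_nonneg_of_le (fun x => norm_nonneg _) (fun x => ?_)
    ((E.summable (σ := σ₀ + σ) (by rw [hσ]; linarith)).mul_left
      (Real.exp (Real.exp (σ * T)) + 1))
  rw [E.oterm_eq, norm_mul, norm_mul, Complex.norm_exp_ofReal_mul_I, mul_one,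
    Complex.norm_real, Complex.norm_real, Real.norm_eq_abs, Real.norm_eq_abs]
  have hv : 0 ≤ fq q x / T := div_nonneg (E.fq_nonneg x) hT.le
  have h1 := Pool.Agent.W189.ML.om_le (a := σ * T) (v := fq q x / T) (by positivity) hv
  have h2 : σ * T * (fq q x / T) = σ * fq q x := by field_simp
  rw [h2] at h1
  have h3 : 0 ≤ om (fq q x / T) := by
    unfold om
    exact inv_nonneg.2 (Real.Gamma_nonneg_of_nonneg (by linarith))
  rw [abs_of_nonneg h3]
  have h4 : |offc (fq q) (cq a) σ₀ t x| ≤ |cq a x| * Real.exp (-(σ₀ * fq q x)) := by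
    unfold offc
    rw [abs_mul, abs_mul, abs_of_pos (Real.exp_pos _)]
    exact mul_le_of_le_one_right (by positivity) (Real.abs_cos_le_one _)
  have h5 : Real.exp (-((σ₀ + σ) * fq q x)) =
      Real.exp (-(σ₀ * fq q x)) * Real.exp (-(σ * fq q x)) := by
    rw [← Real.exp_add]; congr 1; ring
  rw [h5]
  calc |offc (fq q) (cq a) σ₀ t x| * om (fq q x / T)
      ≤ (|cq a x| * Real.exp (-(σ₀ * fq q x))) * ((Real.exp (Real.exp (σ * T)) + 1) *
        Real.exp (-(σ * fq q x))) := by gcongr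
    _ = _ := by ring

/-- **The rotated law at an arbitrary point of the plane, for Euler products.** -/
theorem EG.off [Countable P] (E : EG κ q a) {F : ℂ → ℂ} (hm : ∀ s, MeromorphicAt F s)
    (hF : ∀ s : ℂ, 1 + κ < s.re → F s = ∏' v, ∏ j, (1 - a v j * (q v : ℂ) ^ (-s))⁻¹)
    (σ₀ t : ℝ) {γ : ℝ} (hγ : Real.pi / 2 < γ) :
    ∃ (n : ℤ) (l : ℂ), meromorphicOrderAt F (σ₀ + t * Complex.I) = n ∧
      meromorphicTrailingCoeffAt F (σ₀ + t * Complex.I) = l ∧ l ≠ 0 ∧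
      (fun T : ℝ => (∑' x, oterm q a σ₀ t γ T x) - (-n * (Real.log T - Lam γ) +
        Real.log ‖l‖ - Real.pi * rayN F σ₀ t * Complex.I)) =O[atTop] (fun T : ℝ => 1 / T) := by
  obtain ⟨n, l, h1, h2, h3, h4⟩ := (E.ds hm hF).off σ₀ t hγ
  refine ⟨n, l, h1, h2, h3, ?_⟩
  refine h4.congr_left fun T => ?_
  congr 1
  unfold cmean
  exact tsum_congr fun x => (E.oterm_eq σ₀ t γ T x).symm

end Pool.Agent.N41.RM
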