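import Pool.Agent.N41.RM.CBel
import Pool.Agent.N41.RM.Off2

/-! The rotated law at an arbitrary point of the plane, for series with complex coefficients. -/

set_option autoImplicit false

namespace Pool.Agent.N41.RM

open Filter Topology Set
open Pool.Agent.W187.UR (Lam Lam_eq)
open Pool.Agent.W189.ML (om)

variable {ι : Type}

theorem zser_neg (lam : ι → ℝ) (c : ι → ℂ) (w : ℂ) :
    zser lam (fun i => -c i) w = -zser lam c w := by
  unfold zser
  rw [← tsum_neg]
  exact tsum_congr fun i => by ring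

theorem zmean_neg (lam : ι → ℝ) (c : ι → ℂ) (γ T : ℝ) :
    zmean lam (fun i => -c i) γ T = -zmean lam c γ T := by
  unfold zmean
  rw [← tsum_neg]
  exact tsum_congr fun i => by ring

theorem zser_analytic {A : ℝ} {lam : ι → ℝ} {c : ι → ℂ} (hlam : ∀ i, 0 ≤ lam i)
    (hsum : ∀ σ : ℝ, A < σ → Summable fun i => ‖c i‖ * Real.exp (-(σ * lam i)))
    {s : ℂ} (hs : A < s.re) : AnalyticAt ℂ (zser lam c) s := by
  set ρ : ℝ := (A + s.re) / 2 with hρ
  have hρ1 : A < ρ := by rw [hρ]; linarith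
  have hρσ : ρ < s.re := by rw [hρ]; linarith
  have hopen : IsOpen {z : ℂ | ρ < z.re} := isOpen_lt continuous_const Complex.continuous_re
  have h1 : DifferentiableOn ℂ (zser lam c) {z : ℂ | ρ < z.re} := by
    unfold zser
    refine Complex.differentiableOn_tsum_of_summable_norm
      (hsum _ hρ1) (fun i => ?_) hopen (fun i z hz => ?_)
    · exact Differentiable.differentiableOn (by fun_prop)
    · rw [norm_mul, norm_expo]
      refine mul_le_mul_of_nonneg_left ?_ (norm_nonneg _)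
      apply Real.exp_le_exp.2
      have hz' : ρ < z.re := hz
      have := hlam i
      nlinarith
  exact h1.analyticAt (hopen.mem_nhds (show ρ < s.re from hρσ))

/-- the order is finite along the segment -/
theorem ne_top_seg {Φ g : ℂ → ℂ} (hmer : ∀ x ∈ Icc (0 : ℝ) 2, MeromorphicAt Φ (x : ℂ))
    (hg : ∀ w : ℂ, 1 < w.re → AnalyticAt ℂ g w)
    (heq : ∀ w : ℂ, 1 < w.re → Φ w = Complex.exp (g w)) {x : ℝ} (hx : x ∈ Icc (0 : ℝ) 2) :
    meromorphicOrderAt Φ (x : ℂ) ≠ ⊤ := by
  set U : Set ℂ := (fun x : ℝ => (x : ℂ)) '' Icc 0 2 with hU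
  have hm : MeromorphicOn Φ U := by
    rintro _ ⟨y, hy, rfl⟩
    exact hmer y hy
  have hc : IsPreconnected U :=
    isPreconnected_Icc.image _ (Continuous.continuousOn (by fun_prop))
  refine hm.meromorphicOrderAt_ne_top_of_isPreconnected hc (x := ((2 : ℝ) : ℂ))
    ⟨2, ⟨by norm_num, le_rfl⟩, rfl⟩ ⟨x, hx, rfl⟩ ?_
  have h2 : (1 : ℝ) < (((2 : ℝ) : ℂ)).re := by simp
  have hopen : IsOpen {z : ℂ | 1 < z.re} := isOpen_lt continuous_const Complex.continuous_re
  have hev : Φ =ᶠ[𝓝 ((2 : ℝ) : ℂ)] fun z => Complex.exp (g z) := by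
    filter_upwards [hopen.mem_nhds h2] with z hz
    exact heq z hz
  have h1 : AnalyticAt ℂ Φ ((2 : ℝ) : ℂ) := (hg _ h2).cexp.congr hev.symm
  rw [Pool.Agent.R409.RA.order_of_ne h1 (by rw [heq _ h2]; exact Complex.exp_ne_zero _)]
  exact WithTop.zero_ne_top

theorem zrot [Countable ι] {lam : ι → ℝ} {c : ι → ℂ} {Φ : ℂ → ℂ}
    (hlam : ∀ i, 0 ≤ lam i)
    (hsum : ∀ σ : ℝ, 1 < σ → Summable fun i => ‖c i‖ * Real.exp (-(σ * lam i)))
    (hmer : ∀ x ∈ Icc (0 : ℝ) 2, MeromorphicAt Φ (x : ℂ))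
    (heq : ∀ w : ℂ, 1 < w.re → Φ w = Complex.exp (zser lam c w)) {γ : ℝ}
    (hγ : Real.pi / 2 < γ) :
    ∃ (m : ℤ) (r₀ : ℂ) (C T₀ : ℝ), meromorphicOrderAt Φ 0 = m ∧
      Complex.exp r₀ = meromorphicTrailingCoeffAt Φ 0 ∧ 0 ≤ C ∧ 1 ≤ T₀ ∧
      ∀ T ≥ T₀, ‖-zmean lam c γ T - (m * (Real.log T - Lam γ) - r₀)‖ ≤ C / T := by
  have hg : ∀ w : ℂ, 1 < w.re → AnalyticAt ℂ (zser lam c) w := fun w hw =>
    zser_analytic hlam hsum hw
  have htop : ∀ x ∈ Icc (0 : ℝ) 2, meromorphicOrderAt Φ (x : ℂ) ≠ ⊤ := fun x hx =>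
    ne_top_seg hmer hg heq hx
  have h0 := htop 0 ⟨le_rfl, by norm_num⟩
  rw [Complex.ofReal_zero] at h0
  obtain ⟨m, hm⟩ := WithTop.ne_top_iff_exists.1 h0
  obtain ⟨η, B, L, r₀, hL, hL2, hr⟩ := belz hmer htop hg heq hm.symm
  have D : ZData lam (fun i => -c i) := ⟨hlam, by
    have := hsum 2 (by norm_num)
    simpa using this⟩
  obtain ⟨C, T₀, hC, hT₀, h⟩ := refz D hγ hL (by
    intro w h1 h2 h3
    rw [zser_neg, neg_neg]
    exact hL2 w h1 h2 h3)
  refine ⟨m, r₀, C, T₀, hm.symm, hr, hC, hT₀, fun T hT => ?_⟩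
  have h1 := h T hT
  rw [zmean_neg, Lam_eq] at h1
  refine le_trans (le_of_eq ?_) h1
  congr 1
  ring

/-- the abstract theorem with an arbitrary half-plane of convergence -/
theorem zrot_scale [Countable ι] {lam : ι → ℝ} {c : ι → ℂ} {Φ : ℂ → ℂ} {A : ℝ} (hA : 0 < A)
    (hlam : ∀ i, 0 ≤ lam i)
    (hsum : ∀ σ : ℝ, A < σ → Summable fun i => ‖c i‖ * Real.exp (-(σ * lam i)))
    (hmer : ∀ x ∈ Icc (0 : ℝ) (2 * A), MeromorphicAt Φ (x : ℂ))
    (heq : ∀ w : ℂ, A < w.re → Φ w = Complex.exp (zser lam c w)) {γ : ℝ}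
    (hγ : Real.pi / 2 < γ) :
    ∃ (m : ℤ) (r₀ : ℂ) (C T₀ : ℝ), meromorphicOrderAt Φ 0 = m ∧
      Complex.exp r₀ = meromorphicTrailingCoeffAt Φ 0 ∧
      ∀ T ≥ T₀, ‖-zmean lam c γ T - (m * (Real.log T - Lam γ) - r₀)‖ ≤ C / T := by
  have hAc : (A : ℂ) ≠ 0 := by exact_mod_cast hA.ne'
  have hser : ∀ w, zser (fun i => A * lam i) c w = zser lam c (A * w) := by
    intro w
    unfold zser
    refine tsum_congr fun i => ?_
    congr 2
    push_cast
    ring
  obtain ⟨m, r₀, C, T₀, hm, hr, hC, hT₀, h⟩ := zrot (lam := fun i => A * lam i) (c := c)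
    (Φ := fun w => Φ (A * w)) (fun i => mul_nonneg hA.le (hlam i))
    (fun σ hσ => by
        have h1 := hsum (A * σ) (by nlinarith)
        refine h1.congr fun i => ?_
        congr 2
        ring)
    (fun x hx => by
        have h1 := hmer (A * x) ⟨mul_nonneg hA.le hx.1, by nlinarith [hx.2]⟩
        push_cast at h1
        exact mero_scale h1)
    (fun w hw => by
        rw [hser, heq]
        rw [Complex.re_ofReal_mul]
        nlinarith) hγ
  have hmer0 : MeromorphicAt Φ 0 := by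
    have := hmer 0 ⟨le_rfl, by positivity⟩
    rwa [Complex.ofReal_zero] at this
  rw [order_scale hAc, mul_zero] at hm
  rw [coeff_scale hAc hmer0 hm] at hr
  refine ⟨m, r₀ - m * Real.log A, C / A, T₀ / A, hm, ?_, ?_⟩
  · rw [Complex.exp_sub, hr, Complex.exp_int_mul, ← Complex.ofReal_exp, Real.exp_log hA]
    field_simp
  · intro T hT
    have h1 := h (A * T) (by
      have := (div_le_iff₀ hA).1 hT
      linarith)
    have hT0 : 0 < T := by
      have h2 : 0 < T₀ / A := div_pos (by linarith) hA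
      linarith
    have h2 : zmean (fun i => A * lam i) c γ (A * T) = zmean lam c γ T := by
      unfold zmean
      refine tsum_congr fun i => ?_
      have h3 : A * lam i / (A * T) = lam i / T := mul_div_mul_left _ _ hA.ne'
      rw [h3]
    rw [h2, Real.log_mul hA.ne' hT0.ne'] at h1
    have h4 : -zmean lam c γ T - (↑m * (↑(Real.log T) - Lam γ) - (r₀ - ↑m * ↑(Real.log A))) =
        -zmean lam c γ T - (↑m * (↑(Real.log A + Real.log T) - Lam γ) - r₀) := by
      push_cast
      ring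
    rw [h4]
    exact h1.trans (div_div C A T).ge

/-- the coefficients at the point `s` -/
noncomputable def ptc (lam : ι → ℝ) (c : ι → ℂ) (s : ℂ) (i : ι) : ℂ :=
  c i * Complex.exp (-(s * lam i))

/-- **The rotated law at an arbitrary point of the plane, complex coefficients.** `F` only has to be
meromorphic on the horizontal half line to the right of the point. -/
theorem law_point [Countable ι] {A : ℝ} {lam : ι → ℝ} {c : ι → ℂ} {F : ℂ → ℂ}
    (hlam : ∀ i, 0 ≤ lam i)
    (hsum : ∀ σ : ℝ, A < σ → Summable fun i => ‖c i‖ * Real.exp (-(σ * lam i)))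
    (s : ℂ) (hmer : ∀ x : ℝ, 0 ≤ x → MeromorphicAt F (s + x))
    (heq : ∀ z : ℂ, A < z.re → F z = Complex.exp (zser lam c z)) {γ : ℝ}
    (hγ : Real.pi / 2 < γ) :
    ∃ (n : ℤ) (ℓ : ℂ), meromorphicOrderAt F s = n ∧
      Complex.exp ℓ = meromorphicTrailingCoeffAt F s ∧
      (fun T : ℝ => zmean lam (ptc lam c s) γ T - (-n * (Real.log T - Lam γ) + ℓ))
        =O[atTop] (fun T : ℝ => 1 / T) := by
  set B : ℝ := max (A - s.re) 1 with hB
  have hB0 : 0 < B := lt_of_lt_of_le one_pos (le_max_right _ _)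
  have hBA : A - s.re ≤ B := le_max_left _ _
  obtain ⟨m, r₀, C, T₀, h1, h2, h3⟩ := zrot_scale (lam := lam) (c := ptc lam c s)
    (Φ := fun w => F (s + w)) hB0 hlam
    (fun σ hσ => by
      refine (hsum (s.re + σ) (by linarith)).congr fun i => ?_
      unfold ptc
      rw [norm_mul, norm_expo, mul_assoc, ← Real.exp_add]
      congr 2
      ring)
    (fun x hx => MeromorphicAt.comp_analyticAt (f := F) (g := fun w => s + w)
      (hmer x hx.1) (by fun_prop))
    (fun w hw => by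
      have hA1 : A < (s + w).re := by rw [Complex.add_re]; linarith
      show F (s + w) = _
      rw [heq _ hA1]
      congr 1
      unfold zser
      refine tsum_congr fun i => ?_
      unfold ptc
      rw [mul_assoc, ← Complex.exp_add]
      congr 2
      ring) hγ
  rw [order_sh, add_zero] at h1
  rw [coeff_sh] at h2
  refine ⟨m, r₀, h1, h2, ?_⟩
  refine Asymptotics.IsBigO.of_bound C ?_
  filter_upwards [eventually_ge_atTop T₀, eventually_gt_atTop 0] with T hT hT1
  have h5 := h3 T hT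
  rw [Real.norm_eq_abs, abs_of_pos (by positivity : 0 < 1 / T), mul_one_div]
  rw [← norm_neg] at h5
  refine le_trans (le_of_eq ?_) h5
  congr 1
  ring

/-- the product form -/
theorem exp_of_law {W : ℝ → ℂ} {Λ ℓ : ℂ} {n : ℤ}
    (h : (fun T : ℝ => W T - (-n * (Real.log T - Λ) + ℓ)) =O[atTop] (fun T : ℝ => 1 / T)) :
    Tendsto (fun T : ℝ => (T : ℂ) ^ n * Complex.exp (W T)) atTop
      (𝓝 (Complex.exp (n * Λ) * Complex.exp ℓ)) := by
  have h1 : Tendsto (fun T : ℝ => W T - (-n * (Real.log T - Λ) + ℓ)) atTop (𝓝 0) := by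
    refine h.trans_tendsto ?_
    exact tendsto_const_nhds.div_atTop tendsto_id
  have h2 : Tendsto (fun T : ℝ => Complex.exp (W T - (-n * (Real.log T - Λ) + ℓ)) *
      (Complex.exp (n * Λ) * Complex.exp ℓ)) atTop
      (𝓝 (1 * (Complex.exp (n * Λ) * Complex.exp ℓ))) := by
    refine Tendsto.mul_const _ ?_
    have := (Complex.continuous_exp.tendsto 0).comp h1
    simpa [Function.comp_def] using this
  rw [one_mul] at h2
  refine h2.congr' ?_
  filter_upwards [eventually_gt_atTop 0] with T hT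
  have h3 : (T : ℂ) ^ n = Complex.exp (n * Real.log T) := by
    rw [Complex.exp_int_mul, ← Complex.ofReal_exp, Real.exp_log hT]
  rw [h3, ← Complex.exp_add, ← Complex.exp_add, ← Complex.exp_add]
  congr 1
  ring

/-- a limit along one sequence determines the order and the coefficient -/
theorem iff_law {W : ℝ → ℂ} {Λ l : ℂ} {n : ℤ} (hl0 : l ≠ 0)
    (h : Tendsto (fun T : ℝ => (T : ℂ) ^ n * Complex.exp (W T)) atTop
      (𝓝 (Complex.exp (n * Λ) * l))) (r : ℤ) {B : ℂ} (hB : B ≠ 0) {t : ℕ → ℝ}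
    (ht : Tendsto t atTop atTop)
    (h1 : Tendsto (fun k => (t k : ℂ) ^ r * Complex.exp (W (t k))) atTop
      (𝓝 (Complex.exp (r * Λ) * B))) : n = r ∧ l = B := by
  have h := h.comp ht
  set c₁ : ℂ := Complex.exp (n * Λ) * l with hc₁
  set c₀ : ℂ := Complex.exp (r * Λ) * B with hc₀
  have hc₁0 : c₁ ≠ 0 := mul_ne_zero (Complex.exp_ne_zero _) hl0
  have hc₀0 : c₀ ≠ 0 := mul_ne_zero (Complex.exp_ne_zero _) hB
  have h2 : Tendsto (fun k => (t k : ℂ) ^ (n - r)) atTop (𝓝 (c₁ / c₀)) := by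
    refine (h.div h1 hc₀0).congr' ?_
    filter_upwards [ht.eventually (eventually_gt_atTop 0)] with k hT
    have hTc : (t k : ℂ) ≠ 0 := by exact_mod_cast hT.ne'
    have h3 := Complex.exp_ne_zero (W (t k))
    rw [zpow_sub₀ hTc]
    have h4 : (t k : ℂ) ^ n ≠ 0 := zpow_ne_zero _ hTc
    have h5 : (t k : ℂ) ^ r ≠ 0 := zpow_ne_zero _ hTc
    simp only [Pi.div_apply, Function.comp_apply]
    field_simp
  have h3 : Tendsto (fun k => (t k) ^ (n - r)) atTop (𝓝 ‖c₁ / c₀‖) := by
    refine h2.norm.congr' ?_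
    filter_upwards [ht.eventually (eventually_gt_atTop 0)] with k hT
    rw [norm_zpow, Complex.norm_real, Real.norm_eq_abs, abs_of_pos hT]
  have h4 : n - r = 0 := by
    rcases lt_trichotomy (n - r) 0 with h5 | h5 | h5
    · exfalso
      have h6 : Tendsto (fun k => (t k) ^ (n - r)) atTop (𝓝 0) :=
        (tendsto_zpow_atTop_zero h5).comp ht
      have h7 := tendsto_nhds_unique h3 h6
      rw [norm_eq_zero] at h7
      exact div_ne_zero hc₁0 hc₀0 h7
    · exact h5
    · exfalso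
      have h6 : Tendsto (fun T : ℝ => T ^ (n - r)) atTop atTop := by
        obtain ⟨k, hk⟩ := Int.eq_ofNat_of_zero_le h5.le
        rw [hk]
        simp only [zpow_natCast]
        refine tendsto_pow_atTop ?_
        intro h0
        rw [h0] at hk
        rw [hk] at h5
        exact absurd h5 (by simp)
      exact not_tendsto_nhds_of_tendsto_atTop (h6.comp ht) _ h3
  have h5 : n = r := by linarith
  subst h5
  have h6 : c₀ = c₁ := by
    refine tendsto_nhds_unique h1 ?_
    simpa [Function.comp_def] using h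
  refine ⟨rfl, ?_⟩
  rw [hc₀, hc₁] at h6
  exact (mul_left_cancel₀ (Complex.exp_ne_zero _) h6).symm

end Pool.Agent.N41.RM
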