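import Pool.Agent.N41.RM.Pts

/-! Euler products with an arbitrary abscissa of convergence of the sum of the norms. -/

set_option autoImplicit false

namespace Pool.Agent.N41.RM

open Filter Topology Set
open Pool.Agent.W187.UR (Lam cmean)
open Pool.Agent.W189.LC (MData)
open Pool.Agent.W189.ML (ser om)

/-! ### Scaling -/

theorem mero_scale {Φ : ℂ → ℂ} {A x : ℂ} (h : MeromorphicAt Φ (A * x)) :
    MeromorphicAt (fun w => Φ (A * w)) x :=
  MeromorphicAt.comp_analyticAt (f := Φ) (g := fun w : ℂ => A * w) h (by fun_prop)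

theorem order_scale {Φ : ℂ → ℂ} {A : ℂ} (hA : A ≠ 0) (x : ℂ) :
    meromorphicOrderAt (fun w => Φ (A * w)) x = meromorphicOrderAt Φ (A * x) := by
  have h1 : deriv (fun w : ℂ => A * w) x ≠ 0 := by
    rw [deriv_const_mul_field, deriv_id'', mul_one]
    exact hA
  exact meromorphicOrderAt_comp_of_deriv_ne_zero (f := Φ) (g := fun w : ℂ => A * w)
    (by fun_prop) h1

theorem coeff_scale {Φ : ℂ → ℂ} {A : ℂ} (hA : A ≠ 0) (h : MeromorphicAt Φ 0) {m : ℤ}
    (hm : meromorphicOrderAt Φ 0 = m) :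
    meromorphicTrailingCoeffAt (fun w => Φ (A * w)) 0 =
      A ^ m * meromorphicTrailingCoeffAt Φ 0 := by
  have h1 := lim_of_order h hm rfl
  have h2 : Tendsto (fun w : ℂ => A * w) (𝓝[≠] 0) (𝓝[≠] 0) := by
    rw [tendsto_nhdsWithin_iff]
    constructor
    · have : Tendsto (fun w : ℂ => A * w) (𝓝 0) (𝓝 (A * 0)) := by
        exact (continuous_const.mul continuous_id).tendsto 0
      rw [mul_zero] at this
      exact this.mono_left nhdsWithin_le_nhds
    · filter_upwards [self_mem_nhdsWithin] with w hw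
      exact mul_ne_zero hA hw
  have h3 := (h1.comp h2).const_mul (A ^ m)
  have h4 : Tendsto (fun s => (s - 0) ^ (-m) * (fun w => Φ (A * w)) s) (𝓝[≠] 0)
      (𝓝 (A ^ m * meromorphicTrailingCoeffAt Φ 0)) := by
    refine h3.congr' ?_
    filter_upwards [self_mem_nhdsWithin] with w hw
    simp only [Function.comp_apply, sub_zero]
    rw [mul_zpow, ← mul_assoc, ← mul_assoc, ← zpow_add₀ hA, add_neg_cancel, zpow_zero, one_mul]
  have h5 : MeromorphicAt (fun w => Φ (A * w)) 0 := mero_scale (by rwa [mul_zero])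
  have h6 : meromorphicOrderAt (fun w => Φ (A * w)) 0 = m := by
    rw [order_scale hA, mul_zero, hm]
  exact tendsto_nhds_unique (lim_of_order h5 h6 rfl) h4

variable {ι : Type}

/-- the abstract theorem with an arbitrary half-plane of convergence -/
theorem rot_scale [Countable ι] {lam c : ι → ℝ} {Φ : ℂ → ℂ} {A : ℝ} (hA : 0 < A)
    (hlam : ∀ i, 0 ≤ lam i)
    (hsum : ∀ σ : ℝ, A < σ → Summable fun i => |c i| * Real.exp (-(σ * lam i)))
    (hmer : ∀ x ∈ Icc (0 : ℝ) (2 * A), MeromorphicAt Φ (x : ℂ))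
    (heq : ∀ w : ℂ, A < w.re → Φ w = Complex.exp (ser lam c w)) {γ : ℝ}
    (hγ : Real.pi / 2 < γ) :
    ∃ (m : ℤ) (r₀ : ℂ) (C T₀ : ℝ), meromorphicOrderAt Φ 0 = m ∧
      Complex.exp r₀ = meromorphicTrailingCoeffAt Φ 0 ∧
      r₀.im = -Real.pi * ((∑ᶠ x ∈ Ioc (0 : ℝ) A, (meromorphicOrderAt Φ (x : ℂ)).untop₀ : ℤ) : ℝ) ∧
      ∀ T ≥ T₀, ‖-cmean lam c γ T - (m * (Real.log T - Lam γ) - r₀)‖ ≤ C / T := by
  have hAc : (A : ℂ) ≠ 0 := by exact_mod_cast hA.ne'
  have hser : ∀ w, ser (fun i => A * lam i) c w = ser lam c (A * w) := by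
    intro w
    unfold ser
    refine tsum_congr fun i => ?_
    congr 2
    push_cast
    ring
  have D : MData (fun i => A * lam i) c (fun w => Φ (A * w)) :=
    { lam_pos := fun i => mul_nonneg hA.le (hlam i)
      sum := fun σ hσ => by
        have h1 := hsum (A * σ) (by nlinarith)
        refine h1.congr fun i => ?_
        congr 2
        ring
      mero := fun x hx => by
        have h1 := hmer (A * x) ⟨mul_nonneg hA.le hx.1, by nlinarith [hx.2]⟩
        push_cast at h1
        exact mero_scale h1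
      eq := fun w hw => by
        rw [hser, heq]
        rw [Complex.re_ofReal_mul]
        nlinarith }
  have htop := D.order_ne_top (x := 0) ⟨le_rfl, by norm_num⟩
  rw [Complex.ofReal_zero] at htop
  obtain ⟨m, hm⟩ := WithTop.ne_top_iff_exists.1 htop
  obtain ⟨r₀, C, T₀, hr, hi, hC, hT₀, h⟩ := Pool.Agent.W187.UR.mdata_rot D (m := m) hm.symm hγ
  have hmer0 : MeromorphicAt Φ 0 := by
    have := hmer 0 ⟨le_rfl, by positivity⟩
    rwa [Complex.ofReal_zero] at this
  rw [order_scale hAc, mul_zero] at hm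
  rw [coeff_scale hAc hmer0 hm.symm] at hr
  refine ⟨m, r₀ - m * Real.log A, C / A, T₀ / A, hm.symm, ?_, ?_, ?_⟩
  · rw [Complex.exp_sub, hr, Complex.exp_int_mul, ← Complex.ofReal_exp, Real.exp_log hA]
    field_simp
  · rw [Complex.sub_im, hi]
    have h1 : ((m : ℂ) * Real.log A).im = 0 := by
      rw [Complex.im_mul_ofReal, Complex.intCast_im, zero_mul]
    rw [h1, sub_zero]
    have h2 : Ioc (0 : ℝ) A = (fun x : ℝ => A * x) '' Ioc (0 : ℝ) 1 := by
      rw [Set.image_mul_left_Ioc hA, mul_zero, mul_one]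
    have h3 : (∑ᶠ x ∈ Ioc (0 : ℝ) 1, (meromorphicOrderAt (fun w => Φ (A * w)) (x : ℂ)).untop₀) =
        ∑ᶠ x ∈ Ioc (0 : ℝ) A, (meromorphicOrderAt Φ (x : ℂ)).untop₀ := by
      rw [h2, finsum_mem_image (mul_right_injective₀ hA.ne').injOn]
      refine finsum_mem_congr rfl fun x _ => ?_
      rw [order_scale hAc]
      push_cast
      rfl
    rw [h3]
  · intro T hT
    have h1 := h (A * T) (by
      have := (div_le_iff₀ hA).1 hT
      linarith)
    have hT0 : 0 < T := by
      have h2 : 0 < T₀ / A := div_pos (by linarith) hA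
      linarith
    have h2 : cmean (fun i => A * lam i) c γ (A * T) = cmean lam c γ T := by
      unfold cmean
      refine tsum_congr fun i => ?_
      have h3 : A * lam i / (A * T) = lam i / T := mul_div_mul_left _ _ hA.ne'
      rw [h3]
    rw [h2, Real.log_mul hA.ne' hT0.ne'] at h1
    have h4 : -cmean lam c γ T - (↑m * (↑(Real.log T) - Lam γ) - (r₀ - ↑m * ↑(Real.log A))) =
        -cmean lam c γ T - (↑m * (↑(Real.log A + Real.log T) - Lam γ) - r₀) := by
      push_cast
      ring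
    rw [h4]
    exact h1.trans (div_div C A T).ge

/-! ### Euler products -/

variable {P : Type} {N : ℕ}

/-- the data of an Euler product normalised at the point, with `∑ q_v^{-σ}` convergent for `σ > A` -/
structure EM (A : ℝ) (q : P → ℝ) (a : P → Fin N → ℂ) : Prop where
  one_le : 1 ≤ A
  two_le : ∀ v, 2 ≤ q v
  sum : ∀ σ : ℝ, A < σ → Summable fun v => q v ^ (-σ)
  ha : ∀ v j, ‖a v j‖ ≤ q v ^ (-(1 / 2) : ℝ)
  real : ∀ v k, (∑ j, a v j ^ (k + 1)).im = 0

variable {q : P → ℝ} {a : P → Fin N → ℂ} {A : ℝ}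

theorem EM.pos (E : EM A q a) (v : P) : 0 < q v := by linarith [E.two_le v]

theorem EM.fq_nonneg (E : EM A q a) (x : P × ℕ) : 0 ≤ fq q x := by
  unfold fq
  have := Real.log_nonneg (by linarith [E.two_le x.1] : 1 ≤ q x.1)
  positivity

theorem EM.cq_le (E : EM A q a) (x : P × ℕ) :
    |cq a x| ≤ N * (q x.1 ^ (-(1 / 2) : ℝ)) ^ (x.2 + 1) := by
  have hq0 := E.pos x.1
  have h0 : (0 : ℝ) ≤ x.2 := x.2.cast_nonneg
  unfold cq
  rw [abs_div, abs_of_pos (by positivity : (0 : ℝ) < (x.2 : ℝ) + 1), div_le_iff₀ (by positivity)]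
  have h1 : |(∑ j, a x.1 j ^ (x.2 + 1)).re| ≤ N * (q x.1 ^ (-(1 / 2) : ℝ)) ^ (x.2 + 1) := by
    refine (Complex.abs_re_le_norm _).trans ?_
    refine (norm_sum_le_of_le (n := fun _ => (q x.1 ^ (-(1 / 2) : ℝ)) ^ (x.2 + 1)) _
      fun j _ => ?_).trans (le_of_eq ?_)
    · rw [norm_pow]
      exact pow_le_pow_left₀ (norm_nonneg _) (E.ha x.1 j) _
    · rw [Finset.sum_const, Finset.card_univ, Fintype.card_fin, nsmul_eq_mul]
  refine h1.trans (le_mul_of_one_le_right (by positivity) (by linarith))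

theorem EM.exp_fq (E : EM A q a) (σ : ℝ) (x : P × ℕ) :
    Real.exp (-(σ * fq q x)) = (q x.1 ^ (-σ)) ^ (x.2 + 1) := by
  have hq0 := E.pos x.1
  rw [← Real.rpow_natCast, ← Real.rpow_mul hq0.le, Real.rpow_def_of_pos hq0]
  unfold fq
  congr 1
  push_cast
  ring

theorem EM.term_le (E : EM A q a) {σ : ℝ} (hσ : 1 / 2 ≤ σ) (x : P × ℕ) :
    |cq a x| * Real.exp (-(σ * fq q x)) ≤ (N * q x.1 ^ (-(1 / 2 + σ))) * (1 / 2) ^ x.2 := by
  have hq0 := E.pos x.1
  rw [E.exp_fq]
  have h1 : (q x.1 ^ (-(1 / 2) : ℝ)) ^ (x.2 + 1) * (q x.1 ^ (-σ)) ^ (x.2 + 1) =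
      q x.1 ^ (-(1 / 2 + σ)) * (q x.1 ^ (-(1 / 2 + σ))) ^ x.2 := by
    rw [← mul_pow, ← Real.rpow_add hq0, pow_succ', show -(1 / 2 : ℝ) + -σ = -(1 / 2 + σ) by ring]
  have h2 : q x.1 ^ (-(1 / 2 + σ)) ≤ 1 / 2 := by
    calc q x.1 ^ (-(1 / 2 + σ)) ≤ q x.1 ^ (-1 : ℝ) :=
          Real.rpow_le_rpow_of_exponent_le (by linarith [E.two_le x.1]) (by linarith)
      _ = (q x.1)⁻¹ := Real.rpow_neg_one _
      _ ≤ 2⁻¹ := inv_anti₀ (by norm_num) (E.two_le x.1)
      _ = 1 / 2 := by norm_num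
  calc |cq a x| * (q x.1 ^ (-σ)) ^ (x.2 + 1)
      ≤ N * (q x.1 ^ (-(1 / 2) : ℝ)) ^ (x.2 + 1) * (q x.1 ^ (-σ)) ^ (x.2 + 1) := by
        gcongr
        exact E.cq_le x
    _ = (N * q x.1 ^ (-(1 / 2 + σ))) * (q x.1 ^ (-(1 / 2 + σ))) ^ x.2 := by
      rw [mul_assoc, h1, mul_assoc]
    _ ≤ _ := by gcongr

theorem EM.summable (E : EM A q a) {σ : ℝ} (hσ : A < σ) :
    Summable fun x => |cq a x| * Real.exp (-(σ * fq q x)) := by
  have hA := E.one_le
  have hg : Summable fun n : ℕ => (1 / 2 : ℝ) ^ n :=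
    summable_geometric_of_lt_one (by norm_num) (by norm_num)
  have h1 := ((E.sum (1 / 2 + σ) (by linarith)).mul_left (N : ℝ)).mul_of_nonneg hg
    (fun v => by
      have := E.pos v
      show 0 ≤ (N : ℝ) * q v ^ (-(1 / 2 + σ))
      positivity) (fun n => by positivity)
  exact Summable.of_nonneg_of_le (fun x => by positivity) (fun x => E.term_le (by linarith) x) h1

/-- the Euler factor at `v` in terms of the series -/
theorem EM.factor_sum (E : EM A q a) {w : ℂ} (hw : 0 ≤ w.re) (v : P) :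
    HasSum (fun n : ℕ => (cq a (v, n) : ℂ) * Complex.exp (-(w * fq q (v, n))))
      (∑' n : ℕ, (cq a (v, n) : ℂ) * Complex.exp (-(w * fq q (v, n)))) ∧
    Complex.exp (∑' n : ℕ, (cq a (v, n) : ℂ) * Complex.exp (-(w * fq q (v, n)))) =
      ∏ j, (1 - a v j * (q v : ℂ) ^ (-w))⁻¹ := by
  have hq0 := E.pos v
  set x : ℂ := (q v : ℂ) ^ (-w) with hx
  have hxn : ‖x‖ = q v ^ (-w.re) := by
    rw [hx, Complex.norm_cpow_eq_rpow_re_of_pos hq0]
    simp
  have hb : ∀ j, ‖a v j * x‖ < 1 := by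
    intro j
    rw [norm_mul, hxn]
    have h1 : q v ^ (-w.re) ≤ 1 :=
      Real.rpow_le_one_of_one_le_of_nonpos (by linarith [E.two_le v]) (by linarith)
    have h2 : q v ^ (-(1 / 2) : ℝ) < 1 :=
      Real.rpow_lt_one_of_one_lt_of_neg (by linarith [E.two_le v]) (by norm_num)
    calc ‖a v j‖ * q v ^ (-w.re) ≤ q v ^ (-(1 / 2) : ℝ) * 1 := by
          gcongr
          exact E.ha v j
      _ < 1 := by linarith
  have hterm : ∀ n : ℕ, (cq a (v, n) : ℂ) * Complex.exp (-(w * fq q (v, n))) =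
      ∑ j, (a v j * x) ^ (n + 1) / ((n + 1 : ℕ) : ℂ) := by
    intro n
    have e1 : x ^ (n + 1) = Complex.exp (-(w * fq q (v, n))) := by
      have hqc : (q v : ℂ) ≠ 0 := by exact_mod_cast hq0.ne'
      rw [hx, Complex.cpow_def_of_ne_zero hqc, ← Complex.exp_nat_mul]
      congr 1
      unfold fq
      rw [← Complex.ofReal_log hq0.le]
      push_cast
      ring
    have e2 : (cq a (v, n) : ℂ) = (∑ j, a v j ^ (n + 1)) / ((n + 1 : ℕ) : ℂ) := by
      have e3 : ((∑ j, a v j ^ (n + 1)).re : ℂ) = ∑ j, a v j ^ (n + 1) := by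
        apply Complex.ext
        · simp
        · rw [E.real v n, Complex.ofReal_im]
      unfold cq
      push_cast
      rw [e3]
    rw [e2, ← e1, Finset.sum_div, Finset.sum_mul]
    refine Finset.sum_congr rfl fun j _ => ?_
    rw [mul_pow]
    ring
  have hs : ∀ z : ℂ, ‖z‖ < 1 →
      HasSum (fun n : ℕ => z ^ (n + 1) / ((n + 1 : ℕ) : ℂ)) (-Complex.log (1 - z)) := by
    intro z hz
    have := Complex.hasSum_taylorSeries_neg_log hz
    rw [← hasSum_nat_add_iff' 1] at this
    simpa using this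
  have hS : HasSum (fun n : ℕ => (cq a (v, n) : ℂ) * Complex.exp (-(w * fq q (v, n))))
      (∑ j, -Complex.log (1 - a v j * x)) := by
    simp only [hterm]
    exact hasSum_sum fun j _ => hs _ (hb j)
  refine ⟨hS.summable.hasSum, ?_⟩
  rw [hS.tsum_eq, Complex.exp_sum]
  refine Finset.prod_congr rfl fun j _ => ?_
  rw [Complex.exp_neg]
  have hne : 1 - a v j * x ≠ 0 := by
    intro h
    rw [sub_eq_zero] at h
    have := hb j
    rw [← h] at this
    simp at this
  rw [Complex.exp_log hne]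

theorem EM.csummable (E : EM A q a) {w : ℂ} (hw : A < w.re) :
    Summable fun x : P × ℕ => (cq a x : ℂ) * Complex.exp (-(w * fq q x)) := by
  refine Summable.of_norm_bounded (E.summable hw) fun x => ?_
  rw [norm_mul, Complex.norm_real, Real.norm_eq_abs, Complex.norm_exp]
  have : (-(w * fq q x)).re = -(w.re * fq q x) := by rw [Complex.neg_re, Complex.re_mul_ofReal]
  rw [this]

/-- the Euler product is the exponential of the series -/
theorem EM.hasProd (E : EM A q a) {w : ℂ} (hw : A < w.re) :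
    HasProd (fun v => ∏ j, (1 - a v j * (q v : ℂ) ^ (-w))⁻¹)
      (Complex.exp (ser (fq q) (cq a) w)) := by
  have hA := E.one_le
  have h1 : HasSum (fun x : P × ℕ => (cq a x : ℂ) * Complex.exp (-(w * fq q x)))
      (ser (fq q) (cq a) w) := (E.csummable hw).hasSum
  have h2 := h1.prod_fiberwise (fun v => (E.factor_sum (w := w) (by linarith) v).1)
  have h3 := h2.cexp
  have h4 : (Complex.exp ∘ fun v =>
      ∑' n : ℕ, (cq a (v, n) : ℂ) * Complex.exp (-(w * fq q (v, n)))) =
      fun v => ∏ j, (1 - a v j * (q v : ℂ) ^ (-w))⁻¹ := by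
    funext v
    exact (E.factor_sum (by linarith) v).2
  rw [h4] at h3
  exact h3

theorem EM.rterm_eq (E : EM A q a) (γ T : ℝ) (x : P × ℕ) : rterm q a γ T x =
    -((cq a x : ℂ) * Complex.exp ((γ * (fq q x / T) : ℝ) * Complex.I) * (om (fq q x / T) : ℂ)) := by
  have e3 : ((∑ j, a x.1 j ^ (x.2 + 1)).re : ℂ) = ∑ j, a x.1 j ^ (x.2 + 1) := by
    apply Complex.ext
    · simp
    · rw [E.real x.1 x.2, Complex.ofReal_im]
  unfold rterm cq om
  push_cast
  rw [e3]

theorem EM.rterm_summable (E : EM A q a) (γ : ℝ) {T : ℝ} (hT : 0 < T) :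
    Summable fun x => ‖rterm q a γ T x‖ := by
  have hA := E.one_le
  refine Summable.of_nonneg_of_le (fun x => norm_nonneg _) (fun x => ?_)
    ((E.summable (σ := A + 1) (by linarith)).mul_left (Real.exp (Real.exp ((A + 1) * T)) + 1))
  rw [E.rterm_eq, norm_neg, norm_mul, norm_mul, Complex.norm_exp_ofReal_mul_I, mul_one,
    Complex.norm_real, Complex.norm_real, Real.norm_eq_abs, Real.norm_eq_abs]
  have hv : 0 ≤ fq q x / T := div_nonneg (E.fq_nonneg x) hT.le
  have h1 := Pool.Agent.W189.ML.om_le (a := (A + 1) * T) (v := fq q x / T) (by positivity) hv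
  have h2 : (A + 1) * T * (fq q x / T) = (A + 1) * fq q x := by field_simp
  rw [h2] at h1
  have h3 : 0 ≤ om (fq q x / T) := by
    unfold om
    exact inv_nonneg.2 (Real.Gamma_nonneg_of_nonneg (by linarith))
  rw [abs_of_nonneg h3]
  calc |cq a x| * om (fq q x / T)
      ≤ |cq a x| * ((Real.exp (Real.exp ((A + 1) * T)) + 1) *
        Real.exp (-((A + 1) * fq q x))) := by gcongr
    _ = _ := by ring

variable {Φ : ℂ → ℂ}

/-- **The rotated law** for a function which is meromorphic on the nonnegative real axis and equal to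
the Euler product far to the right -/
theorem EM.law [Countable P] (E : EM A q a) (hmer : ∀ x : ℝ, 0 ≤ x → MeromorphicAt Φ (x : ℂ))
    {σ₁ : ℝ} (hF : ∀ w : ℂ, σ₁ < w.re →
      HasProd (fun v => ∏ j, (1 - a v j * (q v : ℂ) ^ (-w))⁻¹) (Φ w))
    {γ : ℝ} (hγ : Real.pi / 2 < γ) :
    ∃ (m : ℤ) (l : ℝ), meromorphicOrderAt Φ 0 = m ∧ meromorphicTrailingCoeffAt Φ 0 = l ∧ l ≠ 0 ∧
      (fun T : ℝ => rmn q a γ T - (m * (Real.log T - Lam γ) - Real.log |l| +
        Real.pi * (∑ᶠ x ∈ Ioi (0 : ℝ), (meromorphicOrderAt Φ (x : ℂ)).untop₀ : ℤ) *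
          Complex.I)) =O[atTop] (fun T : ℝ => 1 / T) ∧
      Tendsto (fun T : ℝ => Complex.exp (rmn q a γ T) / (T : ℂ) ^ m) atTop
        (𝓝 (Complex.exp (-(m * Lam γ)) / l)) := by
  have hA1 := E.one_le
  set B : ℝ := max A σ₁ with hB
  have hAB : A ≤ B := le_max_left _ _
  have hσB : σ₁ ≤ B := le_max_right _ _
  have heq : ∀ w : ℂ, B < w.re → Φ w = Complex.exp (ser (fq q) (cq a) w) := fun w hw =>
    (hF w (by linarith)).unique (E.hasProd (by linarith))
  obtain ⟨m, r₀, C, T₀, hm, hr, hi, h⟩ := rot_scale (A := B) (by linarith) E.fq_nonneg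
    (fun σ hσ => E.summable (by linarith)) (fun x hx => hmer x hx.1) heq hγ
  have he : (∑ᶠ x ∈ Ioc (0 : ℝ) B, (meromorphicOrderAt Φ (x : ℂ)).untop₀) =
      ∑ᶠ x ∈ Ioi (0 : ℝ), (meromorphicOrderAt Φ (x : ℂ)).untop₀ := by
    refine (finsum_mem_inter_support_eq' _ _ _ fun σ hσ => ?_).symm
    rw [Function.mem_support] at hσ
    constructor
    · intro h
      refine ⟨h, ?_⟩
      by_contra h3
      push Not at h3
      apply hσ
      -- near `σ` the function is an exponential
      have h4 : meromorphicOrderAt Φ (σ : ℂ) = 0 := by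
        have ho : IsOpen {z : ℂ | B < z.re} := isOpen_lt continuous_const Complex.continuous_re
        have h5 : ∀ᶠ z in 𝓝 (σ : ℂ), Φ z ≠ 0 := by
          filter_upwards [ho.mem_nhds (show B < (σ : ℂ).re by rwa [Complex.ofReal_re])] with z hz
          rw [heq z hz]
          exact Complex.exp_ne_zero _
        have h6 : AnalyticAt ℂ (fun z => Complex.exp (ser (fq q) (cq a) z)) (σ : ℂ) := by
          refine AnalyticAt.cexp ?_
          -- analyticity of the series
          set ρ : ℝ := (B + σ) / 2 with hρ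
          have hρ1 : B < ρ := by rw [hρ]; linarith
          have hρσ : ρ < σ := by rw [hρ]; linarith
          have hopen : IsOpen {z : ℂ | ρ < z.re} := isOpen_lt continuous_const Complex.continuous_re
          have h1 : DifferentiableOn ℂ (ser (fq q) (cq a)) {z : ℂ | ρ < z.re} := by
            unfold ser
            refine Complex.differentiableOn_tsum_of_summable_norm
              (E.summable (by linarith : A < ρ)) (fun i => ?_) hopen (fun i z hz => ?_)
            · exact Differentiable.differentiableOn (by fun_prop)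
            · rw [norm_mul, Complex.norm_real, Real.norm_eq_abs, Complex.norm_exp]
              refine mul_le_mul_of_nonneg_left ?_ (abs_nonneg _)
              apply Real.exp_le_exp.2
              have h2 : (-(z * fq q i)).re = -(z.re * fq q i) := by
                rw [Complex.neg_re, Complex.re_mul_ofReal]
              rw [h2]
              have hz' : ρ < z.re := hz
              have := E.fq_nonneg i
              nlinarith
          exact h1.analyticAt (hopen.mem_nhds
            (show ρ < (σ : ℂ).re by rwa [Complex.ofReal_re]))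
        have h7 : Φ =ᶠ[𝓝 (σ : ℂ)] fun z => Complex.exp (ser (fq q) (cq a) z) := by
          filter_upwards [ho.mem_nhds (show B < (σ : ℂ).re by rwa [Complex.ofReal_re])] with z hz
          exact heq z hz
        exact Pool.Agent.R409.RA.order_of_ne (h6.congr h7.symm) h5.self_of_nhds
      rw [h4]
      rfl
    · exact fun h => h.1
  rw [he] at hi
  have hmean : ∀ T, rmn q a γ T = -cmean (fq q) (cq a) γ T := by
    intro T
    unfold rmn cmean
    rw [← tsum_neg]
    exact tsum_congr fun x => E.rterm_eq γ T x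
  obtain ⟨l, h1, h2, h3, h4⟩ := law_abs (W := rmn q a γ) (Λ := Lam γ) (m := m) (l :=
    meromorphicTrailingCoeffAt Φ 0) (C := C) (T₀ := T₀) hr hi (fun T hT => by
      rw [hmean]
      exact h T hT)
  exact ⟨m, l, hm, h1, h2, h3, h4⟩

end Pool.Agent.N41.RM
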