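import Pool.Agent.N41.RM.CLaw
import Pool.Agent.N41.RM.GenS
import Pool.Agent.TH958.An.Core
import Pool.Agent.TH958.An.Pts
import Pool.Agent.H126R3.Sums

/-! Families of finite fields (the residue fields of the closed points of a scheme of finite type over
the integers), their points over finite fields and their zeta functions. -/

set_option autoImplicit false

namespace Pool.Agent.N41.RM.Fam

open Filter Topology Set
open Pool.Agent.H126R3 (exists_F Qc Qc_pos Qc_rpow summable_Q card_ringHom pair_unique)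

section fields

/-- a finite field has `p ^ (k + 1)` elements -/
theorem exists_pk (K : Type) [Field K] [Finite K] : ∃ c : Nat.Primes × ℕ,
    Nat.card K = (c.1 : ℕ) ^ (c.2 + 1) ∧ ringChar K = c.1 := by
  have := Fintype.ofFinite K
  obtain ⟨n, hp, hn⟩ := FiniteField.card K (ringChar K)
  refine ⟨(⟨_, hp⟩, n - 1), ?_, rfl⟩
  rw [Nat.card_eq_fintype_card, hn]
  have : (n : ℕ) - 1 + 1 = n := Nat.sub_add_cancel n.pos
  simp only [this]

theorem finite_hom' (K F : Type) [Field K] [Finite K] [Field F] [Finite F] : Finite (K →+* F) :=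
  Finite.of_injective (fun (φ : K →+* F) (x : K) => φ x) (fun φ ψ h => RingHom.ext fun x =>
    congrFun h x)

/-- the number of the embeddings between finite fields -/
theorem card_hom (K F : Type) [Field K] [Finite K] [Field F] [Finite F] (p : Nat.Primes) (d m : ℕ)
    (hK : Nat.card K = (p : ℕ) ^ d) (hF : Nat.card F = (p : ℕ) ^ m) (hd : d ∣ m) :
    Nat.card (K →+* F) = d := by
  have := Fintype.ofFinite K
  have := Fintype.ofFinite F
  have hpf : Fact (p : ℕ).Prime := ⟨p.2⟩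
  rw [Nat.card_eq_fintype_card] at hK hF
  have hc : CharP F p := charP_of_card_eq_prime_pow hF
  have hc2 : CharP K p := charP_of_card_eq_prime_pow hK
  letI := ZMod.algebra F p
  letI := ZMod.algebra K p
  have h1 : Module.finrank (ZMod p) K = d := by
    have h2 := Module.card_eq_pow_finrank (K := ZMod p) (V := K)
    rw [hK, ZMod.card] at h2
    exact (Nat.pow_right_injective hpf.out.two_le h2).symm
  have h2 : Module.finrank (ZMod p) F = m := by
    have h2 := Module.card_eq_pow_finrank (K := ZMod p) (V := F)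
    rw [hF, ZMod.card] at h2
    exact (Nat.pow_right_injective hpf.out.two_le h2).symm
  have e : (K →+* F) ≃ (K →ₐ[ZMod p] F) :=
    { toFun := fun φ => (AlgHom.mk φ (fun r =>
        congrArg (fun g : ZMod p →+* F => g r)
          (Subsingleton.elim (φ.comp (algebraMap (ZMod p) K)) (algebraMap (ZMod p) F))) :
            K →ₐ[ZMod p] F)
      invFun := fun φ => (φ : K →+* F)
      left_inv := fun φ => by ext x; rfl
      right_inv := fun φ => by ext x; rfl }
  rw [Nat.card_congr e, FiniteField.natCard_algHom_of_finrank_dvd, h1]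
  rw [h1, h2]
  exact hd

/-- if there is an embedding, the characteristics agree and the degree divides -/
theorem hom_dvd (K F : Type) [Field K] [Finite K] [Field F] [Finite F] (c c' : Nat.Primes × ℕ)
    (hK : Nat.card K = (c.1 : ℕ) ^ (c.2 + 1)) (hF : Nat.card F = (c'.1 : ℕ) ^ (c'.2 + 1))
    (ψ : K →+* F) : c.1 = c'.1 ∧ (c.2 + 1) ∣ (c'.2 + 1) := by
  have := Fintype.ofFinite K
  have := Fintype.ofFinite F
  rw [Nat.card_eq_fintype_card] at hK hF
  have hp1 : Fact (c.1 : ℕ).Prime := ⟨c.1.2⟩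
  have hp2 : Fact (c'.1 : ℕ).Prime := ⟨c'.1.2⟩
  have hc : CharP F c'.1 := charP_of_card_eq_prime_pow hF
  have hc2 : CharP K c.1 := charP_of_card_eq_prime_pow hK
  have h1 : c.1 = c'.1 := by
    apply Subtype.ext
    exact CharP.eq F (charP_of_injective_ringHom ψ.injective (c.1 : ℕ)) hc
  refine ⟨h1, ?_⟩
  let _ : Algebra K F := ψ.toAlgebra
  have h2 := Module.card_eq_pow_finrank (K := K) (V := F)
  rw [hF, hK, h1, ← pow_mul] at h2
  exact ⟨_, Nat.pow_right_injective c'.1.2.two_le h2⟩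

end fields

variable {Y : Type} (κ : Y → Type) [∀ y, Field (κ y)] [∀ y, Finite (κ y)]

/-- the pair `(p, k)` such that the residue field has `p ^ (k + 1)` elements -/
noncomputable def pk (y : Y) : Nat.Primes × ℕ := (exists_pk (κ y)).choose

theorem card_eq (y : Y) : Nat.card (κ y) = ((pk κ y).1 : ℕ) ^ ((pk κ y).2 + 1) :=
  (exists_pk (κ y)).choose_spec.1

/-- the pair of the field of definition of a power of Frobenius -/
noncomputable def prx (x : Y × ℕ) : Nat.Primes × ℕ :=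
  ((pk κ x.1).1, ((pk κ x.1).2 + 1) * (x.2 + 1) - 1)

theorem prx_iff (x : Y × ℕ) (c : Nat.Primes × ℕ) : prx κ x = c ↔
    (pk κ x.1).1 = c.1 ∧ ((pk κ x.1).2 + 1) * (x.2 + 1) = c.2 + 1 := by
  have h0 : 0 < ((pk κ x.1).2 + 1) * (x.2 + 1) := by positivity
  unfold prx
  rw [Prod.ext_iff]
  refine and_congr Iff.rfl ?_
  show ((pk κ x.1).2 + 1) * (x.2 + 1) - 1 = c.2 ↔ _
  omega

/-- the points with values in a field -/
abbrev Pnt (F : Type) [Field F] : Type := Σ y : Y, κ y →+* F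

/-- points with values in `F` and pairs of closed points with powers of Frobenius -/
noncomputable def regr (c : Nat.Primes × ℕ) {F : Type} [Field F] [Finite F]
    (h : Nat.card F = (c.1 : ℕ) ^ (c.2 + 1)) : Pnt κ F ≃
    Σ x : {x : Y × ℕ // prx κ x = c}, (κ x.1.1 →+* F) where
  toFun φ := ⟨⟨(φ.1, (c.2 + 1) / ((pk κ φ.1).2 + 1) - 1), (prx_iff _ _ _).2
      ⟨(hom_dvd _ F _ c (card_eq κ φ.1) h φ.2).1, by
        have h1 := (hom_dvd _ F _ c (card_eq κ φ.1) h φ.2).2
        have h2 := Nat.div_pos (Nat.le_of_dvd (by omega) h1) (by omega)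
        show ((pk κ φ.1).2 + 1) * ((c.2 + 1) / ((pk κ φ.1).2 + 1) - 1 + 1) = c.2 + 1
        rw [Nat.sub_add_cancel h2, Nat.mul_div_cancel' h1]⟩⟩, φ.2⟩
  invFun w := ⟨w.1.1.1, w.2⟩
  left_inv φ := rfl
  right_inv w := by
    rcases w with ⟨⟨⟨y, k⟩, hx⟩, φ⟩
    have h1 := ((prx_iff _ _ _).1 hx).2
    change ((pk κ y).2 + 1) * (k + 1) = c.2 + 1 at h1
    obtain rfl : k = (c.2 + 1) / ((pk κ y).2 + 1) - 1 := by
      rw [← h1, Nat.mul_div_cancel_left _ (by omega)]
      omega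
    rfl

theorem card_fib (c : Nat.Primes × ℕ) {F : Type} [Field F] [Finite F]
    (h : Nat.card F = (c.1 : ℕ) ^ (c.2 + 1)) (x : {x : Y × ℕ // prx κ x = c}) :
    Nat.card (κ x.1.1 →+* F) = (pk κ x.1.1).2 + 1 := by
  obtain ⟨h1, h2⟩ := (prx_iff _ _ _).1 x.2
  refine card_hom _ F c.1 _ (c.2 + 1) ?_ h ⟨_, h2.symm⟩
  rw [card_eq, h1]

/-- the family has at most `C Q ^ n` points over the field with `Q` elements -/
structure Bdd (C n : ℕ) : Prop where
  fin : ∀ (F : Type) [Field F] [Finite F], Finite (Pnt κ F)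
  le : ∀ (F : Type) [Field F] [Finite F], Nat.card (Pnt κ F) ≤ C * Nat.card F ^ n

variable {κ} {C n : ℕ}

theorem Bdd.finite_prx (B : Bdd κ C n) (c : Nat.Primes × ℕ) :
    Finite {x : Y × ℕ // prx κ x = c} := by
  obtain ⟨F, _, _, hF⟩ := exists_F c
  have hF' : Nat.card F = (c.1 : ℕ) ^ (c.2 + 1) := by rw [Nat.card_eq_fintype_card, hF]
  have := B.fin F
  have h : Function.Surjective (fun φ : Pnt κ F => (regr κ c hF' φ).1) := by
    intro x
    have h1 := card_fib κ c hF' x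
    have h2 : Nonempty (κ x.1.1 →+* F) := by
      rw [← not_isEmpty_iff]
      intro h3
      rw [Nat.card_of_isEmpty] at h1
      omega
    obtain ⟨φ⟩ := h2
    refine ⟨(regr κ c hF').symm ⟨x, φ⟩, ?_⟩
    simp only
    rw [Equiv.apply_symm_apply]
  exact Finite.of_surjective _ h

/-- the number of the points over `F` by closed points -/
theorem Bdd.card_eq_sum (B : Bdd κ C n) (c : Nat.Primes × ℕ) {F : Type} [Field F] [Finite F]
    (h : Nat.card F = (c.1 : ℕ) ^ (c.2 + 1)) [Fintype {x : Y × ℕ // prx κ x = c}] :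
    Nat.card (Pnt κ F) = ∑ x : {x : Y × ℕ // prx κ x = c}, ((pk κ x.1.1).2 + 1) := by
  have := fun x : {x : Y × ℕ // prx κ x = c} => finite_hom' (κ x.1.1) F
  rw [Nat.card_congr (regr κ c h), Nat.card_sigma]
  exact Finset.sum_congr rfl fun x _ => card_fib κ c h x

variable (κ) in
/-- the number of the points over the field with `p ^ m` elements -/
noncomputable def npt (c : Nat.Primes × ℕ) : ℕ := ∑ᶠ x : {x : Y × ℕ // prx κ x = c},
  ((pk κ x.1.1).2 + 1)

theorem Bdd.npt_eq (B : Bdd κ C n) (c : Nat.Primes × ℕ) {F : Type} [Field F] [Finite F]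
    (h : Nat.card F = (c.1 : ℕ) ^ (c.2 + 1)) : npt κ c = Nat.card (Pnt κ F) := by
  have := B.finite_prx c
  have := Fintype.ofFinite {x : Y × ℕ // prx κ x = c}
  rw [B.card_eq_sum c h]
  unfold npt
  rw [finsum_eq_sum_of_fintype]

theorem Bdd.npt_le (B : Bdd κ C n) (c : Nat.Primes × ℕ) : npt κ c ≤ C * Qc c ^ n := by
  obtain ⟨F, _, _, hF⟩ := exists_F c
  have hF' : Nat.card F = (c.1 : ℕ) ^ (c.2 + 1) := by rw [Nat.card_eq_fintype_card, hF]
  rw [B.npt_eq c hF']
  refine (B.le F).trans ?_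
  rw [hF', Qc]

/-- the frequencies `m log p` -/
noncomputable def lam (c : Nat.Primes × ℕ) : ℝ := (c.2 + 1) * Real.log (c.1 : ℕ)

variable (κ) in
/-- the coefficients `# Y(F_{p^m}) / m` -/
noncomputable def coef (c : Nat.Primes × ℕ) : ℝ := npt κ c / (c.2 + 1)

theorem lam_nonneg (c : Nat.Primes × ℕ) : 0 ≤ lam c := by
  unfold lam
  have := Real.log_natCast_nonneg (c.1 : ℕ)
  positivity

theorem exp_lam (c : Nat.Primes × ℕ) (σ : ℝ) : Real.exp (-(σ * lam c)) = (Qc c : ℝ) ^ (-σ) := by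
  have hp : (0 : ℝ) < ((c.1 : ℕ) : ℝ) := by exact_mod_cast c.1.2.pos
  rw [Qc_rpow, Real.rpow_def_of_pos hp]
  unfold lam
  congr 1
  push_cast
  ring

theorem coef_nonneg (c : Nat.Primes × ℕ) : 0 ≤ coef κ c := by
  unfold coef
  positivity

theorem Bdd.coef_le (B : Bdd κ C n) (c : Nat.Primes × ℕ) : coef κ c ≤ C * (Qc c : ℝ) ^ (n : ℝ) := by
  unfold coef
  have h1 : (npt κ c : ℝ) ≤ C * (Qc c : ℝ) ^ n := by exact_mod_cast B.npt_le c
  rw [Real.rpow_natCast]
  refine le_trans ?_ h1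
  refine div_le_self (Nat.cast_nonneg _) ?_
  have : (0 : ℝ) ≤ c.2 := Nat.cast_nonneg _
  linarith

theorem Bdd.summable_coef (B : Bdd κ C n) {σ : ℝ} (hσ : (n : ℝ) + 1 < σ) :
    Summable fun c => |coef κ c| * Real.exp (-(σ * lam c)) := by
  have h1 := (summable_Q (σ - n) (by linarith) 0 (by push_cast; linarith)).mul_left (C : ℝ)
  refine Summable.of_nonneg_of_le (fun c => by positivity) (fun c => ?_) h1
  rw [if_pos (Nat.zero_le _), abs_of_nonneg (coef_nonneg c), exp_lam]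
  have hQ : (0 : ℝ) < Qc c := by exact_mod_cast Qc_pos c
  calc coef κ c * (Qc c : ℝ) ^ (-σ) ≤ (C * (Qc c : ℝ) ^ (n : ℝ)) * (Qc c : ℝ) ^ (-σ) := by
        gcongr
        exact B.coef_le c
    _ = _ := by
      rw [mul_assoc, ← Real.rpow_add hQ]
      congr 2
      ring

/-! ### The Euler product -/

variable (κ) in
/-- the terms of the logarithm of the Euler product -/
noncomputable def tm (z : ℂ) (x : Y × ℕ) : ℂ :=
  Complex.exp (-(z * lam (prx κ x))) / ((x.2 + 1 : ℕ) : ℂ)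

theorem coef_eq_sum (c : Nat.Primes × ℕ) [Fintype {x : Y × ℕ // prx κ x = c}] :
    coef κ c = ∑ x : {x : Y × ℕ // prx κ x = c}, (1 : ℝ) / ((x.1.2 + 1 : ℕ) : ℝ) := by
  unfold coef npt
  rw [finsum_eq_sum_of_fintype, div_eq_iff (by positivity), Finset.sum_mul]
  push_cast
  refine Finset.sum_congr rfl fun x _ => ?_
  have h2 := ((prx_iff _ _ _).1 x.2).2
  have h3 : (((pk κ x.1.1).2 : ℝ) + 1) * ((x.1.2 : ℝ) + 1) = (c.2 : ℝ) + 1 := by exact_mod_cast h2
  rw [← h3]
  field_simp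

theorem norm_tm (z : ℂ) (x : Y × ℕ) :
    ‖tm κ z x‖ = (1 : ℝ) / ((x.2 + 1 : ℕ) : ℝ) * Real.exp (-(z.re * lam (prx κ x))) := by
  unfold tm
  rw [norm_div, Complex.norm_natCast, Complex.norm_exp]
  have : (-(z * lam (prx κ x))).re = -(z.re * lam (prx κ x)) := by
    rw [Complex.neg_re, Complex.re_mul_ofReal]
  rw [this]
  ring

theorem Bdd.summable_tm (B : Bdd κ C n) {z : ℂ} (hz : (n : ℝ) + 1 < z.re) :
    Summable fun x => ‖tm κ z x‖ := by
  have hfin := B.finite_prx
  letI : ∀ c, Fintype {x : Y × ℕ // prx κ x = c} := fun c => Fintype.ofFinite _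
  rw [← (Equiv.sigmaFiberEquiv (prx κ)).summable_iff]
  change Summable (fun w : Σ c, {x : Y × ℕ // prx κ x = c} => ‖tm κ z w.2.1‖)
  rw [summable_sigma_of_nonneg (fun _ => norm_nonneg _)]
  refine ⟨fun c => (hasSum_fintype _).summable, ?_⟩
  refine (B.summable_coef hz).congr fun c => ?_
  rw [tsum_fintype, abs_of_nonneg (coef_nonneg c), coef_eq_sum, Finset.sum_mul]
  refine Finset.sum_congr rfl fun x _ => ?_
  change _ = ‖tm κ z x.1‖
  rw [norm_tm, x.2]

theorem Bdd.hasSum_tm (B : Bdd κ C n) {z : ℂ} (hz : (n : ℝ) + 1 < z.re) :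
    HasSum (tm κ z) (Pool.Agent.W189.ML.ser lam (coef κ) z) := by
  have hfin := B.finite_prx
  letI : ∀ c, Fintype {x : Y × ℕ // prx κ x = c} := fun c => Fintype.ofFinite _
  have h1 := (B.summable_tm hz).of_norm
  have h2 : Summable (fun w : Σ c, {x : Y × ℕ // prx κ x = c} => tm κ z w.2.1) :=
    ((Equiv.sigmaFiberEquiv (prx κ)).summable_iff (f := tm κ z)).2 h1
  have h3 : ∑' x, tm κ z x = Pool.Agent.W189.ML.ser lam (coef κ) z := by
    rw [← (Equiv.sigmaFiberEquiv (prx κ)).tsum_eq (tm κ z)]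
    change ∑' w : Σ c, {x : Y × ℕ // prx κ x = c}, tm κ z w.2.1 = _
    rw [h2.tsum_sigma]
    unfold Pool.Agent.W189.ML.ser
    refine tsum_congr fun c => ?_
    rw [tsum_fintype, coef_eq_sum]
    push_cast
    rw [Finset.sum_mul]
    refine Finset.sum_congr rfl fun x _ => ?_
    unfold tm
    rw [x.2]
    push_cast
    ring
  rw [← h3]
  exact h1.hasSum

theorem cpow_eq (y : Y) (k : ℕ) (z : ℂ) :
    (((Nat.card (κ y) : ℕ) : ℂ) ^ (-z)) ^ (k + 1) = Complex.exp (-(z * lam (prx κ (y, k)))) := by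
  have hp : (0 : ℝ) < (((pk κ y).1 : ℕ) : ℝ) := by exact_mod_cast (pk κ y).1.2.pos
  have h0 : (((Nat.card (κ y) : ℕ) : ℂ)) ≠ 0 := Nat.cast_ne_zero.2 Nat.card_pos.ne'
  have h1 := ((prx_iff κ (y, k) _).1 rfl).2
  have h2 : lam (prx κ (y, k)) = (k + 1) * Real.log ((Nat.card (κ y) : ℕ) : ℝ) := by
    rw [card_eq]
    push_cast
    rw [Real.log_pow]
    unfold lam
    have h3 : (((prx κ (y, k)).2 : ℝ) + 1) = (((pk κ y).2 : ℝ) + 1) * ((k : ℝ) + 1) := by
      exact_mod_cast h1.symm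
    rw [h3]
    have h4 : (prx κ (y, k)).1 = (pk κ y).1 := rfl
    rw [h4]
    push_cast
    ring
  rw [h2, Complex.cpow_def_of_ne_zero h0, ← Complex.exp_nat_mul, ← Complex.natCast_log]
  congr 1
  push_cast
  ring

theorem factor (y : Y) {z : ℂ} (hz : 0 < z.re) :
    HasSum (fun k : ℕ => tm κ z (y, k)) (-Complex.log (1 - ((Nat.card (κ y) : ℕ) : ℂ) ^ (-z))) := by
  set x : ℂ := ((Nat.card (κ y) : ℕ) : ℂ) ^ (-z) with hx
  have h2 : 2 ≤ Nat.card (κ y) := Finite.one_lt_card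
  have hxn : ‖x‖ < 1 := by
    rw [hx, Complex.norm_natCast_cpow_of_pos (by omega)]
    refine Real.rpow_lt_one_of_one_lt_of_neg (by exact_mod_cast h2) ?_
    rw [Complex.neg_re]
    linarith
  have := Complex.hasSum_taylorSeries_neg_log hxn
  rw [← hasSum_nat_add_iff' 1] at this
  have h3 : HasSum (fun k : ℕ => x ^ (k + 1) / ((k + 1 : ℕ) : ℂ)) (-Complex.log (1 - x)) := by
    simpa using this
  have h4 : (fun k : ℕ => tm κ z (y, k)) = fun k : ℕ => x ^ (k + 1) / ((k + 1 : ℕ) : ℂ) := by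
    funext k
    unfold tm
    rw [← cpow_eq]
  rw [h4]
  exact h3

/-- the Euler product -/
theorem Bdd.hasProd (B : Bdd κ C n) {z : ℂ} (hz : (n : ℝ) + 1 < z.re) :
    HasProd (fun y => (1 - ((Nat.card (κ y) : ℕ) : ℂ) ^ (-z))⁻¹)
      (Complex.exp (Pool.Agent.W189.ML.ser lam (coef κ) z)) := by
  have hz0 : 0 < z.re := by
    have : (0 : ℝ) ≤ n := Nat.cast_nonneg _
    linarith
  have h2 := (B.hasSum_tm hz).prod_fiberwise (fun y => factor (κ := κ) y hz0)
  have h3 := h2.cexp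
  have h4 : (Complex.exp ∘ fun y : Y =>
      -Complex.log (1 - ((Nat.card (κ y) : ℕ) : ℂ) ^ (-z))) =
      fun y => (1 - ((Nat.card (κ y) : ℕ) : ℂ) ^ (-z))⁻¹ := by
    funext y
    have h5 : 2 ≤ Nat.card (κ y) := Finite.one_lt_card
    have hxn : ‖((Nat.card (κ y) : ℕ) : ℂ) ^ (-z)‖ < 1 := by
      rw [Complex.norm_natCast_cpow_of_pos (by omega)]
      refine Real.rpow_lt_one_of_one_lt_of_neg (by exact_mod_cast h5) ?_
      rw [Complex.neg_re]
      linarith
    have hne : 1 - ((Nat.card (κ y) : ℕ) : ℂ) ^ (-z) ≠ 0 := by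
      intro h
      rw [sub_eq_zero] at h
      rw [← h] at hxn
      simp at hxn
    simp only [Function.comp_apply]
    rw [Complex.exp_neg, Complex.exp_log hne]
  rw [h4] at h3
  exact h3

end Pool.Agent.N41.RM.Fam
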