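import Pool.Agent.N41.RM.Gen
import Pool.Agent.TH958.BV.Weights
import Mathlib.FieldTheory.Finite.Extension

/-! L-functions of smooth projective varieties over number fields at the central point. -/

set_option autoImplicit false

namespace Pool.Agent.N41.RM

open Filter Topology Set NumberField IsDedekindDomain Polynomial
open Pool.Agent.W187.UR (Lam)
open Pool.Agent.TH958.BV (cone IsFrobenius weights_unique)
open Pool.Agent.TH339.MP (nm two_le_nm)

/-! ### Real power sums -/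

lemma psum_real_of_stable {N : ℕ} {α : Fin N → ℂ}
    (h : Finset.univ.val.map (fun j => (starRingEnd ℂ) (α j)) = Finset.univ.val.map α) (k : ℕ) :
    (∑ j, α j ^ k).im = 0 := by
  rw [← Complex.conj_eq_iff_im, map_sum]
  have h4 : ∀ β : Fin N → ℂ, ∑ j, β j ^ k = ((Finset.univ.val.map β).map fun z => z ^ k).sum := by
    intro β
    rw [Multiset.map_map]
    rfl
  simp_rw [map_pow]
  rw [h4 α, h4 fun j => (starRingEnd ℂ) (α j), h]

/-- the multiset of the zeros of a real polynomial is stable under complex conjugation -/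
lemma conj_stable {N : ℕ} {α : Fin N → ℂ}
    (hP : ∃ P : ℝ[X], P.map (algebraMap ℝ ℂ) = ∏ j, (X - C (α j))) :
    Finset.univ.val.map (fun j => (starRingEnd ℂ) (α j)) = Finset.univ.val.map α := by
  obtain ⟨P, hP⟩ := hP
  have hconj : ((P.map (algebraMap ℝ ℂ)).map (starRingEnd ℂ)) = P.map (algebraMap ℝ ℂ) := by
    rw [Polynomial.map_map]
    congr 1
    ext x
    simp
  rw [← Pool.Agent.R409.RA.roots_prod, ← Pool.Agent.R409.RA.roots_prod, ← hP, ← hconj, hP,
    Polynomial.map_prod]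
  congr 1
  refine Finset.prod_congr rfl fun j _ => ?_
  rw [Polynomial.map_sub, Polynomial.map_X, Polynomial.map_C]

variable {K : Type} [Field K] [NumberField K]

/-- extensions of the residue field of every degree -/
lemma exists_ext (v : HeightOneSpectrum (𝓞 K)) {e : ℕ} (he : 1 ≤ e) :
    ∃ (κ : Type) (_ : Field κ) (_ : Finite κ) (φ : 𝓞 K →+* κ), RingHom.ker φ = v.asIdeal ∧
      Nat.card κ = Ideal.absNorm v.asIdeal ^ e := by
  have hfin : Finite (𝓞 K ⧸ v.asIdeal) := Pool.Agent.R409.RA.finiteQuot v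
  obtain ⟨p, hc⟩ := CharP.exists (𝓞 K ⧸ v.asIdeal)
  have hp : Fact p.Prime := ⟨CharP.char_is_prime (𝓞 K ⧸ v.asIdeal) p⟩
  have he' : NeZero e := ⟨by omega⟩
  letI : Algebra (ZMod p) (𝓞 K ⧸ v.asIdeal) := ZMod.algebra _ p
  refine ⟨FiniteField.Extension (𝓞 K ⧸ v.asIdeal) p e, inferInstance, inferInstance,
    (algebraMap (𝓞 K ⧸ v.asIdeal) (FiniteField.Extension (𝓞 K ⧸ v.asIdeal) p e)).comp
      (Ideal.Quotient.mk v.asIdeal), ?_, ?_⟩
  · rw [RingHom.ker_comp_of_injective]
    · exact Ideal.mk_ker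
    · exact RingHom.injective _
  · rw [FiniteField.natCard_extension]
    rfl

lemma frob_conj {n : ℕ} {X : Set (MvPolynomial (Fin n) (𝓞 K))} {d i : ℕ}
    {v : HeightOneSpectrum (𝓞 K)} {N : ℕ} {α : Fin N → ℂ} (hi : i ≤ 2 * d)
    (h : IsFrobenius X d i v α) :
    Finset.univ.val.map (fun j => (starRingEnd ℂ) (α j)) = Finset.univ.val.map α := by
  obtain ⟨β, h1, h2, h3⟩ := h
  have hq : (2 : ℝ) ≤ Ideal.absNorm v.asIdeal := Pool.Agent.R409.RA.two_le v
  have h4 : β i = (β i).map (starRingEnd ℂ) := by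
    refine weights_unique (Ideal.absNorm v.asIdeal : ℝ) (by linarith) (2 * d + 1) β
      (fun k => (β k).map (starRingEnd ℂ)) h2 (fun k z hz => ?_) (fun e he => ?_) (by omega)
    · obtain ⟨y, hy, rfl⟩ := Multiset.mem_map.1 hz
      rw [RCLike.norm_conj]
      exact h2 k y hy
    · obtain ⟨κ, i1, i2, φ, hk, hc⟩ := exists_ext v he
      have h5 := h3 κ φ e hk hc
      have h6 := congrArg (starRingEnd ℂ) h5
      have hne : ((Ideal.absNorm v.asIdeal : ℂ) ^ e - 1) ≠ 0 := by
        have h7 : (1 : ℝ) < (Ideal.absNorm v.asIdeal : ℝ) ^ e :=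
          one_lt_pow₀ (by linarith) (by omega)
        have h8 : ((Ideal.absNorm v.asIdeal : ℝ) ^ e - 1) ≠ 0 := by linarith
        exact_mod_cast h8
      have h7 : (starRingEnd ℂ) ((Ideal.absNorm v.asIdeal : ℂ) ^ e - 1) =
          (Ideal.absNorm v.asIdeal : ℂ) ^ e - 1 := by
        rw [map_sub, map_pow, map_one, Complex.conj_natCast]
      rw [Complex.conj_natCast, map_mul, h7, h5] at h6
      have h8 := mul_left_cancel₀ hne h6
      rw [h8, map_sum]
      refine Finset.sum_congr rfl fun k _ => ?_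
      rw [map_mul, map_pow, map_neg, map_one, map_multiset_sum, Multiset.map_map, Multiset.map_map]
      have h9 : (β k).map ((starRingEnd ℂ) ∘ fun z => z ^ e) =
          (β k).map ((fun z => z ^ e) ∘ (starRingEnd ℂ)) :=
        Multiset.map_congr rfl fun z _ => by simp
      rw [h9]
  rw [h1, Multiset.map_map] at h4
  exact h4.symm

lemma frob_norm {n : ℕ} {X : Set (MvPolynomial (Fin n) (𝓞 K))} {d i : ℕ}
    {v : HeightOneSpectrum (𝓞 K)} {N : ℕ} {α : Fin N → ℂ} (h : IsFrobenius X d i v α) (j : Fin N) :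
    ‖α j‖ = (Ideal.absNorm v.asIdeal : ℝ) ^ ((i : ℝ) / 2) := by
  obtain ⟨β, h1, h2, h3⟩ := h
  refine h2 i (α j) ?_
  rw [h1]
  exact Multiset.mem_map_of_mem _ (Finset.mem_univ_val j)

/-! ### The central point of an L-function of odd weight -/

variable {N : ℕ} {α : HeightOneSpectrum (𝓞 K) → Fin N → ℂ}

/-- the norms -/
noncomputable def qv (v : HeightOneSpectrum (𝓞 K)) : ℝ := (Ideal.absNorm v.asIdeal : ℝ)

/-- the normalised parameters -/
noncomputable def av (m : ℕ) (α : HeightOneSpectrum (𝓞 K) → Fin N → ℂ)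
    (v : HeightOneSpectrum (𝓞 K)) (j : Fin N) : ℂ := α v j / (Ideal.absNorm v.asIdeal : ℂ) ^ m

theorem en_nf {m i : ℕ} (hi : i + 1 = 2 * m)
    (h : ∀ v j, ‖α v j‖ ≤ (Ideal.absNorm v.asIdeal : ℝ) ^ ((i : ℝ) / 2))
    (hre : ∀ v k, (∑ j, α v j ^ (k + 1)).im = 0) : EN (qv (K := K)) (av m α) where
  two_le := fun v => Pool.Agent.R409.RA.two_le v
  sum := fun σ hσ => Pool.Agent.R409.RA.summable_nm hσ
  ha := fun v j => by
    have hq : (2 : ℝ) ≤ Ideal.absNorm v.asIdeal := Pool.Agent.R409.RA.two_le v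
    have hq0 : (0 : ℝ) < Ideal.absNorm v.asIdeal := by linarith
    unfold av qv
    rw [norm_div, norm_pow, Complex.norm_natCast, div_le_iff₀ (by positivity)]
    refine (h v j).trans (le_of_eq ?_)
    rw [← Real.rpow_natCast, ← Real.rpow_add hq0]
    congr 1
    have h3 : ((i : ℝ)) + 1 = 2 * m := by exact_mod_cast hi
    linarith
  real := fun v k => by
    have h1 : ∑ j, av m α v j ^ (k + 1) = (∑ j, α v j ^ (k + 1)) *
        ((((Ideal.absNorm v.asIdeal : ℝ) ^ m) ^ (k + 1))⁻¹ : ℝ) := by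
      unfold av
      rw [Finset.sum_mul]
      refine Finset.sum_congr rfl fun j _ => ?_
      rw [div_pow]
      push_cast
      rfl
    rw [h1, Complex.im_mul_ofReal, hre, zero_mul]

theorem order_sh (F : ℂ → ℂ) (c x : ℂ) :
    meromorphicOrderAt (fun w => F (c + w)) x = meromorphicOrderAt F (c + x) := by
  have h1 : (fun w : ℂ => F (c + w)) = F ∘ (· + c) := by
    funext w; simp [add_comm]
  rw [h1, meromorphicOrderAt_comp_add_const_eq_meromorphicOrderAt, add_comm]

theorem coeff_sh (F : ℂ → ℂ) (c : ℂ) :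
    meromorphicTrailingCoeffAt (fun w => F (c + w)) 0 = meromorphicTrailingCoeffAt F c := by
  have h1 : (fun w : ℂ => F (c + w)) = F ∘ (· + c) := by
    funext w; simp [add_comm]
  rw [h1, meromorphicTrailingCoeffAt_comp_add_const_eq_meromorphicTrailingCoeffAt]
  simp

/-- the number of the real zeros `> m` minus the number of the real poles `> m` -/
noncomputable def excess (F : ℂ → ℂ) (m : ℝ) : ℤ :=
  ∑ᶠ σ ∈ Ioi m, (meromorphicOrderAt F (σ : ℂ)).untop₀

theorem excess_sh (F : ℂ → ℂ) (m : ℝ) :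
    (∑ᶠ x ∈ Ioi (0 : ℝ), (meromorphicOrderAt (fun w => F (m + w)) (x : ℂ)).untop₀) =
      excess F m := by
  unfold excess
  have h3 : Ioi m = (fun x : ℝ => m + x) '' Ioi (0 : ℝ) := by
    rw [Set.image_const_add_Ioi, add_zero]
  rw [h3, finsum_mem_image ((add_right_injective m).injOn)]
  refine finsum_mem_congr rfl fun x _ => ?_
  rw [order_sh]
  push_cast
  rfl

/-- the L-function -/
theorem hasProd_nf {m i : ℕ} (hi : i + 1 = 2 * m)
    (h : ∀ v j, ‖α v j‖ ≤ (Ideal.absNorm v.asIdeal : ℝ) ^ ((i : ℝ) / 2))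
    (hre : ∀ v k, (∑ j, α v j ^ (k + 1)).im = 0) {s : ℂ} (hs : (i : ℝ) / 2 + 1 < s.re) :
    HasProd (fun v : HeightOneSpectrum (𝓞 K) => ∏ j, (1 - α v j *
      (Ideal.absNorm v.asIdeal : ℂ) ^ (-s))⁻¹)
      (∏' v : HeightOneSpectrum (𝓞 K), ∏ j, (1 - α v j *
        (Ideal.absNorm v.asIdeal : ℂ) ^ (-s))⁻¹) := by
  have E := en_nf hi h hre
  have h3 : ((i : ℝ)) + 1 = 2 * m := by exact_mod_cast hi
  have h1 := E.hasProd (w := s - m) (by
    rw [Complex.sub_re, Complex.natCast_re]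
    linarith)
  have h2 : (fun v : HeightOneSpectrum (𝓞 K) => ∏ j, (1 - av m α v j * (qv v : ℂ) ^ (-(s - m)))⁻¹) =
      fun v : HeightOneSpectrum (𝓞 K) => ∏ j, (1 - α v j *
        (Ideal.absNorm v.asIdeal : ℂ) ^ (-s))⁻¹ := by
    funext v
    refine Finset.prod_congr rfl fun j _ => ?_
    have hq : (2 : ℝ) ≤ Ideal.absNorm v.asIdeal := Pool.Agent.R409.RA.two_le v
    have hq0 : (Ideal.absNorm v.asIdeal : ℂ) ≠ 0 := by
      have : (Ideal.absNorm v.asIdeal : ℝ) ≠ 0 := by linarith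
      exact_mod_cast this
    unfold av qv
    rw [Complex.ofReal_natCast, neg_sub, Complex.cpow_sub _ _ hq0, Complex.cpow_natCast,
      Complex.cpow_neg]
    congr 2
    field_simp
  rw [h2] at h1
  rw [h1.tprod_eq]
  exact h1

/-- **the rotated law at the central point** -/
theorem nf_law {m i : ℕ} (hi : i + 1 = 2 * m)
    (h : ∀ v j, ‖α v j‖ ≤ (Ideal.absNorm v.asIdeal : ℝ) ^ ((i : ℝ) / 2))
    (hre : ∀ v k, (∑ j, α v j ^ (k + 1)).im = 0) {F : ℂ → ℂ}
    (hmer : ∀ x : ℝ, (m : ℝ) ≤ x → x ≤ (m : ℝ) + 1 / 2 → MeromorphicAt F (x : ℂ))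
    (hF : ∀ s : ℂ, (m : ℝ) + 1 / 2 < s.re → F s =
      ∏' v : HeightOneSpectrum (𝓞 K), ∏ j, (1 - α v j * (Ideal.absNorm v.asIdeal : ℂ) ^ (-s))⁻¹)
    {γ : ℝ} (hγ : Real.pi / 2 < γ) :
    ∃ (r : ℤ) (l : ℝ), meromorphicOrderAt F m = r ∧ meromorphicTrailingCoeffAt F m = l ∧ l ≠ 0 ∧
      (fun T : ℝ => rmn (qv (K := K)) (av m α) γ T - (r * (Real.log T - Lam γ) - Real.log |l| +
        Real.pi * excess F m * Complex.I)) =O[atTop] (fun T : ℝ => 1 / T) ∧
      Tendsto (fun T : ℝ => Complex.exp (rmn (qv (K := K)) (av m α) γ T) / (T : ℂ) ^ r) atTop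
        (𝓝 (Complex.exp (-(r * Lam γ)) / l)) := by
  have E := en_nf hi h hre
  have h3 : ((i : ℝ)) + 1 = 2 * m := by exact_mod_cast hi
  have : Countable (HeightOneSpectrum (𝓞 K)) := inferInstance
  obtain ⟨r, l, h4, h5, h6, h7, h8⟩ := E.law (Φ := fun w => F (m + w)) (fun x hx => by
    have h1 : MeromorphicAt F ((m : ℂ) + (x : ℂ)) := by
      have := hmer (m + x) (by linarith [hx.1]) (by linarith [hx.2])
      push_cast at this
      exact this
    exact h1.comp_analyticAt (g := fun w : ℂ => (m : ℂ) + w) (by fun_prop)) (fun w hw => by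
    have h1 := hasProd_nf (s := m + w) hi h hre (by
      rw [Complex.add_re, Complex.natCast_re]
      linarith)
    have h2 := hF (m + w) (by
      rw [Complex.add_re, Complex.natCast_re]
      linarith)
    rw [← h2] at h1
    have h4 : (fun v : HeightOneSpectrum (𝓞 K) => ∏ j, (1 - av m α v j * (qv v : ℂ) ^ (-w))⁻¹) =
      fun v : HeightOneSpectrum (𝓞 K) => ∏ j, (1 - α v j *
        (Ideal.absNorm v.asIdeal : ℂ) ^ (-(m + w)))⁻¹ := by
      funext v
      refine Finset.prod_congr rfl fun j _ => ?_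
      have hq : (2 : ℝ) ≤ Ideal.absNorm v.asIdeal := Pool.Agent.R409.RA.two_le v
      have hq0 : (Ideal.absNorm v.asIdeal : ℂ) ≠ 0 := by
        have : (Ideal.absNorm v.asIdeal : ℝ) ≠ 0 := by linarith
        exact_mod_cast this
      unfold av qv
      rw [Complex.ofReal_natCast, neg_add, Complex.cpow_add _ _ hq0, Complex.cpow_neg _ (m : ℂ),
        Complex.cpow_natCast]
      congr 2
      field_simp
    rw [h4]
    exact h1) hγ
  rw [order_sh, add_zero] at h4
  rw [coeff_sh] at h5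
  have h9 := excess_sh F m
  push_cast at h9
  rw [h9] at h7
  exact ⟨r, l, h4, h5, h6, h7, h8⟩

end Pool.Agent.N41.RM
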