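import Pool.Agent.N41.RM.Fam
import Pool.Agent.N41.RM.Frob

/-! The rotated law at a real point for Dirichlet series with real coefficients, and for the zeta function of
a family of finite fields. -/

set_option autoImplicit false

namespace Pool.Agent.N41.RM

open Filter Topology Set
open Pool.Agent.W187.UR (Lam cmean)
open Pool.Agent.W189.ML (ser om)

variable {ι : Type}

theorem ser_analytic {lam c : ι → ℝ} {B : ℝ} (hlam : ∀ i, 0 ≤ lam i)
    (hsum : ∀ σ : ℝ, B < σ → Summable fun i => |c i| * Real.exp (-(σ * lam i))) {σ : ℝ}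
    (h : B < σ) : AnalyticAt ℂ (ser lam c) (σ : ℂ) := by
  set ρ : ℝ := (B + σ) / 2 with hρ
  have hρ1 : B < ρ := by rw [hρ]; linarith
  have hρσ : ρ < σ := by rw [hρ]; linarith
  have hopen : IsOpen {z : ℂ | ρ < z.re} := isOpen_lt continuous_const Complex.continuous_re
  have h1 : DifferentiableOn ℂ (ser lam c) {z : ℂ | ρ < z.re} := by
    unfold ser
    refine Complex.differentiableOn_tsum_of_summable_norm
      (hsum ρ hρ1) (fun i => ?_) hopen (fun i z hz => ?_)
    · exact Differentiable.differentiableOn (by fun_prop)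
    · rw [norm_mul, Complex.norm_real, Real.norm_eq_abs, Complex.norm_exp]
      refine mul_le_mul_of_nonneg_left ?_ (abs_nonneg _)
      apply Real.exp_le_exp.2
      have h2 : (-(z * lam i)).re = -(z.re * lam i) := by
        rw [Complex.neg_re, Complex.re_mul_ofReal]
      rw [h2]
      have hz' : ρ < z.re := hz
      have := hlam i
      nlinarith
  exact h1.analyticAt (hopen.mem_nhds (show ρ < (σ : ℂ).re by rwa [Complex.ofReal_re]))

/-- beyond the abscissa there are no zeros and no poles -/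
theorem order_zero {lam c : ι → ℝ} {F : ℂ → ℂ} {A : ℝ} (hlam : ∀ i, 0 ≤ lam i)
    (hsum : ∀ σ : ℝ, A < σ → Summable fun i => |c i| * Real.exp (-(σ * lam i)))
    (heq : ∀ z : ℂ, A < z.re → F z = Complex.exp (ser lam c z)) {σ : ℝ} (h : A < σ) :
    meromorphicOrderAt F (σ : ℂ) = 0 := by
  have ho : IsOpen {z : ℂ | A < z.re} := isOpen_lt continuous_const Complex.continuous_re
  have h5 : F (σ : ℂ) ≠ 0 := by
    rw [heq _ (by rwa [Complex.ofReal_re])]
    exact Complex.exp_ne_zero _
  have h6 : AnalyticAt ℂ (fun z => Complex.exp (ser lam c z)) (σ : ℂ) :=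
    (ser_analytic hlam hsum h).cexp
  have h7 : F =ᶠ[𝓝 (σ : ℂ)] fun z => Complex.exp (ser lam c z) := by
    filter_upwards [ho.mem_nhds (show A < (σ : ℂ).re by rwa [Complex.ofReal_re])] with z hz
    exact heq z hz
  exact Pool.Agent.R409.RA.order_of_ne (h6.congr h7.symm) h5

theorem order_zero_above {lam c : ι → ℝ} {F : ℂ → ℂ} {A : ℝ} (hlam : ∀ i, 0 ≤ lam i)
    (hsum : ∀ σ : ℝ, A < σ → Summable fun i => |c i| * Real.exp (-(σ * lam i)))
    (heq : ∀ z : ℂ, A < z.re → F z = Complex.exp (ser lam c z)) (a B : ℝ) (hB : A ≤ B) :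
    (∑ᶠ x ∈ Ioc a B, (meromorphicOrderAt F (x : ℂ)).untop₀) = excess F a := by
  unfold excess
  refine (finsum_mem_inter_support_eq' _ _ _ fun σ hσ => ?_).symm
  rw [Function.mem_support] at hσ
  constructor
  · intro h
    refine ⟨h, ?_⟩
    by_contra h3
    push Not at h3
    apply hσ
    rw [order_zero hlam hsum heq (by linarith : A < σ)]
    rfl
  · exact fun h => h.1

/-- **The rotated law at a real point.** -/
theorem real_law [Countable ι] {lam c : ι → ℝ} {F : ℂ → ℂ} {A : ℝ} (hlam : ∀ i, 0 ≤ lam i)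
    (hsum : ∀ σ : ℝ, A < σ → Summable fun i => |c i| * Real.exp (-(σ * lam i)))
    (a : ℝ) (hmer : ∀ x : ℝ, a ≤ x → MeromorphicAt F (x : ℂ))
    (heq : ∀ z : ℂ, A < z.re → F z = Complex.exp (ser lam c z)) {γ : ℝ}
    (hγ : Real.pi / 2 < γ) :
    ∃ (m : ℤ) (l : ℝ), meromorphicOrderAt F a = m ∧ meromorphicTrailingCoeffAt F a = l ∧
      0 < (-1 : ℝ) ^ excess F a * l ∧
      (fun T : ℝ => cmean lam (fun i => c i * Real.exp (-(a * lam i))) γ T -
        (-m * (Real.log T - Lam γ) + Real.log |l| - Real.pi * excess F a * Complex.I))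
        =O[atTop] (fun T : ℝ => 1 / T) := by
  set B : ℝ := max (A - a) 1 with hB
  have hB0 : 0 < B := lt_of_lt_of_le one_pos (le_max_right _ _)
  have hBA : A - a ≤ B := le_max_left _ _
  obtain ⟨m, r₀, C, T₀, hm, hr, hi, h⟩ := rot_scale (lam := lam)
    (c := fun i => c i * Real.exp (-(a * lam i))) (Φ := fun w => F (a + w)) hB0 hlam
    (fun σ hσ => by
      refine (hsum (a + σ) (by linarith)).congr fun i => ?_
      rw [abs_mul, Real.abs_exp, mul_assoc, ← Real.exp_add]
      congr 2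
      ring)
    (fun x hx => by
      have h1 := hmer (a + x) (by linarith [hx.1])
      push_cast at h1
      exact MeromorphicAt.comp_analyticAt (f := F) (g := fun w : ℂ => (a : ℂ) + w) h1
        (by fun_prop))
    (fun w hw => by
      have hA1 : A < ((a : ℂ) + w).re := by
        rw [Complex.add_re, Complex.ofReal_re]
        linarith
      show F (a + w) = _
      rw [heq _ hA1]
      congr 1
      unfold ser
      refine tsum_congr fun i => ?_
      push_cast
      rw [mul_assoc, ← Complex.exp_add]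
      congr 2
      ring) hγ
  rw [order_sh, add_zero] at hm
  rw [coeff_sh] at hr
  have he : (∑ᶠ x ∈ Ioc (0 : ℝ) B, (meromorphicOrderAt (fun w => F (a + w)) (x : ℂ)).untop₀) =
      excess F a := by
    rw [← order_zero_above hlam hsum heq a (a + B) (by linarith)]
    have h2 : Ioc a (a + B) = (fun x : ℝ => a + x) '' Ioc (0 : ℝ) B := by
      rw [Set.image_const_add_Ioc, add_zero]
    rw [h2, finsum_mem_image ((add_right_injective a).injOn)]
    refine finsum_mem_congr rfl fun x _ => ?_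
    rw [order_sh]
    push_cast
    rfl
  rw [he] at hi
  have hl : Complex.exp r₀ = (((-1 : ℝ) ^ excess F a * Real.exp r₀.re : ℝ) : ℂ) := by
    have h1 : r₀ = (r₀.re : ℂ) + (excess F a : ℂ) * (-(Real.pi * Complex.I)) := by
      apply Complex.ext
      · simp
      · rw [hi]; simp; ring
    nth_rewrite 1 [h1]
    rw [Complex.exp_add, Complex.exp_int_mul, Complex.exp_neg, Complex.exp_pi_mul_I]
    push_cast
    norm_num
    ring
  set l : ℝ := (-1 : ℝ) ^ excess F a * Real.exp r₀.re with hld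
  have hsq : ((-1 : ℝ) ^ excess F a) * ((-1 : ℝ) ^ excess F a) = 1 := by
    rw [← mul_zpow]; simp
  have habs : |l| = Real.exp r₀.re := by
    rw [hld, abs_mul, Real.abs_exp]
    have : |(-1 : ℝ) ^ excess F a| = 1 := by
      rw [abs_zpow]; simp
    rw [this, one_mul]
  refine ⟨m, l, hm, ?_, ?_, ?_⟩
  · rw [← hr, hl]
  · rw [hld, ← mul_assoc, hsq, one_mul]
    exact Real.exp_pos _
  · refine Asymptotics.IsBigO.of_bound C ?_
    filter_upwards [eventually_ge_atTop T₀, eventually_gt_atTop 0] with T hT hT1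
    have h5 := h T hT
    rw [Real.norm_eq_abs, abs_of_pos (by positivity : 0 < 1 / T), mul_one_div]
    rw [← norm_neg] at h5
    refine le_trans (le_of_eq ?_) h5
    congr 1
    have h6 : (Real.log |l| : ℂ) - Real.pi * excess F a * Complex.I = r₀ := by
      rw [habs, Real.log_exp]
      apply Complex.ext
      · simp
      · rw [hi]; simp
    rw [add_sub_assoc, h6]
    ring

/-- absolute convergence of the mean -/
theorem cmean_summable {lam c : ι → ℝ} {A : ℝ} (hlam : ∀ i, 0 ≤ lam i)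
    (hsum : ∀ σ : ℝ, A < σ → Summable fun i => |c i| * Real.exp (-(σ * lam i))) (a γ : ℝ) {T : ℝ}
    (hT : 0 < T) : Summable fun i => ‖((c i * Real.exp (-(a * lam i)) : ℝ) : ℂ) *
      Complex.exp ((γ * (lam i / T) : ℝ) * Complex.I) * (om (lam i / T) : ℂ)‖ := by
  set σ : ℝ := |A| + |a| + 1 with hσ
  have hσ0 : 0 < σ := by positivity
  refine Summable.of_nonneg_of_le (fun i => norm_nonneg _) (fun i => ?_)
    ((hsum (a + σ) (by
      have h1 := le_abs_self A
      have h2 := neg_abs_le a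
      rw [hσ]
      linarith)).mul_left (Real.exp (Real.exp (σ * T)) + 1))
  rw [norm_mul, norm_mul, Complex.norm_exp_ofReal_mul_I, mul_one, Complex.norm_real,
    Complex.norm_real, Real.norm_eq_abs, Real.norm_eq_abs, abs_mul, Real.abs_exp]
  have hv : 0 ≤ lam i / T := div_nonneg (hlam i) hT.le
  have h1 := Pool.Agent.W189.ML.om_le (a := σ * T) (v := lam i / T) (by positivity) hv
  have h2 : σ * T * (lam i / T) = σ * lam i := by field_simp
  rw [h2] at h1
  have h3 : 0 ≤ om (lam i / T) := Pool.Agent.W189.ML.om_nonneg hv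
  rw [abs_of_nonneg h3]
  have h5 : Real.exp (-((a + σ) * lam i)) =
      Real.exp (-(a * lam i)) * Real.exp (-(σ * lam i)) := by
    rw [← Real.exp_add]; congr 1; ring
  rw [h5]
  calc |c i| * Real.exp (-(a * lam i)) * om (lam i / T)
      ≤ (|c i| * Real.exp (-(a * lam i))) * ((Real.exp (Real.exp (σ * T)) + 1) *
        Real.exp (-(σ * lam i))) := by gcongr
    _ = _ := by ring

namespace Fam

/-- the term of the mean of a function `N` of the prime powers at the real point `a` -/
noncomputable def fterm (N : Nat.Primes × ℕ → ℕ) (a γ T : ℝ) (c : Nat.Primes × ℕ) : ℂ :=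
  ((N c / ((c.2 + 1) * (((c.1 : ℕ) : ℝ) ^ (c.2 + 1)) ^ a) : ℝ) : ℂ) *
    (Complex.exp ((γ * ((c.2 + 1) * Real.log (c.1 : ℕ)) / T : ℝ) * Complex.I) /
      (Real.Gamma (1 + (c.2 + 1) * Real.log (c.1 : ℕ) / T) : ℂ))

variable {Y : Type} {κ : Y → Type} [∀ y, Field (κ y)] [∀ y, Finite (κ y)] {C n : ℕ}

theorem fterm_eq (a γ T : ℝ) (c : Nat.Primes × ℕ) :
    fterm (npt κ) a γ T c = ((coef κ c * Real.exp (-(a * lam c)) : ℝ) : ℂ) *
      Complex.exp ((γ * (lam c / T) : ℝ) * Complex.I) * (om (lam c / T) : ℂ) := by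
  have h1 : Real.exp (-(a * lam c)) = ((((c.1 : ℕ) : ℝ) ^ (c.2 + 1)) ^ a)⁻¹ := by
    rw [exp_lam, Real.rpow_neg (Nat.cast_nonneg _)]
    unfold Pool.Agent.H126R3.Qc
    push_cast
    rfl
  have h2 : (γ * ((c.2 + 1) * Real.log (c.1 : ℕ)) / T : ℝ) = γ * (lam c / T) := by
    unfold lam
    ring
  have h3 : (1 + (c.2 + 1) * Real.log (c.1 : ℕ) / T) = 1 + lam c / T := rfl
  unfold fterm om coef
  rw [h1, h2, h3, div_mul_eq_div_div]
  push_cast
  ring

/-- **The rotated law for the zeta function of a family of finite fields.** -/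
theorem Bdd.law (B : Bdd κ C n) {F : ℂ → ℂ} (a : ℝ)
    (hmer : ∀ x : ℝ, a ≤ x → MeromorphicAt F (x : ℂ)) {σ₁ : ℝ}
    (hF : ∀ s : ℂ, σ₁ < s.re →
      HasProd (fun y => (1 - ((Nat.card (κ y) : ℕ) : ℂ) ^ (-s))⁻¹) (F s))
    {γ : ℝ} (hγ : Real.pi / 2 < γ) :
    (∀ T : ℝ, 0 < T → Summable fun c => ‖fterm (npt κ) a γ T c‖) ∧
    ∃ (m : ℤ) (l : ℝ), meromorphicOrderAt F a = m ∧ meromorphicTrailingCoeffAt F a = l ∧
      0 < (-1 : ℝ) ^ excess F a * l ∧
      (fun T : ℝ => (∑' c, fterm (npt κ) a γ T c) -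
        (-m * (Real.log T - Lam γ) + Real.log |l| - Real.pi * excess F a * Complex.I))
        =O[atTop] (fun T : ℝ => 1 / T) := by
  refine ⟨fun T hT => ?_, ?_⟩
  · refine (cmean_summable (lam := lam) (c := coef κ) (A := (n : ℝ) + 1) lam_nonneg
      (fun σ hσ => B.summable_coef hσ) a γ hT).congr fun c => ?_
    rw [fterm_eq]
  · set A : ℝ := max ((n : ℝ) + 1) σ₁ with hA
    have h1 : (n : ℝ) + 1 ≤ A := le_max_left _ _
    have h2 : σ₁ ≤ A := le_max_right _ _
    obtain ⟨m, l, e1, e2, e3, e4⟩ := real_law (lam := lam) (c := coef κ) (F := F) (A := A)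
      lam_nonneg (fun σ hσ => B.summable_coef (by linarith)) a hmer
      (fun z hz => (hF z (by linarith)).unique (B.hasProd (by linarith))) hγ
    refine ⟨m, l, e1, e2, e3, ?_⟩
    have h3 : ∀ T : ℝ, (∑' c, fterm (npt κ) a γ T c) =
        cmean lam (fun i => coef κ i * Real.exp (-(a * lam i))) γ T := by
      intro T
      unfold cmean
      exact tsum_congr fun c => fterm_eq a γ T c
    exact e4.congr_left fun T => by rw [h3 T]

end Fam

end Pool.Agent.N41.RM
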