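import Pool.Agent.N41.RM.Off2

/-! Finiteness of the set of the zeros and poles on a horizontal half line. -/

set_option autoImplicit false

namespace Pool.Agent.N41.RM

open Filter Topology Set
open Pool.Agent.W187.UR (Lam cmean)
open Pool.Agent.W189.ML (ser om)

variable {ι : Type} {A : ℝ} {lam c : ι → ℝ} {F : ℂ → ℂ}

theorem DS.fin (D : DS A lam c F) (σ₀ t : ℝ) :
    (Ioi σ₀ ∩ Function.support
      fun σ : ℝ => (meromorphicOrderAt F (σ + t * Complex.I)).untop₀).Finite := by
  set R : ℝ := |σ₀| + |A| + |t| with hR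
  set U : Set ℂ := Metric.closedBall 0 R with hU
  have hm : MeromorphicOn F U := fun s _ => D.mero s
  have hf := (MeromorphicOn.divisor F U).finiteSupport (isCompact_closedBall 0 R)
  have hinj : Function.Injective fun σ : ℝ => (σ + t * Complex.I : ℂ) := by
    intro x y h
    have := congrArg Complex.re h
    simpa using this
  refine (hf.preimage hinj.injOn).subset ?_
  rintro σ ⟨h1, h2⟩
  have h1' : σ₀ < σ := h1
  have h3 : σ ≤ A := by
    by_contra h4
    push Not at h4
    apply h2
    show (meromorphicOrderAt F (σ + t * Complex.I)).untop₀ = 0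
    rw [D.order_right (s := σ + t * Complex.I) (by simpa using h4)]
    rfl
  have h5 : |σ| ≤ |σ₀| + |A| := by
    rw [abs_le]
    have e1 := neg_abs_le σ₀
    have e2 := le_abs_self A
    have e3 := abs_nonneg A
    have e4 := abs_nonneg σ₀
    constructor <;> linarith
  have h6 : (σ + t * Complex.I : ℂ) ∈ U := by
    rw [hU, mem_closedBall_zero_iff]
    refine (norm_add_le _ _).trans ?_
    rw [norm_mul, Complex.norm_real, Complex.norm_real, Complex.norm_I, mul_one,
      Real.norm_eq_abs, Real.norm_eq_abs]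
    linarith
  show (σ + t * Complex.I : ℂ) ∈ Function.support (MeromorphicOn.divisor F U)
  rw [Function.mem_support, MeromorphicOn.divisor_apply hm h6]
  exact h2

/-- if there are no poles on the half line, the number vanishes iff there are no zeros -/
theorem DS.rayN_eq_zero_iff (D : DS A lam c F) (σ₀ t : ℝ)
    (h : ∀ σ : ℝ, σ₀ < σ → 0 ≤ (meromorphicOrderAt F (σ + t * Complex.I)).untop₀) :
    rayN F σ₀ t = 0 ↔
      ∀ σ : ℝ, σ₀ < σ → (meromorphicOrderAt F (σ + t * Complex.I)).untop₀ = 0 := by
  have hf := D.fin σ₀ t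
  unfold rayN
  rw [finsum_mem_eq_sum _ hf, Finset.sum_eq_zero_iff_of_nonneg]
  · constructor
    · intro h1 σ hσ
      by_contra h2
      exact h2 (h1 σ (by rw [Set.Finite.mem_toFinset]; exact ⟨hσ, h2⟩))
    · intro h1 σ hσ
      rw [Set.Finite.mem_toFinset] at hσ
      exact h1 σ hσ.1
  · intro σ hσ
    rw [Set.Finite.mem_toFinset] at hσ
    exact h σ hσ.1

end Pool.Agent.N41.RM
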