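import Pool.Agent.N41.RM.Abs
import Pool.Agent.R409.RA.Loc

/-! Euler products with `N` parameters of absolute value at most `q_v^{-1/2}` (the normalisation at
the central point) and their rotated means. -/

set_option autoImplicit false

namespace Pool.Agent.N41.RM

open Filter Topology Set
open Pool.Agent.W187.UR (Lam cmean)
open Pool.Agent.W189.LC (MData ser_real)
open Pool.Agent.W189.ML (ser om)

variable {P : Type} {N : ℕ}

/-- the data of an Euler product normalised at the central point -/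
structure EN (q : P → ℝ) (a : P → Fin N → ℂ) : Prop where
  two_le : ∀ v, 2 ≤ q v
  sum : ∀ σ : ℝ, 1 < σ → Summable fun v => q v ^ (-σ)
  ha : ∀ v j, ‖a v j‖ ≤ q v ^ (-(1 / 2) : ℝ)
  real : ∀ v k, (∑ j, a v j ^ (k + 1)).im = 0

/-- the frequencies -/
noncomputable def fq (q : P → ℝ) (x : P × ℕ) : ℝ := (x.2 + 1) * Real.log (q x.1)

/-- the coefficients -/
noncomputable def cq (a : P → Fin N → ℂ) (x : P × ℕ) : ℝ :=
  (∑ j, a x.1 j ^ (x.2 + 1)).re / (x.2 + 1)

variable {q : P → ℝ} {a : P → Fin N → ℂ}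

theorem EN.pos (E : EN q a) (v : P) : 0 < q v := by linarith [E.two_le v]

theorem EN.fq_nonneg (E : EN q a) (x : P × ℕ) : 0 ≤ fq q x := by
  unfold fq
  have := Real.log_nonneg (by linarith [E.two_le x.1] : 1 ≤ q x.1)
  positivity

theorem EN.cq_le (E : EN q a) (x : P × ℕ) :
    |cq a x| ≤ N * (q x.1 ^ (-(1 / 2) : ℝ)) ^ (x.2 + 1) := by
  have hq0 := E.pos x.1
  have h0 : (0 : ℝ) ≤ x.2 := x.2.cast_nonneg
  unfold cq
  rw [abs_div, abs_of_pos (by positivity : (0 : ℝ) < (x.2 : ℝ) + 1), div_le_iff₀ (by positivity)]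
  have h1 : |(∑ j, a x.1 j ^ (x.2 + 1)).re| ≤ N * (q x.1 ^ (-(1 / 2) : ℝ)) ^ (x.2 + 1) := by
    refine (Complex.abs_re_le_norm _).trans ?_
    refine (norm_sum_le_of_le (n := fun _ => (q x.1 ^ (-(1 / 2) : ℝ)) ^ (x.2 + 1)) _
      fun j _ => ?_).trans (le_of_eq ?_)
    · rw [norm_pow]
      exact pow_le_pow_left₀ (norm_nonneg _) (E.ha x.1 j) _
    · rw [Finset.sum_const, Finset.card_univ, Fintype.card_fin, nsmul_eq_mul]
  refine h1.trans (le_mul_of_one_le_right (by positivity) (by linarith))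

theorem EN.exp_fq (E : EN q a) (σ : ℝ) (x : P × ℕ) :
    Real.exp (-(σ * fq q x)) = (q x.1 ^ (-σ)) ^ (x.2 + 1) := by
  have hq0 := E.pos x.1
  rw [← Real.rpow_natCast, ← Real.rpow_mul hq0.le, Real.rpow_def_of_pos hq0]
  unfold fq
  congr 1
  push_cast
  ring

theorem EN.term_le (E : EN q a) {σ : ℝ} (hσ : 1 / 2 ≤ σ) (x : P × ℕ) :
    |cq a x| * Real.exp (-(σ * fq q x)) ≤ (N * q x.1 ^ (-(1 / 2 + σ))) * (1 / 2) ^ x.2 := by
  have hq0 := E.pos x.1
  rw [E.exp_fq]
  have h1 : (q x.1 ^ (-(1 / 2) : ℝ)) ^ (x.2 + 1) * (q x.1 ^ (-σ)) ^ (x.2 + 1) =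
      q x.1 ^ (-(1 / 2 + σ)) * (q x.1 ^ (-(1 / 2 + σ))) ^ x.2 := by
    rw [← mul_pow, ← Real.rpow_add hq0, pow_succ', show -(1 / 2 : ℝ) + -σ = -(1 / 2 + σ) by ring]
  have h2 : q x.1 ^ (-(1 / 2 + σ)) ≤ 1 / 2 := by
    calc q x.1 ^ (-(1 / 2 + σ)) ≤ q x.1 ^ (-1 : ℝ) :=
          Real.rpow_le_rpow_of_exponent_le (by linarith [E.two_le x.1]) (by linarith)
      _ = (q x.1)⁻¹ := Real.rpow_neg_one _
      _ ≤ 2⁻¹ := inv_anti₀ (by norm_num) (E.two_le x.1)
      _ = 1 / 2 := by norm_num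
  calc |cq a x| * (q x.1 ^ (-σ)) ^ (x.2 + 1)
      ≤ N * (q x.1 ^ (-(1 / 2) : ℝ)) ^ (x.2 + 1) * (q x.1 ^ (-σ)) ^ (x.2 + 1) := by
        gcongr
        exact E.cq_le x
    _ = (N * q x.1 ^ (-(1 / 2 + σ))) * (q x.1 ^ (-(1 / 2 + σ))) ^ x.2 := by
      rw [mul_assoc, h1, mul_assoc]
    _ ≤ _ := by gcongr

theorem EN.summable (E : EN q a) {σ : ℝ} (hσ : 1 / 2 < σ) :
    Summable fun x => |cq a x| * Real.exp (-(σ * fq q x)) := by
  have hg : Summable fun n : ℕ => (1 / 2 : ℝ) ^ n :=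
    summable_geometric_of_lt_one (by norm_num) (by norm_num)
  have h1 := ((E.sum (1 / 2 + σ) (by linarith)).mul_left (N : ℝ)).mul_of_nonneg hg
    (fun v => by
      have := E.pos v
      show 0 ≤ (N : ℝ) * q v ^ (-(1 / 2 + σ))
      positivity) (fun n => by positivity)
  exact Summable.of_nonneg_of_le (fun x => by positivity) (fun x => E.term_le hσ.le x) h1

/-- the Euler factor at `v` in terms of the series -/
theorem EN.factor_sum (E : EN q a) {w : ℂ} (hw : 0 ≤ w.re) (v : P) :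
    HasSum (fun n : ℕ => (cq a (v, n) : ℂ) * Complex.exp (-(w * fq q (v, n))))
      (∑' n : ℕ, (cq a (v, n) : ℂ) * Complex.exp (-(w * fq q (v, n)))) ∧
    Complex.exp (∑' n : ℕ, (cq a (v, n) : ℂ) * Complex.exp (-(w * fq q (v, n)))) =
      ∏ j, (1 - a v j * (q v : ℂ) ^ (-w))⁻¹ := by
  have hq0 := E.pos v
  set x : ℂ := (q v : ℂ) ^ (-w) with hx
  have hxn : ‖x‖ = q v ^ (-w.re) := by
    rw [hx, Complex.norm_cpow_eq_rpow_re_of_pos hq0]
    simp
  have hb : ∀ j, ‖a v j * x‖ < 1 := by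
    intro j
    rw [norm_mul, hxn]
    have h1 : q v ^ (-w.re) ≤ 1 :=
      Real.rpow_le_one_of_one_le_of_nonpos (by linarith [E.two_le v]) (by linarith)
    have h2 : q v ^ (-(1 / 2) : ℝ) < 1 :=
      Real.rpow_lt_one_of_one_lt_of_neg (by linarith [E.two_le v]) (by norm_num)
    calc ‖a v j‖ * q v ^ (-w.re) ≤ q v ^ (-(1 / 2) : ℝ) * 1 := by
          gcongr
          exact E.ha v j
      _ < 1 := by linarith
  have hterm : ∀ n : ℕ, (cq a (v, n) : ℂ) * Complex.exp (-(w * fq q (v, n))) =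
      ∑ j, (a v j * x) ^ (n + 1) / ((n + 1 : ℕ) : ℂ) := by
    intro n
    have e1 : x ^ (n + 1) = Complex.exp (-(w * fq q (v, n))) := by
      have hqc : (q v : ℂ) ≠ 0 := by exact_mod_cast hq0.ne'
      rw [hx, Complex.cpow_def_of_ne_zero hqc, ← Complex.exp_nat_mul]
      congr 1
      unfold fq
      rw [← Complex.ofReal_log hq0.le]
      push_cast
      ring
    have e2 : (cq a (v, n) : ℂ) = (∑ j, a v j ^ (n + 1)) / ((n + 1 : ℕ) : ℂ) := by
      have e3 : ((∑ j, a v j ^ (n + 1)).re : ℂ) = ∑ j, a v j ^ (n + 1) := by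
        apply Complex.ext
        · simp
        · rw [E.real v n, Complex.ofReal_im]
      unfold cq
      push_cast
      rw [e3]
    rw [e2, ← e1, Finset.sum_div, Finset.sum_mul]
    refine Finset.sum_congr rfl fun j _ => ?_
    rw [mul_pow]
    ring
  have hs : ∀ z : ℂ, ‖z‖ < 1 →
      HasSum (fun n : ℕ => z ^ (n + 1) / ((n + 1 : ℕ) : ℂ)) (-Complex.log (1 - z)) := by
    intro z hz
    have := Complex.hasSum_taylorSeries_neg_log hz
    rw [← hasSum_nat_add_iff' 1] at this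
    simpa using this
  have hS : HasSum (fun n : ℕ => (cq a (v, n) : ℂ) * Complex.exp (-(w * fq q (v, n))))
      (∑ j, -Complex.log (1 - a v j * x)) := by
    simp only [hterm]
    exact hasSum_sum fun j _ => hs _ (hb j)
  refine ⟨hS.summable.hasSum, ?_⟩
  rw [hS.tsum_eq, Complex.exp_sum]
  refine Finset.prod_congr rfl fun j _ => ?_
  rw [Complex.exp_neg]
  have hne : 1 - a v j * x ≠ 0 := by
    intro h
    rw [sub_eq_zero] at h
    have := hb j
    rw [← h] at this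
    simp at this
  rw [Complex.exp_log hne]

theorem EN.csummable (E : EN q a) {w : ℂ} (hw : 1 / 2 < w.re) :
    Summable fun x : P × ℕ => (cq a x : ℂ) * Complex.exp (-(w * fq q x)) := by
  refine Summable.of_norm_bounded (E.summable hw) fun x => ?_
  rw [norm_mul, Complex.norm_real, Real.norm_eq_abs, Complex.norm_exp]
  have : (-(w * fq q x)).re = -(w.re * fq q x) := by rw [Complex.neg_re, Complex.re_mul_ofReal]
  rw [this]

/-- the Euler product is the exponential of the series -/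
theorem EN.hasProd (E : EN q a) {w : ℂ} (hw : 1 / 2 < w.re) :
    HasProd (fun v => ∏ j, (1 - a v j * (q v : ℂ) ^ (-w))⁻¹)
      (Complex.exp (ser (fq q) (cq a) w)) := by
  have h1 : HasSum (fun x : P × ℕ => (cq a x : ℂ) * Complex.exp (-(w * fq q x)))
      (ser (fq q) (cq a) w) := (E.csummable hw).hasSum
  have h2 := h1.prod_fiberwise (fun v => (E.factor_sum (w := w) (by linarith) v).1)
  have h3 := h2.cexp
  have h4 : (Complex.exp ∘ fun v =>
      ∑' n : ℕ, (cq a (v, n) : ℂ) * Complex.exp (-(w * fq q (v, n)))) =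
      fun v => ∏ j, (1 - a v j * (q v : ℂ) ^ (-w))⁻¹ := by
    funext v
    exact (E.factor_sum (by linarith) v).2
  rw [h4] at h3
  exact h3

/-- the series is analytic in `Re w > 1/2` -/
theorem EN.ser_analytic (E : EN q a) {w : ℂ} (hw : 1 / 2 < w.re) :
    AnalyticAt ℂ (ser (fq q) (cq a)) w := by
  set σ : ℝ := (1 / 2 + w.re) / 2 with hσ
  have hσ1 : 1 / 2 < σ := by rw [hσ]; linarith
  have hσw : σ < w.re := by rw [hσ]; linarith
  have hopen : IsOpen {z : ℂ | σ < z.re} := isOpen_lt continuous_const Complex.continuous_re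
  have h1 : DifferentiableOn ℂ (ser (fq q) (cq a)) {z : ℂ | σ < z.re} := by
    unfold ser
    refine Complex.differentiableOn_tsum_of_summable_norm (E.summable hσ1) (fun i => ?_) hopen
      (fun i z hz => ?_)
    · exact Differentiable.differentiableOn (by fun_prop)
    · rw [norm_mul, Complex.norm_real, Real.norm_eq_abs, Complex.norm_exp]
      refine mul_le_mul_of_nonneg_left ?_ (abs_nonneg _)
      apply Real.exp_le_exp.2
      have h2 : (-(z * fq q i)).re = -(z.re * fq q i) := by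
        rw [Complex.neg_re, Complex.re_mul_ofReal]
      rw [h2]
      have hz' : σ < z.re := hz
      have := E.fq_nonneg i
      nlinarith
  exact h1.analyticAt (hopen.mem_nhds hσw)

variable {Φ : ℂ → ℂ}

theorem EN.phi_analytic (E : EN q a)
    (hF : ∀ w : ℂ, 1 / 2 < w.re → HasProd (fun v => ∏ j, (1 - a v j * (q v : ℂ) ^ (-w))⁻¹) (Φ w))
    {w : ℂ} (hw : 1 / 2 < w.re) : AnalyticAt ℂ Φ w ∧ Φ w ≠ 0 := by
  have ho : IsOpen {z : ℂ | (1 / 2 : ℝ) < z.re} := isOpen_lt continuous_const Complex.continuous_re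
  have h1 : Φ =ᶠ[𝓝 w] fun z => Complex.exp (ser (fq q) (cq a) z) := by
    filter_upwards [ho.mem_nhds hw] with z hz
    exact (hF z hz).unique (E.hasProd hz)
  refine ⟨((E.ser_analytic hw).cexp).congr h1.symm, ?_⟩
  rw [h1.self_of_nhds]
  exact Complex.exp_ne_zero _

/-- the data for the abstract theorem -/
theorem EN.mdata (E : EN q a)
    (hmer : ∀ x ∈ Icc (0 : ℝ) (1 / 2), MeromorphicAt Φ (x : ℂ))
    (hF : ∀ w : ℂ, 1 / 2 < w.re → HasProd (fun v => ∏ j, (1 - a v j * (q v : ℂ) ^ (-w))⁻¹) (Φ w)) :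
    MData (fq q) (cq a) Φ where
  lam_pos := E.fq_nonneg
  sum := fun σ hσ => E.summable (by linarith)
  mero := fun x hx => by
    by_cases h : x ≤ 1 / 2
    · exact hmer x ⟨hx.1, h⟩
    · push Not at h
      exact (E.phi_analytic hF (w := x) (by rw [Complex.ofReal_re]; exact h)).1.meromorphicAt
  eq := fun w hw => (hF w (by linarith)).unique (E.hasProd (by linarith))

/-- the terms of the rotated mean -/
noncomputable def rterm (q : P → ℝ) (a : P → Fin N → ℂ) (γ T : ℝ) (x : P × ℕ) : ℂ :=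
  -((∑ j, a x.1 j ^ (x.2 + 1)) / (x.2 + 1) *
    Complex.exp ((γ * (fq q x / T) : ℝ) * Complex.I) * ((Real.Gamma (1 + fq q x / T))⁻¹ : ℝ))

/-- the rotated mean -/
noncomputable def rmn (q : P → ℝ) (a : P → Fin N → ℂ) (γ T : ℝ) : ℂ := ∑' x, rterm q a γ T x

theorem EN.rterm_eq (E : EN q a) (γ T : ℝ) (x : P × ℕ) : rterm q a γ T x =
    -((cq a x : ℂ) * Complex.exp ((γ * (fq q x / T) : ℝ) * Complex.I) * (om (fq q x / T) : ℂ)) := by
  have e3 : ((∑ j, a x.1 j ^ (x.2 + 1)).re : ℂ) = ∑ j, a x.1 j ^ (x.2 + 1) := by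
    apply Complex.ext
    · simp
    · rw [E.real x.1 x.2, Complex.ofReal_im]
  unfold rterm cq om
  push_cast
  rw [e3]

theorem EN.rterm_summable (E : EN q a) (γ : ℝ) {T : ℝ} (hT : 0 < T) :
    Summable fun x => ‖rterm q a γ T x‖ := by
  refine Summable.of_nonneg_of_le (fun x => norm_nonneg _) (fun x => ?_)
    ((E.summable (σ := 1) (by norm_num)).mul_left (Real.exp (Real.exp T) + 1))
  rw [E.rterm_eq, norm_neg, norm_mul, norm_mul, Complex.norm_exp_ofReal_mul_I, mul_one,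
    Complex.norm_real, Complex.norm_real, Real.norm_eq_abs, Real.norm_eq_abs]
  have hv : 0 ≤ fq q x / T := div_nonneg (E.fq_nonneg x) hT.le
  have h1 := Pool.Agent.W189.ML.om_le (a := T) (v := fq q x / T) hT.le hv
  have h2 : T * (fq q x / T) = fq q x := by field_simp
  rw [h2] at h1
  have h3 : 0 ≤ om (fq q x / T) := by
    unfold om
    exact inv_nonneg.2 (Real.Gamma_nonneg_of_nonneg (by linarith))
  rw [abs_of_nonneg h3, one_mul]
  calc |cq a x| * om (fq q x / T)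
      ≤ |cq a x| * ((Real.exp (Real.exp T) + 1) * Real.exp (-(fq q x))) := by gcongr
    _ = _ := by ring

/-- **The rotated law** -/
theorem EN.law [Countable P] (E : EN q a)
    (hmer : ∀ x ∈ Icc (0 : ℝ) (1 / 2), MeromorphicAt Φ (x : ℂ))
    (hF : ∀ w : ℂ, 1 / 2 < w.re → HasProd (fun v => ∏ j, (1 - a v j * (q v : ℂ) ^ (-w))⁻¹) (Φ w))
    {γ : ℝ} (hγ : Real.pi / 2 < γ) :
    ∃ (m : ℤ) (l : ℝ), meromorphicOrderAt Φ 0 = m ∧ meromorphicTrailingCoeffAt Φ 0 = l ∧ l ≠ 0 ∧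
      (fun T : ℝ => rmn q a γ T - (m * (Real.log T - Lam γ) - Real.log |l| +
        Real.pi * (∑ᶠ x ∈ Ioi (0 : ℝ), (meromorphicOrderAt Φ (x : ℂ)).untop₀ : ℤ) *
          Complex.I)) =O[atTop] (fun T : ℝ => 1 / T) ∧
      Tendsto (fun T : ℝ => Complex.exp (rmn q a γ T) / (T : ℂ) ^ m) atTop
        (𝓝 (Complex.exp (-(m * Lam γ)) / l)) := by
  have D := E.mdata hmer hF
  have htop := D.order_ne_top (x := 0) ⟨le_rfl, by norm_num⟩
  rw [Complex.ofReal_zero] at htop
  obtain ⟨m, hm⟩ := WithTop.ne_top_iff_exists.1 htop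
  obtain ⟨r₀, C, T₀, hr, hi, -, -, h⟩ := Pool.Agent.W187.UR.mdata_rot D (m := m) hm.symm hγ
  have he : (∑ᶠ x ∈ Ioc (0 : ℝ) 1, (meromorphicOrderAt Φ (x : ℂ)).untop₀) =
      ∑ᶠ x ∈ Ioi (0 : ℝ), (meromorphicOrderAt Φ (x : ℂ)).untop₀ := by
    refine (finsum_mem_inter_support_eq' _ _ _ fun σ hσ => ?_).symm
    rw [Function.mem_support] at hσ
    constructor
    · intro h
      refine ⟨h, ?_⟩
      by_contra h3
      push Not at h3
      have h4 := E.phi_analytic hF (w := σ) (by rw [Complex.ofReal_re]; linarith)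
      rw [Pool.Agent.R409.RA.order_of_ne h4.1 h4.2] at hσ
      simp at hσ
    · exact fun h => h.1
  rw [he] at hi
  have hmean : ∀ T, rmn q a γ T = -cmean (fq q) (cq a) γ T := by
    intro T
    unfold rmn cmean
    rw [← tsum_neg]
    exact tsum_congr fun x => E.rterm_eq γ T x
  obtain ⟨l, h1, h2, h3, h4⟩ := law_abs (W := rmn q a γ) (Λ := Lam γ) (m := m) (l :=
    meromorphicTrailingCoeffAt Φ 0) (C := C) (T₀ := T₀) hr hi (fun T hT => by
      rw [hmean]
      exact h T hT)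
  exact ⟨m, l, hm.symm, h1, h2, h3, h4⟩

end Pool.Agent.N41.RM
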