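import Pool.Agent.N41.RM.CEul
import Pool.Agent.R362.NearGen2
import Pool.Agent.Y773.HK.Eul

/-! Ray class characters: the L-function with finitely many Euler factors removed, and the data of
the rotated law. -/

set_option autoImplicit false

open NumberField Complex Filter Topology Set IsDedekindDomain

namespace Pool.Agent.N41.RM

open Pool.Agent.Y773 Pool.Agent.Y773.G
open Pool.Agent.R362.HL Pool.Agent.R362.Near

variable {K : Type} [Field K] [NumberField K] {𝔣 : Ideal (𝓞 K)} {e : InfinitePlace K → ℕ}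
  {ψ : Ideal (𝓞 K) →*₀ ℂ}

/-- the L-function of a ray class character is meromorphic in the plane -/
theorem ray_mero (h : IsRay 𝔣 e ψ) : ∃ Z : ℂ → ℂ, (∀ s, MeromorphicAt Z s) ∧
    ∀ s : ℂ, 1 < s.re → Z s = LI ψ s := by
  obtain ⟨hψ, X, hX⟩ := h.xi
  have hR0 : 0 < rayCond 𝔣 := by linarith [hX.one_le]
  have hRc : (rayCond 𝔣 : ℂ) ≠ 0 := by exact_mod_cast hR0.ne'
  refine ⟨fun z => X z * ginf (rayCond 𝔣) e z / (z * (z - 1)) ^ rayPole ψ, fun s => ?_,
    fun z hz => ?_⟩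
  · have h1 : AnalyticAt ℂ X s := hX.diff.analyticAt s
    have h2 : AnalyticAt ℂ (ginf (rayCond 𝔣) e) s := (ginf_diff hR0).analyticAt s
    have h3 : AnalyticAt ℂ (fun z : ℂ => (z * (z - 1)) ^ rayPole ψ) s := by fun_prop
    exact (h1.mul h2).meromorphicAt.div h3.meromorphicAt
  · show X z * ginf (rayCond 𝔣) e z / (z * (z - 1)) ^ rayPole ψ = _
    rw [hX.eq z hz, ginf, Finset.prod_inv_distrib, Complex.cpow_neg]
    have hp : ∏ φ : K →+* ℂ, Gammaℝ (z + (ex e φ : ℕ)) ≠ 0 :=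
      Finset.prod_ne_zero_iff.2 fun φ _ => Gammaℝ_ne_zero_of_re_pos (by
        rw [Complex.add_re, Complex.natCast_re]
        have : (0 : ℝ) ≤ (ex e φ : ℕ) := Nat.cast_nonneg _
        linarith)
    have hc : (rayCond 𝔣 : ℂ) ^ (z / 2) ≠ 0 := by
      rw [Ne, Complex.cpow_eq_zero_iff]
      exact fun h => hRc h.1
    have h0 : (z * (z - 1)) ^ rayPole ψ ≠ 0 := by
      refine pow_ne_zero _ (mul_ne_zero ?_ ?_)
      · rintro rfl
        norm_num at hz
      · rw [sub_ne_zero]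
        rintro rfl
        norm_num at hz
    field_simp

/-- the primes -/
noncomputable def hoPrime : HeightOneSpectrum (𝓞 K) ≃ {𝔭 : Ideal (𝓞 K) // Prime 𝔭} where
  toFun v := ⟨v.asIdeal, v.prime⟩
  invFun 𝔭 := ⟨𝔭.1, Ideal.isPrime_of_prime 𝔭.2, 𝔭.2.ne_zero⟩
  left_inv _ := rfl
  right_inv _ := rfl

theorem LI_hasProd (hψ : ∀ 𝔞, ‖ψ 𝔞‖ ≤ 1) {s : ℂ} (hs : 1 < s.re) :
    HasProd (fun v : HeightOneSpectrum (𝓞 K) =>
      (1 - ψ v.asIdeal * ((Ideal.absNorm v.asIdeal : ℕ) : ℂ) ^ (-s))⁻¹) (LI ψ s) := by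
  have h1 := (hasSum_log hψ hs).cexp
  rw [← Pool.Agent.Y772.DK.LI_eq_exp ψ hψ hs] at h1
  have h2 := (hoPrime (K := K)).hasProd_iff.2 h1
  refine h2.congr_fun fun v => ?_
  have hz := norm_zz_lt hψ hs v.prime
  have hne : 1 - zz ψ s v.asIdeal ≠ 0 := by
    intro h0
    have h5 : zz ψ s v.asIdeal = 1 := (sub_eq_zero.mp h0).symm
    rw [h5, norm_one] at hz
    exact lt_irrefl _ hz
  change _ = Complex.exp (-Complex.log (1 - zz ψ s v.asIdeal))
  rw [Complex.exp_neg, Complex.exp_log hne]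
  rfl

open Classical in
/-- the Euler product without the factors at `S` -/
noncomputable def LS (ψ : Ideal (𝓞 K) →*₀ ℂ) (S : Finset (HeightOneSpectrum (𝓞 K))) (s : ℂ) : ℂ :=
  ∏' v : HeightOneSpectrum (𝓞 K), if v ∈ S then 1 else
    (1 - ψ v.asIdeal * ((Ideal.absNorm v.asIdeal : ℕ) : ℂ) ^ (-s))⁻¹

theorem LS_eq (hψ : ∀ 𝔞, ‖ψ 𝔞‖ ≤ 1) (S : Finset (HeightOneSpectrum (𝓞 K))) {s : ℂ}
    (hs : 1 < s.re) : LS ψ S s = LI ψ s *
      ∏ v ∈ S, (1 - ψ v.asIdeal * ((Ideal.absNorm v.asIdeal : ℕ) : ℂ) ^ (-s)) := by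
  classical
  have h1 := LI_hasProd hψ hs
  have h3 : HasProd (fun v : HeightOneSpectrum (𝓞 K) => if v ∈ S then
        (1 - ψ v.asIdeal * ((Ideal.absNorm v.asIdeal : ℕ) : ℂ) ^ (-s)) else 1)
      (∏ v ∈ S, (1 - ψ v.asIdeal * ((Ideal.absNorm v.asIdeal : ℕ) : ℂ) ^ (-s))) := by
    have h4 := hasProd_prod_of_ne_finset_one (L := SummationFilter.unconditional _)
      (f := fun v : HeightOneSpectrum (𝓞 K) => if v ∈ S then
        (1 - ψ v.asIdeal * ((Ideal.absNorm v.asIdeal : ℕ) : ℂ) ^ (-s)) else 1)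
      (s := S) (by
        intro v hv
        exact if_neg hv)
    convert h4 using 1
    exact Finset.prod_congr rfl fun v hv => (if_pos hv).symm
  unfold LS
  refine ((h1.mul h3).congr_fun fun v => ?_).tprod_eq
  have hz := norm_zz_lt hψ hs v.prime
  have hne : 1 - zz ψ s v.asIdeal ≠ 0 := by
    intro h0
    have h5 : zz ψ s v.asIdeal = 1 := (sub_eq_zero.mp h0).symm
    rw [h5, norm_one] at hz
    exact lt_irrefl _ hz
  have hne' : 1 - ψ v.asIdeal * ((Ideal.absNorm v.asIdeal : ℕ) : ℂ) ^ (-s) ≠ 0 := hne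
  split_ifs with hv
  · rw [inv_mul_cancel₀ hne']
  · rw [mul_one]

/-- the L-function without the factors at `S` is meromorphic in the plane -/
theorem ray_mero_S (h : IsRay 𝔣 e ψ) (S : Finset (HeightOneSpectrum (𝓞 K))) :
    ∃ Z : ℂ → ℂ, (∀ s, MeromorphicAt Z s) ∧ ∀ s : ℂ, 1 < s.re → Z s = LS ψ S s := by
  obtain ⟨hψ, -, -⟩ := h.xi
  obtain ⟨Z, h1, h2⟩ := ray_mero h
  refine ⟨fun s => Z s * ∏ v ∈ S, (1 - ψ v.asIdeal * ((Ideal.absNorm v.asIdeal : ℕ) : ℂ) ^ (-s)),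
    fun s => ?_, fun s hs => ?_⟩
  · refine (h1 s).mul (AnalyticAt.meromorphicAt ?_)
    refine Finset.analyticAt_fun_prod _ fun v _ => ?_
    have hq : (((Ideal.absNorm v.asIdeal : ℕ) : ℂ)) ≠ 0 := by
      have h3 : Ideal.absNorm v.asIdeal ≠ 0 := fun h1 =>
        v.prime.ne_zero (Ideal.absNorm_eq_zero_iff.mp h1)
      exact_mod_cast h3
    have h4 : Differentiable ℂ fun s : ℂ =>
        (1 - ψ v.asIdeal * ((Ideal.absNorm v.asIdeal : ℕ) : ℂ) ^ (-s)) := by
      intro s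
      exact (differentiableAt_const _).sub ((differentiableAt_const _).mul
        ((differentiableAt_id.neg).const_cpow (Or.inl hq)))
    exact h4.analyticAt s
  · show Z s * _ = _
    rw [h2 s hs, LS_eq hψ S hs]

open Classical in
/-- the parameters -/
noncomputable def rayA (ψ : Ideal (𝓞 K) →*₀ ℂ) (S : Finset (HeightOneSpectrum (𝓞 K)))
    (v : HeightOneSpectrum (𝓞 K)) (_ : Fin 1) : ℂ := if v ∈ S then 0 else ψ v.asIdeal

theorem ray_ce (hψ : ∀ 𝔞, ‖ψ 𝔞‖ ≤ 1) (S : Finset (HeightOneSpectrum (𝓞 K))) :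
    CE 0 (qv (K := K)) (rayA ψ S) where
  two_le := Pool.Agent.R409.RA.two_le
  sum := fun σ hσ => Pool.Agent.R409.RA.summable_nm hσ
  ha := fun v j => by
    rw [Real.rpow_zero]
    unfold rayA
    split_ifs
    · rw [norm_zero]; exact zero_le_one
    · exact hψ _

theorem LS_tprod (ψ : Ideal (𝓞 K) →*₀ ℂ) (S : Finset (HeightOneSpectrum (𝓞 K))) (s : ℂ) :
    LS ψ S s = ∏' v : HeightOneSpectrum (𝓞 K), ∏ j,
      (1 - rayA ψ S v j * (qv v : ℂ) ^ (-s))⁻¹ := by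
  unfold LS
  refine tprod_congr fun v => ?_
  rw [Fin.prod_univ_one]
  unfold rayA qv
  split_ifs with hv
  · rw [zero_mul, sub_zero, inv_one]
  · rw [Complex.ofReal_natCast]

/-- two continuations agree near every point -/
theorem mero_unique {F G : ℂ → ℂ} (hF : ∀ s, MeromorphicAt F s) (hG : ∀ s, MeromorphicAt G s)
    {A : ℝ} (h : ∀ s : ℂ, A < s.re → F s = G s) (z : ℂ) : F =ᶠ[𝓝[≠] z] G := by
  have hm : MeromorphicOn (fun s => F s - G s) univ := fun s _ => (hF s).sub (hG s)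
  have htop : meromorphicOrderAt (fun s => F s - G s) z = ⊤ := by
    by_contra hne
    have h1 := hm.meromorphicOrderAt_ne_top_of_isPreconnected isPreconnected_univ
      (mem_univ z) (mem_univ ((A + 1 : ℝ) : ℂ)) hne
    apply h1
    rw [meromorphicOrderAt_eq_top_iff]
    have hs : A < (((A + 1 : ℝ) : ℂ)).re := by rw [Complex.ofReal_re]; linarith
    have ho : IsOpen {z : ℂ | A < z.re} := isOpen_lt continuous_const Complex.continuous_re
    refine Filter.Eventually.filter_mono nhdsWithin_le_nhds ?_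
    filter_upwards [ho.mem_nhds (show A < (((A + 1 : ℝ) : ℂ)).re from hs)] with w hw
    have hw1 : A < w.re := hw
    rw [h w hw1, sub_self]
  rw [meromorphicOrderAt_eq_top_iff] at htop
  filter_upwards [htop] with s hs
  exact sub_eq_zero.1 hs

/-- the conjugate character -/
theorem ray_conj (h : IsRay 𝔣 e ψ) (σ : ℂ →+* ℂ) :
    IsRay 𝔣 e (σ.toMonoidWithZeroHom.comp ψ) where
  ne_bot := h.ne_bot
  sig_le := h.sig_le
  cpx := h.cpx
  supp := fun 𝔞 h0 => by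
    rw [← h.supp 𝔞 h0]
    show σ (ψ 𝔞) ≠ 0 ↔ _
    rw [map_ne_zero]
  sig := fun x h0 h1 => by
    show σ (ψ _) = _
    rw [h.sig x h0 h1]
    unfold signs
    rw [map_prod]
    refine Finset.prod_congr rfl fun w _ => ?_
    rw [map_pow, map_intCast]
  prim := fun 𝔤 h1 h2 => by
    obtain ⟨x, h3, h4, h5, h6⟩ := h.prim 𝔤 h1 h2
    refine ⟨x, h3, h4, h5, fun h7 => h6 ?_⟩
    have h8 : σ (ψ (Ideal.span {x})) = 1 := h7
    exact σ.injective (by rw [h8, map_one])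

end Pool.Agent.N41.RM
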