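import Pool.Agent.N41.RM.Frob
import Mathlib.NumberTheory.TsumDivisorsAntidiagonal

/-! The rotated means in terms of the logarithms of `∏ (1 - a_j^N)`, `N = 1, 2, …`. -/

set_option autoImplicit false

namespace Pool.Agent.N41.RM

open Filter Topology Set ArithmeticFunction
open scoped ArithmeticFunction.Moebius

/-- `∑_{N = k l} μ(k) ω(l)` -/
noncomputable def mb (ω : ℕ → ℂ) (N : ℕ) : ℂ :=
  ∑ x ∈ N.divisorsAntidiagonal, ((μ x.1 : ℤ) : ℂ) * ω x.2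

theorem sum_mb (ω : ℕ → ℂ) {M : ℕ} (hM : 0 < M) : ∑ N ∈ M.divisors, mb ω N = ω M :=
  (sum_eq_iff_sum_mul_moebius_eq (f := mb ω) (g := ω)).2 (fun _ _ => rfl) M hM

theorem norm_mb {ω : ℕ → ℂ} {C : ℝ} (hC : 0 ≤ C) (hω : ∀ n, 1 ≤ n → ‖ω n‖ ≤ C) (N : ℕ) :
    ‖mb ω N‖ ≤ N * C := by
  unfold mb
  refine (norm_sum_le_of_le (n := fun _ => C) _ fun x hx => ?_).trans ?_
  · rw [Nat.mem_divisorsAntidiagonal] at hx
    have h2 : 1 ≤ x.2 := by
      rcases Nat.eq_zero_or_pos x.2 with h | h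
      · rw [h, mul_zero] at hx
        exact absurd hx.1.symm hx.2
      · exact h
    rw [norm_mul]
    have h1 : ‖((μ x.1 : ℤ) : ℂ)‖ ≤ 1 := by
      rw [Complex.norm_intCast]
      exact_mod_cast abs_moebius_le_one (n := x.1)
    calc ‖((μ x.1 : ℤ) : ℂ)‖ * ‖ω x.2‖ ≤ 1 * C := by
          gcongr
          exact hω _ h2
      _ = C := one_mul C
  · rw [Finset.sum_const, nsmul_eq_mul]
    gcongr
    rw [← Nat.map_div_right_divisors, Finset.card_map]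
    exact Nat.card_divisors_le_self N

/-- Möbius inversion for the logarithms -/
theorem mob_log {ω : ℕ → ℂ} {C : ℝ} (hC : 0 ≤ C) (hω : ∀ n, 1 ≤ n → ‖ω n‖ ≤ C) {x : ℂ}
    (hx : ‖x‖ < 1) :
    HasSum (fun N : ℕ+ => mb ω N / (N : ℕ) * Complex.log (1 - x ^ (N : ℕ)))
      (∑' M : ℕ+, -(ω M * x ^ (M : ℕ) / (M : ℕ))) := by
  have hS : Summable fun c : ℕ+ × ℕ+ =>
      -(mb ω c.1 * x ^ ((c.1 : ℕ) * (c.2 : ℕ)) / (((c.1 : ℕ) : ℂ) * ((c.2 : ℕ) : ℂ))) := by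
    have h1 := (summable_prod_mul_pow 0 (r := (‖x‖ : ℝ)) (by rwa [Real.norm_eq_abs, abs_norm])).mul_left
      C
    refine Summable.of_norm_bounded h1 fun c => ?_
    rw [norm_neg, norm_div, norm_mul, norm_pow, norm_mul, Complex.norm_natCast,
      Complex.norm_natCast, pow_zero, one_mul]
    have h2 : (1 : ℝ) ≤ ((c.1 : ℕ) : ℝ) := by exact_mod_cast c.1.2
    have h3 : (1 : ℝ) ≤ ((c.2 : ℕ) : ℝ) := by exact_mod_cast c.2.2
    rw [div_le_iff₀ (by positivity)]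
    have h4 := norm_mb hC hω (c.1 : ℕ)
    calc ‖mb ω c.1‖ * ‖x‖ ^ ((c.1 : ℕ) * (c.2 : ℕ)) ≤
          (((c.1 : ℕ) : ℝ) * C) * ‖x‖ ^ ((c.1 : ℕ) * (c.2 : ℕ)) := by gcongr
      _ ≤ (((c.1 : ℕ) : ℝ) * C) * ‖x‖ ^ ((c.1 : ℕ) * (c.2 : ℕ)) * ((c.2 : ℕ) : ℝ) :=
          le_mul_of_one_le_right (by positivity) h3
      _ = _ := by ring
  -- rows
  have hrow : ∀ N : ℕ+, HasSum (fun m : ℕ+ =>
      -(mb ω N * x ^ ((N : ℕ) * (m : ℕ)) / (((N : ℕ) : ℂ) * ((m : ℕ) : ℂ))))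
      (mb ω N / (N : ℕ) * Complex.log (1 - x ^ (N : ℕ))) := by
    intro N
    have hz : ‖x ^ (N : ℕ)‖ < 1 := by
      rw [norm_pow]
      exact pow_lt_one₀ (norm_nonneg _) hx N.2.ne'
    have h1 := Complex.hasSum_taylorSeries_neg_log hz
    rw [← hasSum_nat_add_iff' 1] at h1
    simp only [Finset.sum_range_succ, Finset.sum_range_zero, pow_zero, Nat.cast_zero, div_zero,
      add_zero, sub_zero] at h1
    have h2 := h1.mul_left (-(mb ω N / (N : ℕ)))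
    rw [← Equiv.pnatEquivNat.symm.hasSum_iff]
    have h3 : -(mb ω N / (N : ℕ)) * -Complex.log (1 - x ^ (N : ℕ)) =
        mb ω N / (N : ℕ) * Complex.log (1 - x ^ (N : ℕ)) := by ring
    rw [h3] at h2
    refine h2.congr_fun ?_
    intro k
    simp only [Function.comp_apply]
    have h4 : ((Equiv.pnatEquivNat.symm k : ℕ+) : ℕ) = k + 1 := rfl
    rw [h4, ← pow_mul]
    have h5 : (((k + 1 : ℕ)) : ℂ) ≠ 0 := Nat.cast_ne_zero.2 (by omega)
    have h6 : (((N : ℕ)) : ℂ) ≠ 0 := Nat.cast_ne_zero.2 N.2.ne'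
    field_simp
  have h1 := hS.hasSum.prod_fiberwise hrow
  convert! h1 using 1
  have hS2 := sigmaAntidiagonalEquivProd.summable_iff.2 hS
  rw [← sigmaAntidiagonalEquivProd.tsum_eq]
  refine Eq.trans ?_ (Summable.tsum_sigma hS2).symm
  refine tsum_congr fun M => ?_
  simp only [Function.comp_apply]
  rw [tsum_fintype]
  have h2 : ∀ c : Nat.divisorsAntidiagonal (M : ℕ),
      -(mb ω (sigmaAntidiagonalEquivProd ⟨M, c⟩).1 *
        x ^ (((sigmaAntidiagonalEquivProd ⟨M, c⟩).1 : ℕ) *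
          ((sigmaAntidiagonalEquivProd ⟨M, c⟩).2 : ℕ)) /
        ((((sigmaAntidiagonalEquivProd ⟨M, c⟩).1 : ℕ) : ℂ) *
          (((sigmaAntidiagonalEquivProd ⟨M, c⟩).2 : ℕ) : ℂ))) =
      (fun y : ℕ × ℕ => -(mb ω y.1 * x ^ (M : ℕ) / ((M : ℕ) : ℂ))) c.1 := by
    rintro ⟨⟨k, l⟩, h⟩
    rw [Nat.mem_divisorsAntidiagonal] at h
    have h3 : ((sigmaAntidiagonalEquivProd ⟨M, ⟨(k, l), Nat.mem_divisorsAntidiagonal.2 h⟩⟩).1 : ℕ) =
      k := rfl
    have h4 : ((sigmaAntidiagonalEquivProd ⟨M, ⟨(k, l), Nat.mem_divisorsAntidiagonal.2 h⟩⟩).2 : ℕ) =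
      l := rfl
    simp only [h3, h4]
    rw [h.1, ← Nat.cast_mul, h.1]
  simp only [h2]
  rw [Finset.univ_eq_attach, Finset.sum_attach (Nat.divisorsAntidiagonal (M : ℕ))
    (fun y : ℕ × ℕ => -(mb ω y.1 * x ^ (M : ℕ) / ((M : ℕ) : ℂ))),
    Nat.sum_divisorsAntidiagonal (fun k _ => -(mb ω k * x ^ (M : ℕ) / ((M : ℕ) : ℂ))),
    Finset.sum_neg_distrib, ← Finset.sum_div, ← Finset.sum_mul, sum_mb ω M.pos]

/-! ### The sum over the primes -/

/-- the weight `e^{iγt/T} / Γ(1 + t/T)` -/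
noncomputable def omt (γ T t : ℝ) : ℂ :=
  Complex.exp ((γ * (t / T) : ℝ) * Complex.I) * ((Real.Gamma (1 + t / T))⁻¹ : ℝ)

theorem omt_le (γ : ℝ) {T t : ℝ} (hT : 0 < T) (ht : 0 ≤ t) :
    ‖omt γ T t‖ ≤ (Real.exp (Real.exp T) + 1) * Real.exp (-t) := by
  have hv : 0 ≤ t / T := div_nonneg ht hT.le
  have h1 := Pool.Agent.W189.ML.om_le (a := T) (v := t / T) hT.le hv
  have h2 : T * (t / T) = t := by field_simp
  rw [h2] at h1
  have h3 : 0 ≤ Pool.Agent.W189.ML.om (t / T) := by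
    unfold Pool.Agent.W189.ML.om
    exact inv_nonneg.2 (Real.Gamma_nonneg_of_nonneg (by linarith))
  unfold omt
  rw [norm_mul, Complex.norm_exp_ofReal_mul_I, one_mul, Complex.norm_real, Real.norm_eq_abs]
  change |Pool.Agent.W189.ML.om (t / T)| ≤ _
  rw [abs_of_nonneg h3]
  exact h1

variable {P : Type} {N : ℕ} {q : P → ℝ} {a : P → Fin N → ℂ}

/-- the terms in terms of the logarithms -/
noncomputable def pterm (q : P → ℝ) (a : P → Fin N → ℂ) (γ T : ℝ) (x : P × ℕ) : ℂ :=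
  (∑ j, Complex.log (1 - a x.1 j ^ (x.2 + 1))) / ((x.2 + 1 : ℕ) : ℂ) *
    mb (fun n => omt γ T (n * Real.log (q x.1))) (x.2 + 1)

theorem EN.norm_pow (E : EN q a) (v : P) (j : Fin N) (k : ℕ) :
    ‖a v j ^ (k + 1)‖ ≤ q v ^ (-(1 / 2) : ℝ) * (3 / 4) ^ k ∧ ‖a v j ^ (k + 1)‖ ≤ 3 / 4 := by
  have hq := E.pos v
  have h1 : q v ^ (-(1 / 2) : ℝ) ≤ 3 / 4 := by
    have h2 : q v ^ (-(1 / 2) : ℝ) ≤ (2 : ℝ) ^ (-(1 / 2) : ℝ) :=
      Real.rpow_le_rpow_of_nonpos (by norm_num) (E.two_le v) (by norm_num)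
    have h3 : (2 : ℝ) ^ (-(1 / 2) : ℝ) ≤ 3 / 4 := by
      rw [Real.rpow_neg (by norm_num), ← Real.sqrt_eq_rpow]
      rw [inv_le_comm₀ (by positivity) (by norm_num)]
      rw [Real.le_sqrt (by norm_num) (by norm_num)]
      norm_num
    exact h2.trans h3
  have h2 := E.ha v j
  have h3 : ‖a v j ^ (k + 1)‖ ≤ q v ^ (-(1 / 2) : ℝ) * (3 / 4) ^ k := by
    rw [_root_.norm_pow, pow_succ']
    exact mul_le_mul h2 (pow_le_pow_left₀ (norm_nonneg _) (h2.trans h1) k) (by positivity)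
      (by positivity)
  refine ⟨h3, h3.trans ?_⟩
  calc q v ^ (-(1 / 2) : ℝ) * (3 / 4) ^ k ≤ 3 / 4 * 1 := by
        gcongr
        exact pow_le_one₀ (by norm_num) (by norm_num)
    _ = _ := by norm_num

theorem EN.omt_le (E : EN q a) (γ : ℝ) {T : ℝ} (hT : 0 < T) (v : P) {n : ℕ} (hn : 1 ≤ n) :
    ‖omt γ T (n * Real.log (q v))‖ ≤ (Real.exp (Real.exp T) + 1) * (q v)⁻¹ := by
  have hq := E.pos v
  have hl : 0 ≤ Real.log (q v) := Real.log_nonneg (by linarith [E.two_le v])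
  have hn' : (1 : ℝ) ≤ n := by exact_mod_cast hn
  refine (Pool.Agent.N41.RM.omt_le γ hT (by positivity)).trans ?_
  gcongr
  calc Real.exp (-(n * Real.log (q v))) ≤ Real.exp (-Real.log (q v)) := by
        apply Real.exp_le_exp.2
        nlinarith
    _ = (q v)⁻¹ := by rw [Real.exp_neg, Real.exp_log hq]

theorem EN.pterm_le (E : EN q a) (γ : ℝ) {T : ℝ} (hT : 0 < T) (x : P × ℕ) :
    ‖pterm q a γ T x‖ ≤
      (4 * N * (Real.exp (Real.exp T) + 1) * q x.1 ^ (-(3 / 2) : ℝ)) * (3 / 4) ^ x.2 := by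
  have hq := E.pos x.1
  have h1 : ‖∑ j, Complex.log (1 - a x.1 j ^ (x.2 + 1))‖ ≤
      N * (4 * (q x.1 ^ (-(1 / 2) : ℝ) * (3 / 4) ^ x.2)) := by
    refine (norm_sum_le_of_le (n := fun _ => 4 * (q x.1 ^ (-(1 / 2) : ℝ) * (3 / 4) ^ x.2)) _
      fun j _ => ?_).trans (le_of_eq ?_)
    · obtain ⟨h2, h3⟩ := E.norm_pow x.1 j x.2
      exact (Pool.Agent.R409.RA.log_bound h3).trans (by gcongr)
    · rw [Finset.sum_const, Finset.card_univ, Fintype.card_fin, nsmul_eq_mul]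
  have h2 := norm_mb (ω := fun n => omt γ T (n * Real.log (q x.1)))
    (C := (Real.exp (Real.exp T) + 1) * (q x.1)⁻¹) (by positivity)
    (fun n hn => E.omt_le γ hT x.1 hn) (x.2 + 1)
  have hk : (0 : ℝ) < ((x.2 + 1 : ℕ) : ℝ) := by positivity
  unfold pterm
  rw [norm_mul, norm_div, Complex.norm_natCast]
  calc ‖∑ j, Complex.log (1 - a x.1 j ^ (x.2 + 1))‖ / ((x.2 + 1 : ℕ) : ℝ) *
        ‖mb (fun n => omt γ T (n * Real.log (q x.1))) (x.2 + 1)‖
      ≤ (N * (4 * (q x.1 ^ (-(1 / 2) : ℝ) * (3 / 4) ^ x.2))) / ((x.2 + 1 : ℕ) : ℝ) *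
        (((x.2 + 1 : ℕ) : ℝ) * ((Real.exp (Real.exp T) + 1) * (q x.1)⁻¹)) := by gcongr
    _ = (4 * N * (Real.exp (Real.exp T) + 1) * (q x.1 ^ (-(1 / 2) : ℝ) * (q x.1)⁻¹)) *
        (3 / 4) ^ x.2 := by
        field_simp
    _ = _ := by
        have h3 : q x.1 ^ (-(1 / 2) : ℝ) * (q x.1)⁻¹ = q x.1 ^ (-(3 / 2) : ℝ) := by
          rw [← Real.rpow_neg_one, ← Real.rpow_add hq]
          norm_num
        rw [h3]

theorem EN.pterm_summable (E : EN q a) (γ : ℝ) {T : ℝ} (hT : 0 < T) :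
    Summable fun x => ‖pterm q a γ T x‖ := by
  have hg : Summable fun n : ℕ => (3 / 4 : ℝ) ^ n :=
    summable_geometric_of_lt_one (by norm_num) (by norm_num)
  have h1 := ((E.sum (3 / 2) (by norm_num)).mul_left
    (4 * N * (Real.exp (Real.exp T) + 1))).mul_of_nonneg hg
    (fun v => by
      have := E.pos v
      show 0 ≤ 4 * N * (Real.exp (Real.exp T) + 1) * q v ^ (-(3 / 2) : ℝ)
      positivity) (fun n => by positivity)
  exact Summable.of_nonneg_of_le (fun x => norm_nonneg _) (fun x => E.pterm_le γ hT x) h1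

theorem EN.local_sum (E : EN q a) (γ : ℝ) {T : ℝ} (hT : 0 < T) (v : P) :
    ∑' k : ℕ, pterm q a γ T (v, k) = ∑' k : ℕ, rterm q a γ T (v, k) := by
  set ω : ℕ → ℂ := fun n => omt γ T (n * Real.log (q v)) with hω
  have hC : (0 : ℝ) ≤ (Real.exp (Real.exp T) + 1) * (q v)⁻¹ := by
    have := E.pos v
    positivity
  have h1 : ∀ j : Fin N, HasSum (fun M : ℕ+ => mb ω M / (M : ℕ) *
      Complex.log (1 - a v j ^ (M : ℕ))) (∑' M : ℕ+, -(ω M * a v j ^ (M : ℕ) / (M : ℕ))) := by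
    intro j
    have h2 := (E.norm_pow v j 0).2
    rw [zero_add, pow_one] at h2
    exact mob_log hC (fun n hn => E.omt_le γ hT v hn) (by linarith)
  have h2 := hasSum_sum (s := Finset.univ) fun j _ => h1 j
  have h3 : ∀ j : Fin N, Summable fun M : ℕ+ => -(ω M * a v j ^ (M : ℕ) / (M : ℕ)) := by
    intro j
    have h4 := (E.norm_pow v j 0).2
    rw [zero_add, pow_one] at h4
    have h5 : Summable fun M : ℕ+ => ((Real.exp (Real.exp T) + 1) * (q v)⁻¹) * ‖a v j‖ ^ (M : ℕ) :=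
      ((summable_geometric_of_lt_one (norm_nonneg _) (by linarith : ‖a v j‖ < 1)).subtype
        _).mul_left _
    refine Summable.of_norm_bounded h5 fun M => ?_
    rw [norm_neg, norm_div, norm_mul, _root_.norm_pow, Complex.norm_natCast]
    have hM : (1 : ℝ) ≤ ((M : ℕ) : ℝ) := by exact_mod_cast M.2
    refine (div_le_self (by positivity) hM).trans ?_
    gcongr
    exact E.omt_le γ hT v M.2
  rw [← Summable.tsum_finsetSum fun j _ => h3 j] at h2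
  have h4 := h2.tsum_eq
  rw [tsum_pnat_eq_tsum_succ (f := fun M : ℕ => ∑ j : Fin N, mb ω M / (M : ℕ) *
      Complex.log (1 - a v j ^ (M : ℕ))),
    tsum_pnat_eq_tsum_succ (f := fun M : ℕ => ∑ j : Fin N, -(ω M * a v j ^ (M : ℕ) / (M : ℕ)))] at h4
  have h5 : ∀ k : ℕ, pterm q a γ T (v, k) = ∑ j : Fin N, mb ω (k + 1) / ((k + 1 : ℕ) : ℂ) *
      Complex.log (1 - a v j ^ (k + 1)) := by
    intro k
    unfold pterm
    rw [← Finset.mul_sum]
    ring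
  have h6 : ∀ k : ℕ, rterm q a γ T (v, k) =
      ∑ j : Fin N, -(ω (k + 1) * a v j ^ (k + 1) / ((k + 1 : ℕ) : ℂ)) := by
    intro k
    rw [Finset.sum_neg_distrib, ← Finset.sum_div, ← Finset.mul_sum]
    unfold rterm
    rw [hω]
    simp only
    unfold omt fq
    push_cast
    ring
  simp_rw [h5, h6]
  exact h4

/-- **the mean in terms of the logarithms** -/
theorem EN.tsum_pterm (E : EN q a) (γ : ℝ) {T : ℝ} (hT : 0 < T) :
    ∑' x, pterm q a γ T x = rmn q a γ T := by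
  unfold rmn
  rw [(E.pterm_summable γ hT).of_norm.tsum_prod, (E.rterm_summable γ hT).of_norm.tsum_prod]
  exact tsum_congr fun v => E.local_sum γ hT v

end Pool.Agent.N41.RM
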