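import Pool.Agent.N41.RM.Fin
import Pool.Agent.N41.RM.Bad

/-! Multiplicity and leading coefficient of an analytic function in terms of its derivatives; the
consequences of the law for real and imaginary parts. -/

set_option autoImplicit false

namespace Pool.Agent.N41.RM

open Filter Topology Set
open Pool.Agent.W187.UR (Lam)

lemma citer_pow_mul (n : ℕ) (t : ℂ) (g : ℂ → ℂ) (hg : AnalyticAt ℂ g t) :
    iteratedDeriv n (fun u : ℂ => (u - t) ^ n * g u) t = n.factorial * g t := by
  induction n generalizing g with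
  | zero => simp
  | succ n ih =>
    rw [iteratedDeriv_succ']
    have h1 : deriv (fun u : ℂ => (u - t) ^ (n + 1) * g u) =ᶠ[𝓝 t]
        fun u => (u - t) ^ n * ((n + 1) * g u + (u - t) * deriv g u) := by
      filter_upwards [hg.eventually_analyticAt] with u hu
      have hp : HasDerivAt (fun u : ℂ => (u - t) ^ (n + 1)) (((n : ℂ) + 1) * (u - t) ^ n) u := by
        have := ((hasDerivAt_id u).sub_const t).fun_pow (n + 1)
        simpa using this
      have := hp.fun_mul hu.differentiableAt.hasDerivAt
      rw [this.deriv]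
      ring
    have h3 : AnalyticAt ℂ (fun u : ℂ => u - t) t := analyticAt_id.sub analyticAt_const
    rw [h1.iteratedDeriv_eq, ih (fun u => (n + 1) * g u + (u - t) * deriv g u)
      ((analyticAt_const.mul hg).add (h3.mul hg.deriv))]
    simp only [sub_self, zero_mul, add_zero, Nat.factorial_succ]
    push_cast
    ring

/-- the multiplicity of `s` as a zero of `F`: the least `m` such that the `m`-th derivative of `F` at
`s` is not zero -/
noncomputable def mul0 (F : ℂ → ℂ) (s : ℂ) : ℕ := sInf {m : ℕ | iteratedDeriv m F s ≠ 0}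

theorem mul0_spec {F : ℂ → ℂ} {s : ℂ} (ha : AnalyticAt ℂ F s) {n : ℤ} {l : ℂ}
    (hn : meromorphicOrderAt F s = n) (hl : meromorphicTrailingCoeffAt F s = l) :
    n = mul0 F s ∧ iteratedDeriv (mul0 F s) F s / (mul0 F s).factorial = l ∧
      iteratedDeriv (mul0 F s) F s ≠ 0 := by
  have hon : analyticOrderAt F s ≠ ⊤ := by
    intro h
    rw [ha.meromorphicOrderAt_eq, h] at hn
    simp at hn
  obtain ⟨k, hk⟩ := ENat.ne_top_iff_exists.mp hon
  obtain ⟨g, hg, hg0, hev⟩ := ha.analyticOrderAt_eq_natCast.mp hk.symm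
  have hnk : n = (k : ℤ) := by
    rw [ha.meromorphicOrderAt_eq, ← hk] at hn
    simp only [ENat.map_natCast] at hn
    exact_mod_cast hn.symm
  have hlg : l = g s := by
    have h1 := lim_of_order ha.meromorphicAt hn hl
    have h2 : Tendsto g (𝓝[≠] s) (𝓝 (g s)) :=
      hg.continuousAt.tendsto.mono_left nhdsWithin_le_nhds
    refine tendsto_nhds_unique h1 (h2.congr' ?_)
    filter_upwards [hev.filter_mono nhdsWithin_le_nhds, self_mem_nhdsWithin] with z hz hz2
    have h3 : z - s ≠ 0 := sub_ne_zero.2 hz2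
    rw [hz, hnk, smul_eq_mul, zpow_neg, zpow_natCast, ← mul_assoc,
      inv_mul_cancel₀ (pow_ne_zero _ h3), one_mul]
  have hder : iteratedDeriv k F s = k.factorial * g s := by
    have h2 : F =ᶠ[𝓝 s] fun u => (u - s) ^ k * g u := by
      filter_upwards [hev] with u hu
      rw [hu, smul_eq_mul]
    rw [h2.iteratedDeriv_eq, citer_pow_mul k s g hg]
  have hder0 : iteratedDeriv k F s ≠ 0 := by
    rw [hder]
    exact mul_ne_zero (by exact_mod_cast k.factorial_ne_zero) hg0
  have hlow : ∀ i < k, iteratedDeriv i F s = 0 := by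
    rw [← natCast_le_analyticOrderAt_iff_iteratedDeriv_eq_zero ha, ← hk]
  have hm : mul0 F s = k := by
    unfold mul0
    apply le_antisymm
    · exact Nat.sInf_le hder0
    · refine le_csInf ⟨k, hder0⟩ fun i hi => ?_
      by_contra hcon
      exact hi (hlow i (by omega))
  rw [hm]
  refine ⟨hnk, ?_, hder0⟩
  rw [hder, hlg, mul_div_cancel_left₀ _ (by exact_mod_cast k.factorial_ne_zero)]

theorem mul0_eq_zero_iff {F : ℂ → ℂ} {s : ℂ} (h : iteratedDeriv (mul0 F s) F s ≠ 0) :
    mul0 F s = 0 ↔ F s ≠ 0 := by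
  constructor
  · intro h1
    rw [h1, iteratedDeriv_zero] at h
    exact h
  · intro h1
    rw [← iteratedDeriv_zero (f := F)] at h1
    exact Nat.le_zero.1 (Nat.sInf_le (m := 0) h1)

/-- the difference between a function with the law and its main term tends to `0` -/
theorem tendsto_of_law {W : ℝ → ℂ} {r : ℤ} {Λ c : ℂ}
    (h : (fun T : ℝ => W T - (r * (Real.log T - Λ) + c)) =O[atTop] (fun T : ℝ => 1 / T)) :
    Tendsto (fun T : ℝ => W T - (r * (Real.log T - Λ) + c)) atTop (𝓝 0) := by
  refine h.trans_tendsto ?_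
  exact tendsto_const_nhds.div_atTop tendsto_id

/-- the imaginary part, with the order read off from the real part -/
theorem im_of_law {W : ℝ → ℂ} {r : ℤ} {Λ c : ℂ}
    (h : (fun T : ℝ => W T - (r * (Real.log T - Λ) + c)) =O[atTop] (fun T : ℝ => 1 / T)) :
    Tendsto (fun T : ℝ => (W T).im + Λ.im * ((W T).re / Real.log T)) atTop (𝓝 c.im) := by
  have h1 := tendsto_of_law h
  have h2 := re_of_law h
  have h3 := ((Complex.continuous_im.tendsto 0).comp h1).add (h2.const_mul Λ.im)
  have h4 := h3.add_const (c.im - Λ.im * r)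
  rw [Complex.zero_im, zero_add, add_sub_cancel] at h4
  refine h4.congr fun T => ?_
  simp only [Function.comp_apply]
  have e : (W T - (r * (Real.log T - Λ) + c)).im = (W T).im + r * Λ.im - c.im := by
    have : (W T - (r * (Real.log T - Λ) + c)) = W T - ((r * Real.log T : ℝ) : ℂ) +
        ((r : ℝ) : ℂ) * Λ - c := by
      push_cast; ring
    rw [this, Complex.sub_im, Complex.add_im, Complex.sub_im, Complex.ofReal_im,
      Complex.im_ofReal_mul]
    ring
  rw [e]
  ring

end Pool.Agent.N41.RM
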