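import Pool.Agent.N41.RM.Fin
import Pool.Agent.W45.HF.NF2

/-! Newforms of weight two: the Euler product and the rotated law at all points of the plane. -/

set_option autoImplicit false

namespace Pool.Agent.N41.RM

open Filter Topology Set UpperHalfPlane MatrixGroups CongruenceSubgroup
open Pool.Agent.W187.UR (Lam cmean)
open Pool.Agent.W169.HF Pool.Agent.W45.HF

theorem hh_succ' (a b : ℂ) (j : ℕ) : hh a b (j + 1) = a ^ (j + 1) + b * hh a b j := by
  induction j with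
  | zero => rw [hh_one, hh_zero]; ring
  | succ j ih =>
    have h1 := hh_succ a b j
    rw [hh_succ a b (j + 1)]
    linear_combination a * ih - b * h1

theorem hh_pow (a b : ℂ) (k : ℕ) : hh a b (k + 2) - a * b * hh a b k = a ^ (k + 2) + b ^ (k + 2) := by
  rw [hh_succ a b (k + 1), hh_succ' a b k]
  ring

variable {N : ℕ} {f : CuspForm (Gamma0 N : Subgroup (GL (Fin 2) ℝ)) 2} {w : ℝ}

/-- the sum of the `k`-th powers of the two parameters at `p`, in terms of the coefficients -/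
noncomputable def pw (f : CuspForm (Gamma0 N : Subgroup (GL (Fin 2) ℝ)) 2) (p k : ℕ) : ℂ :=
  coef f (p ^ k) - if p ∣ N ∨ k < 2 then 0 else (p : ℂ) * coef f (p ^ (k - 2))

theorem satake2 (hf : IsForm N f w) (p : ℕ) (hp : p.Prime) :
    ∃ a b : ℂ, ‖a‖ ≤ 1 ∧ ‖b‖ ≤ 1 ∧
      (∀ j : ℕ, coef f (p ^ j) = hh a b j * ((Real.sqrt p : ℝ) : ℂ) ^ j) ∧
      ∀ k : ℕ, (a ^ (k + 1) + b ^ (k + 1)) * ((Real.sqrt p : ℝ) : ℂ) ^ (k + 1) = pw f p (k + 1) := by
  obtain ⟨a, b, ha, hb, h⟩ := satake N f w hf p hp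
  refine ⟨a, b, ha, hb, h, ?_⟩
  have hp0 : (0 : ℝ) < p := by exact_mod_cast hp.pos
  have hs2 : ((Real.sqrt p : ℝ) : ℂ) ^ 2 = (p : ℂ) := by
    have := Real.sq_sqrt hp0.le
    exact_mod_cast this
  have hpc : (p : ℂ) ≠ 0 := by exact_mod_cast hp.ne_zero
  have hab : a * b = if p ∣ N then 0 else 1 := by
    have h2 := hf.pow p 0 hp
    rw [zero_add, zero_add, pow_one, pow_zero, hf.one, h 2] at h2
    have h1 := h 1
    rw [pow_one, pow_one] at h1
    rw [h1, hs2] at h2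
    have h3 : hh a b 2 = (a + b) ^ 2 - a * b := by
      rw [show 2 = 0 + 2 by rfl, hh_rec, hh_one, hh_zero]; ring
    rw [h3, hh_one] at h2
    have h4 : (p : ℂ) * (a * b) = (p : ℂ) * if p ∣ N then 0 else 1 := by
      split_ifs with hN
      · rw [if_pos hN] at h2
        linear_combination -h2 - (a + b) ^ 2 * hs2
      · rw [if_neg hN] at h2
        linear_combination -h2 - (a + b) ^ 2 * hs2
    exact mul_left_cancel₀ hpc h4
  intro k
  unfold pw
  rcases k with _ | k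
  · rw [if_pos (Or.inr (by norm_num)), sub_zero, h (0 + 1), zero_add, hh_one]
    ring
  · have e1 : k + 1 + 1 = k + 2 := rfl
    have e2 : k + 2 - 2 = k := rfl
    rw [e1, e2, h (k + 2), h k, ← hh_pow, hab, ← hs2]
    by_cases hN : p ∣ N
    · rw [if_pos hN, if_pos (Or.inl hN)]
      ring
    · rw [if_neg hN, if_neg (by omega)]
      ring

theorem nf_prod (hf : IsForm N f w) : ∃ α : Nat.Primes → Fin 2 → ℂ, (∀ p j, ‖α p j‖ ≤ 1) ∧
    (∀ (p : Nat.Primes) (k : ℕ), (∑ j, α p j ^ (k + 1)) * ((Real.sqrt (p : ℕ) : ℝ) : ℂ) ^ (k + 1) =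
      pw f p (k + 1)) ∧
    ∀ s : ℂ, 1 < s.re → ∑' n : ℕ, coef f (n + 1) * ((n + 1 : ℕ) : ℂ) ^ (-(s + 1 / 2)) =
      ∏' p : Nat.Primes, ∏ j, (1 - α p j * ((p : ℕ) : ℂ) ^ (-s))⁻¹ := by
  choose a b ha hb hab hpw using fun p : Nat.Primes => satake2 hf p p.2
  refine ⟨fun p j => if j = 0 then a p else b p, ?_, ?_, ?_⟩
  · intro p j
    show ‖(if j = 0 then a p else b p : ℂ)‖ ≤ 1
    split_ifs
    · exact ha p
    · exact hb p
  · intro p k
    rw [Fin.sum_univ_two]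
    simp only [if_true, one_ne_zero, if_false]
    exact hpw p k
  · intro s hs
    have h1 : Summable (fun n : ℕ => ‖coef f n * ((n : ℕ) : ℂ) ^ (-(s + 1 / 2))‖) :=
      Summable.of_nonneg_of_le (fun n => norm_nonneg _) (term_bd N f w hf s hs) (summable_div s hs)
    have hne : -(s + 1 / 2) ≠ 0 := by
      intro h
      have := congrArg Complex.re h
      simp at this
      linarith
    have h0 : coef f 0 * ((0 : ℕ) : ℂ) ^ (-(s + 1 / 2)) = 0 := by
      rw [Nat.cast_zero, Complex.zero_cpow hne, mul_zero]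
    have hE := EulerProduct.eulerProduct_tprod
      (f := fun n : ℕ => coef f n * ((n : ℕ) : ℂ) ^ (-(s + 1 / 2)))
      (by simp [hf.one]) (by
        intro m n hmn
        rw [hf.mul m n hmn, Nat.cast_mul, Complex.natCast_mul_natCast_cpow]
        ring) h1 h0
    rw [h1.of_norm.tsum_eq_zero_add, h0, zero_add] at hE
    rw [← hE]
    refine tprod_congr fun p => ?_
    rw [Fin.prod_univ_two]
    have hp := p.2
    have hp0 : (0 : ℝ) < ((p : ℕ) : ℝ) := by exact_mod_cast hp.pos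
    simp only [if_true, one_ne_zero, if_false]
    have hx : ‖(((p : ℕ) : ℂ)) ^ (-s)‖ < 1 := by
      rw [Complex.norm_natCast_cpow_of_pos hp.pos, Complex.neg_re]
      exact Real.rpow_lt_one_of_one_lt_of_neg (by exact_mod_cast hp.one_lt) (by linarith)
    rw [← hh_tsum (a p) (b p) _ (ha p) (hb p) hx]
    refine tsum_congr fun j => ?_
    rw [hab p j, mul_assoc]
    congr 1
    have e1 : (((p : ℕ) ^ j : ℕ) : ℂ) ^ (-(s + 1 / 2)) = (((p : ℕ) : ℂ) ^ (-(s + 1 / 2))) ^ j := by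
      rw [← Complex.cpow_nat_mul, Nat.cast_pow, Complex.natCast_cpow_natCast_mul]
    rw [e1, ← mul_pow]
    congr 1
    have hpc : ((p : ℕ) : ℂ) ≠ 0 := by exact_mod_cast hp.ne_zero
    have e2 : ((Real.sqrt ((p : ℕ) : ℝ) : ℝ) : ℂ) = ((p : ℕ) : ℂ) ^ (1 / 2 : ℂ) := by
      rw [Real.sqrt_eq_rpow, Complex.ofReal_cpow hp0.le]
      push_cast
      rfl
    rw [e2, ← Complex.cpow_add _ _ hpc]
    congr 1
    ring

/-- the L-function, from its completion `Λ` -/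
noncomputable def LfunOf (N : ℕ) (Λ : ℂ → ℂ) (s : ℂ) : ℂ :=
  Λ s * (((Real.sqrt N / (2 * Real.pi) : ℝ) : ℂ) ^ s)⁻¹ * (Complex.Gamma s)⁻¹

theorem base_ne [NeZero N] : ((Real.sqrt N / (2 * Real.pi) : ℝ) : ℂ) ≠ 0 := by
  have hN : (0 : ℝ) < N := by exact_mod_cast Nat.pos_of_ne_zero (NeZero.ne N)
  have : (0 : ℝ) < Real.sqrt N / (2 * Real.pi) := by positivity
  exact_mod_cast this.ne'

theorem fac_diff [NeZero N] : Differentiable ℂ
    fun s : ℂ => (((Real.sqrt N / (2 * Real.pi) : ℝ) : ℂ) ^ s)⁻¹ := by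
  have h := base_ne (N := N)
  have h1 : Differentiable ℂ fun s : ℂ => (((Real.sqrt N / (2 * Real.pi) : ℝ) : ℂ) ^ s) :=
    fun s => (differentiableAt_id).const_cpow (Or.inl h)
  exact h1.inv fun s => by
    rw [Complex.cpow_def_of_ne_zero h]
    exact Complex.exp_ne_zero _

theorem lfun_diff [NeZero N] {Λ : ℂ → ℂ} (hΛ : Differentiable ℂ Λ) :
    Differentiable ℂ (LfunOf N Λ) :=
  (hΛ.mul fac_diff).mul Complex.differentiable_one_div_Gamma

theorem lfun_eq [NeZero N] {Λ : ℂ → ℂ} (hΛ : IsCompleted f Λ) {s : ℂ} (hs : 2 < s.re) :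
    LfunOf N Λ s = ∑' n : ℕ, coef f (n + 1) * ((n + 1 : ℕ) : ℂ) ^ (-s) := by
  have h := base_ne (N := N)
  have h1 : ((Real.sqrt N / (2 * Real.pi) : ℝ) : ℂ) ^ s ≠ 0 := by
    rw [Complex.cpow_def_of_ne_zero h]
    exact Complex.exp_ne_zero _
  have h2 : Complex.Gamma s ≠ 0 := Complex.Gamma_ne_zero_of_re_pos (by linarith)
  unfold LfunOf
  rw [hΛ.2 s hs]
  field_simp

/-- the data of the Euler product -/
theorem nf_eg [NeZero N] (hf : IsForm N f w) {Λ : ℂ → ℂ} (hΛ : IsCompleted f Λ) :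
    ∃ a : Nat.Primes → Fin 2 → ℂ,
      EG (P := Nat.Primes) (N := 2) 1 (fun p => ((p : ℕ) : ℝ)) a ∧
      (∀ (p : Nat.Primes) (k : ℕ), (∑ j, a p j ^ (k + 1)) = pw f p (k + 1)) ∧
      ∀ s : ℂ, 1 + (1 : ℝ) < s.re → LfunOf N Λ s =
        ∏' p : Nat.Primes, ∏ j, (1 - a p j * (((p : ℕ) : ℝ) : ℂ) ^ (-s))⁻¹ := by
  obtain ⟨α, h1, h2, h3⟩ := nf_prod hf
  have h4 : ∀ (p : Nat.Primes) (k : ℕ),
      (∑ j, (α p j * ((Real.sqrt (p : ℕ) : ℝ) : ℂ)) ^ (k + 1)) = pw f p (k + 1) := by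
    intro p k
    rw [← h2, Finset.sum_mul]
    exact Finset.sum_congr rfl fun j _ => by rw [mul_pow]
  have hcf : ∀ n, (coef f n).im = 0 := hf.real
  refine ⟨fun p j => α p j * ((Real.sqrt (p : ℕ) : ℝ) : ℂ), ⟨?_, ?_, ?_, ?_⟩, h4, ?_⟩
  · exact fun p => by exact_mod_cast p.2.two_le
  · exact fun σ hσ => Nat.Primes.summable_rpow.2 (by linarith)
  · intro p j
    have hp1 : (1 : ℝ) ≤ ((p : ℕ) : ℝ) := by exact_mod_cast p.2.one_le
    rw [norm_mul, Complex.norm_real, Real.norm_of_nonneg (Real.sqrt_nonneg _), Real.rpow_one]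
    calc ‖α p j‖ * Real.sqrt (p : ℕ) ≤ 1 * ((p : ℕ) : ℝ) := by
          refine mul_le_mul (h1 p j) ?_ (Real.sqrt_nonneg _) zero_le_one
          rw [Real.sqrt_le_left (by positivity)]
          nlinarith
      _ = _ := one_mul _
  · intro p k
    show (∑ j, (α p j * ((Real.sqrt (p : ℕ) : ℝ) : ℂ)) ^ (k + 1)).im = 0
    rw [h4]
    unfold pw
    split_ifs
    · rw [sub_zero]; exact hcf _
    · rw [Complex.sub_im, hcf, Complex.mul_im, hcf]
      simp
  · intro s hs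
    have hs2 : 2 < s.re := by linarith
    have h5 := h3 (s - 1 / 2) (by simp; linarith)
    rw [sub_add_cancel] at h5
    rw [lfun_eq hΛ hs2, h5]
    refine tprod_congr fun p => Finset.prod_congr rfl fun j _ => ?_
    have hp0 : (0 : ℝ) < ((p : ℕ) : ℝ) := by exact_mod_cast p.2.pos
    have hpc : ((p : ℕ) : ℂ) ≠ 0 := by exact_mod_cast p.2.ne_zero
    have e2 : ((Real.sqrt ((p : ℕ) : ℝ) : ℝ) : ℂ) = ((p : ℕ) : ℂ) ^ (1 / 2 : ℂ) := by
      rw [Real.sqrt_eq_rpow, Complex.ofReal_cpow hp0.le]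
      push_cast
      rfl
    show (1 - α p j * ((p : ℕ) : ℂ) ^ (-(s - 1 / 2)))⁻¹ =
      (1 - α p j * ((Real.sqrt ((p : ℕ) : ℝ) : ℝ) : ℂ) * (((p : ℕ) : ℝ) : ℂ) ^ (-s))⁻¹
    rw [e2, Complex.ofReal_natCast, mul_assoc, ← Complex.cpow_add _ _ hpc]
    congr 4
    ring

/-- the term of the rotated mean at the point `s` -/
noncomputable def nterm (f : CuspForm (Gamma0 N : Subgroup (GL (Fin 2) ℝ)) 2) (γ : ℝ) (s : ℂ)
    (T : ℝ) (x : Nat.Primes × ℕ) : ℂ :=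
  (((pw f x.1 (x.2 + 1)).re / ((x.2 + 1) * (x.1 : ℝ) ^ (s.re * (x.2 + 1))) *
    Real.cos (s.im * ((x.2 + 1) * Real.log x.1)) : ℝ) : ℂ) *
    (Complex.exp ((γ * ((x.2 + 1) * Real.log x.1 / T) : ℝ) * Complex.I) /
      (Real.Gamma (1 + (x.2 + 1) * Real.log x.1 / T) : ℂ))

theorem nf_off [NeZero N] (hf : IsForm N f w) {Λ : ℂ → ℂ} (hΛ : IsCompleted f Λ) {γ : ℝ}
    (hγ : Real.pi / 2 < γ) (s : ℂ) :
    (∀ T : ℝ, 0 < T → Summable fun x => ‖nterm f γ s T x‖) ∧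
    ∃ (n : ℤ) (l : ℂ), meromorphicOrderAt (LfunOf N Λ) s = n ∧
      meromorphicTrailingCoeffAt (LfunOf N Λ) s = l ∧ l ≠ 0 ∧
      (fun T : ℝ => (∑' x, nterm f γ s T x) - (-n * (Real.log T - Lam γ) +
        Real.log ‖l‖ - Real.pi * rayN (LfunOf N Λ) s.re s.im * Complex.I)) =O[atTop]
          (fun T : ℝ => 1 / T) := by
  obtain ⟨a, h1, h2, h3⟩ := nf_eg hf hΛ
  have hm : ∀ z, MeromorphicAt (LfunOf N Λ) z := fun z =>
    ((lfun_diff hΛ.1).analyticAt z).meromorphicAt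
  have h4 : ∀ T x, oterm (fun p : Nat.Primes => ((p : ℕ) : ℝ)) a s.re s.im γ T x =
      nterm f γ s T x := by
    intro T x
    unfold oterm nterm
    rw [h2]
  constructor
  · intro T hT
    exact (h1.oterm_summable s.re s.im γ hT).congr fun x => by rw [h4]
  · obtain ⟨n, l, h5, h6, h7, h8⟩ := h1.off hm h3 s.re s.im hγ
    rw [Complex.re_add_im] at h5 h6
    refine ⟨n, l, h5, h6, h7, ?_⟩
    refine h8.congr_left fun T => ?_
    congr 1
    exact tsum_congr fun x => h4 T x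

theorem nf_ds [NeZero N] (hf : IsForm N f w) {Λ : ℂ → ℂ} (hΛ : IsCompleted f Λ) :
    ∃ (A : ℝ) (lam c : Nat.Primes × ℕ → ℝ), DS A lam c (LfunOf N Λ) := by
  obtain ⟨a, h1, h2, h3⟩ := nf_eg hf hΛ
  have hm : ∀ z, MeromorphicAt (LfunOf N Λ) z := fun z =>
    ((lfun_diff hΛ.1).analyticAt z).meromorphicAt
  exact ⟨_, _, _, h1.ds hm h3⟩

end Pool.Agent.N41.RM
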