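import Pool.Agent.N41.RM.GenS

/-! Zeros on horizontal lines: the rotated law at an arbitrary point of the plane, for Dirichlet
series with real coefficients. -/

set_option autoImplicit false

namespace Pool.Agent.N41.RM

open Filter Topology Set ComplexConjugate
open Pool.Agent.W187.UR (Lam cmean)
open Pool.Agent.W189.ML (ser om)

/-- `F` is meromorphic in the plane and the exponential of a Dirichlet series with real
coefficients for `Re s > A` -/
structure DS {ι : Type} (A : ℝ) (lam c : ι → ℝ) (F : ℂ → ℂ) : Prop where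
  lam_nonneg : ∀ i, 0 ≤ lam i
  sum : ∀ σ : ℝ, A < σ → Summable fun i => |c i| * Real.exp (-(σ * lam i))
  mero : ∀ s, MeromorphicAt F s
  eq : ∀ s : ℂ, A < s.re → F s = Complex.exp (ser lam c s)

variable {ι : Type} {A : ℝ} {lam c : ι → ℝ} {F : ℂ → ℂ}

theorem norm_expo (s : ℂ) (x : ℝ) : ‖Complex.exp (-(s * x))‖ = Real.exp (-(s.re * x)) := by
  rw [Complex.norm_exp, Complex.neg_re, Complex.re_mul_ofReal]

theorem DS.csum (D : DS A lam c F) {s : ℂ} (hs : A < s.re) :
    Summable fun i => (c i : ℂ) * Complex.exp (-(s * lam i)) := by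
  refine Summable.of_norm_bounded (D.sum _ hs) fun i => ?_
  rw [norm_mul, Complex.norm_real, Real.norm_eq_abs, norm_expo]

theorem DS.ser_analytic (D : DS A lam c F) {s : ℂ} (hs : A < s.re) :
    AnalyticAt ℂ (ser lam c) s := by
  set ρ : ℝ := (A + s.re) / 2 with hρ
  have hρ1 : A < ρ := by rw [hρ]; linarith
  have hρσ : ρ < s.re := by rw [hρ]; linarith
  have hopen : IsOpen {z : ℂ | ρ < z.re} := isOpen_lt continuous_const Complex.continuous_re
  have h1 : DifferentiableOn ℂ (ser lam c) {z : ℂ | ρ < z.re} := by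
    unfold ser
    refine Complex.differentiableOn_tsum_of_summable_norm
      (D.sum _ hρ1) (fun i => ?_) hopen (fun i z hz => ?_)
    · exact Differentiable.differentiableOn (by fun_prop)
    · rw [norm_mul, Complex.norm_real, Real.norm_eq_abs, norm_expo]
      refine mul_le_mul_of_nonneg_left ?_ (abs_nonneg _)
      apply Real.exp_le_exp.2
      have hz' : ρ < z.re := hz
      have := D.lam_nonneg i
      nlinarith
  exact h1.analyticAt (hopen.mem_nhds (show ρ < s.re from hρσ))

theorem DS.ev (D : DS A lam c F) {s : ℂ} (hs : A < s.re) :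
    F =ᶠ[𝓝 s] fun z => Complex.exp (ser lam c z) := by
  have ho : IsOpen {z : ℂ | A < z.re} := isOpen_lt continuous_const Complex.continuous_re
  filter_upwards [ho.mem_nhds (show A < s.re from hs)] with z hz
  exact D.eq z hz

theorem DS.order_right (D : DS A lam c F) {s : ℂ} (hs : A < s.re) :
    meromorphicOrderAt F s = 0 := by
  have h1 : AnalyticAt ℂ F s := (D.ser_analytic hs).cexp.congr (D.ev hs).symm
  refine Pool.Agent.R409.RA.order_of_ne h1 ?_
  rw [D.eq s hs]
  exact Complex.exp_ne_zero _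

theorem ser_conj (lam c : ι → ℝ) (s : ℂ) : ser lam c (conj s) = conj (ser lam c s) := by
  unfold ser
  rw [Complex.conj_tsum]
  refine tsum_congr fun i => ?_
  rw [map_mul, Complex.conj_ofReal, ← Complex.exp_conj, map_neg, map_mul, Complex.conj_ofReal]

theorem analytic_conj {g : ℂ → ℂ} {z : ℂ} (h : AnalyticAt ℂ g (conj z)) :
    AnalyticAt ℂ (fun s => conj (g (conj s))) z := by
  rw [Complex.analyticAt_iff_eventually_differentiableAt] at h ⊢
  have h1 : Tendsto (fun s : ℂ => conj s) (𝓝 z) (𝓝 (conj z)) :=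
    (Complex.continuous_conj.tendsto z)
  filter_upwards [h1.eventually h] with s hs
  have h2 := hs.conj_conj
  rw [Complex.conj_conj] at h2
  exact h2

theorem mero_conj {g : ℂ → ℂ} {z : ℂ} (h : MeromorphicAt g (conj z)) :
    MeromorphicAt (fun s => conj (g (conj s))) z := by
  obtain ⟨n, hn⟩ := h
  refine ⟨n, (analytic_conj hn).congr ?_⟩
  refine Filter.Eventually.of_forall fun s => ?_
  simp only [smul_eq_mul, map_mul, map_pow, map_sub, Complex.conj_conj]

/-- the symmetry `F(conj s) = conj F(s)` -/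
theorem DS.symm (D : DS A lam c F) (z : ℂ) :
    ∀ᶠ s in 𝓝[≠] z, F s = conj (F (conj s)) := by
  set G : ℂ → ℂ := fun s => conj (F (conj s)) with hG
  have hGm : ∀ s, MeromorphicAt G s := fun s => mero_conj (D.mero _)
  have hm : MeromorphicOn (fun s => F s - G s) univ := fun s _ => (D.mero s).sub (hGm s)
  have htop : meromorphicOrderAt (fun s => F s - G s) z = ⊤ := by
    by_contra hne
    have h1 := hm.meromorphicOrderAt_ne_top_of_isPreconnected isPreconnected_univ
      (mem_univ z) (mem_univ ((A + 1 : ℝ) : ℂ)) hne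
    apply h1
    rw [meromorphicOrderAt_eq_top_iff]
    have hs : A < (((A + 1 : ℝ) : ℂ)).re := by rw [Complex.ofReal_re]; linarith
    have ho : IsOpen {z : ℂ | A < z.re} := isOpen_lt continuous_const Complex.continuous_re
    refine Filter.Eventually.filter_mono nhdsWithin_le_nhds ?_
    filter_upwards [ho.mem_nhds (show A < (((A + 1 : ℝ) : ℂ)).re from hs)] with w hw
    have hw1 : A < w.re := hw
    rw [hG, D.eq w hw1]
    simp only
    rw [D.eq (conj w) (by rwa [Complex.conj_re]), ser_conj, ← Complex.exp_conj, Complex.conj_conj,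
      sub_self]
  rw [meromorphicOrderAt_eq_top_iff] at htop
  filter_upwards [htop] with s hs
  exact sub_eq_zero.1 hs

theorem DS.ne_top (D : DS A lam c F) (z : ℂ) : meromorphicOrderAt F z ≠ ⊤ := by
  have hs : A < (((A + 1 : ℝ) : ℂ)).re := by rw [Complex.ofReal_re]; linarith
  have hm : MeromorphicOn F univ := fun s _ => D.mero s
  refine hm.meromorphicOrderAt_ne_top_of_isPreconnected isPreconnected_univ
      (mem_univ ((A + 1 : ℝ) : ℂ)) (mem_univ z) ?_
  rw [D.order_right hs]
  exact WithTop.zero_ne_top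

/-- order and leading coefficient at the conjugate point -/
theorem DS.conj_order (D : DS A lam c F) {z : ℂ} {n : ℤ} (hn : meromorphicOrderAt F z = n) :
    meromorphicOrderAt F (conj z) = n ∧
      meromorphicTrailingCoeffAt F (conj z) = conj (meromorphicTrailingCoeffAt F z) := by
  have hl0 : meromorphicTrailingCoeffAt F z ≠ 0 :=
    (D.mero z).meromorphicTrailingCoeffAt_ne_zero (D.ne_top z)
  refine order_of_lim (D.mero _) (by simpa using hl0) ?_
  have h1 := lim_of_order (D.mero z) hn rfl
  have h2 : Tendsto (fun s : ℂ => conj s) (𝓝[≠] (conj z)) (𝓝[≠] z) := by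
    rw [tendsto_nhdsWithin_iff]
    constructor
    · have := (Complex.continuous_conj.tendsto (conj z))
      rw [Complex.conj_conj] at this
      exact this.mono_left nhdsWithin_le_nhds
    · filter_upwards [self_mem_nhdsWithin] with w hw
      intro h3
      apply hw
      rw [mem_singleton_iff] at h3 ⊢
      rw [← h3, Complex.conj_conj]
  have h3 := (Complex.continuous_conj.tendsto _).comp (h1.comp h2)
  refine h3.congr' ?_
  filter_upwards [D.symm (conj z)] with s hs
  simp only [Function.comp_apply, map_mul, map_zpow₀, map_sub, Complex.conj_conj]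
  rw [← hs]

/-- the coefficients at the point `σ₀ + i t` -/
noncomputable def offc (lam c : ι → ℝ) (σ₀ t : ℝ) (i : ι) : ℝ :=
  c i * Real.exp (-(σ₀ * lam i)) * Real.cos (t * lam i)

/-- the number of the zeros minus the number of the poles on the open half line
`{σ + i t : σ > σ₀}` -/
noncomputable def rayN (F : ℂ → ℂ) (σ₀ t : ℝ) : ℤ :=
  ∑ᶠ σ ∈ Ioi σ₀, (meromorphicOrderAt F (σ + t * Complex.I)).untop₀

/-- **The rotated law at an arbitrary point of the plane.** -/
theorem DS.off [Countable ι] (D : DS A lam c F) (σ₀ t : ℝ) {γ : ℝ} (hγ : Real.pi / 2 < γ) :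
    ∃ (n : ℤ) (l : ℂ), meromorphicOrderAt F (σ₀ + t * Complex.I) = n ∧
      meromorphicTrailingCoeffAt F (σ₀ + t * Complex.I) = l ∧ l ≠ 0 ∧
      (fun T : ℝ => cmean lam (offc lam c σ₀ t) γ T - (-n * (Real.log T - Lam γ) +
        Real.log ‖l‖ - Real.pi * rayN F σ₀ t * Complex.I)) =O[atTop] (fun T : ℝ => 1 / T) := by
  set z : ℂ := σ₀ + t * Complex.I with hz
  have hzc : conj z = σ₀ - t * Complex.I := by
    rw [hz, map_add, map_mul, Complex.conj_ofReal, Complex.conj_ofReal, Complex.conj_I]
    ring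
  obtain ⟨n, hn⟩ := WithTop.ne_top_iff_exists.1 (D.ne_top z)
  have hn := hn.symm
  set l := meromorphicTrailingCoeffAt F z with hl
  have hl0 : l ≠ 0 := (D.mero z).meromorphicTrailingCoeffAt_ne_zero (D.ne_top z)
  have hlin : ∀ w : ℂ, AnalyticAt ℂ (fun s => z + s) w := fun w => by fun_prop
  have hlin' : ∀ w : ℂ, AnalyticAt ℂ (fun s => conj z + s) w := fun w => by fun_prop
  have hm1 : ∀ w : ℂ, MeromorphicAt (fun s => F (z + s)) w := fun w =>
    MeromorphicAt.comp_analyticAt (f := F) (g := fun s => z + s) (D.mero _) (hlin w)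
  have hm2 : ∀ w : ℂ, MeromorphicAt (fun s => F (conj z + s)) w := fun w =>
    MeromorphicAt.comp_analyticAt (f := F) (g := fun s => conj z + s) (D.mero _) (hlin' w)
  set Φ : ℂ → ℂ := fun w => F (z + w) * F (conj z + w) with hΦ
  have hordx : ∀ x : ℝ, meromorphicOrderAt Φ (x : ℂ) =
      meromorphicOrderAt F (z + x) + meromorphicOrderAt F (z + x) := by
    intro x
    rw [hΦ]
    have h1 := fun_meromorphicOrderAt_mul (hm1 (x : ℂ)) (hm2 (x : ℂ))
    rw [h1, order_sh, order_sh]
    obtain ⟨k, hk⟩ := WithTop.ne_top_iff_exists.1 (D.ne_top (z + x))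
    have h2 := (D.conj_order hk.symm).1
    rw [map_add, Complex.conj_ofReal] at h2
    rw [h2, ← hk]
  set B : ℝ := max (A - σ₀) 1 with hB
  have hB0 : 0 < B := lt_of_lt_of_le one_pos (le_max_right _ _)
  have hBA : A - σ₀ ≤ B := le_max_left _ _
  have hre1 : z.re = σ₀ := by simp [hz]
  have hre2 : (conj z).re = σ₀ := by rw [Complex.conj_re, hre1]
  obtain ⟨m, r₀, C, T₀, h1, h2, h3, h4⟩ := rot_scale (lam := lam)
    (c := fun i => 2 * offc lam c σ₀ t i) (Φ := Φ) hB0 D.lam_nonneg
    (fun σ hσ => by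
      refine Summable.of_nonneg_of_le (fun i => by positivity) (fun i => ?_)
        ((D.sum (σ₀ + σ) (by linarith)).mul_left 2)
      unfold offc
      rw [abs_mul, abs_mul, abs_mul, abs_two, abs_of_pos (Real.exp_pos _)]
      have h5 : |Real.cos (t * lam i)| ≤ 1 := Real.abs_cos_le_one _
      have h6 : Real.exp (-((σ₀ + σ) * lam i)) =
          Real.exp (-(σ₀ * lam i)) * Real.exp (-(σ * lam i)) := by
        rw [← Real.exp_add]; congr 1; ring
      rw [h6]
      have h7 : 2 * (|c i| * Real.exp (-(σ₀ * lam i)) * |Real.cos (t * lam i)|) *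
          Real.exp (-(σ * lam i)) = (2 * (|c i| * (Real.exp (-(σ₀ * lam i)) *
          Real.exp (-(σ * lam i))))) * |Real.cos (t * lam i)| := by ring
      rw [h7]
      exact mul_le_of_le_one_right (by positivity) h5)
    (fun x _ => (hm1 x).mul (hm2 x))
    (fun w hw => by
      have hA1 : A < (z + w).re := by rw [Complex.add_re, hre1]; linarith
      have hA2 : A < (conj z + w).re := by rw [Complex.add_re, hre2]; linarith
      show F (z + w) * F (conj z + w) = _
      rw [D.eq _ hA1, D.eq _ hA2, ← Complex.exp_add]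
      congr 1
      unfold ser
      rw [← (D.csum hA1).tsum_add (D.csum hA2)]
      refine tsum_congr fun i => ?_
      unfold offc
      push_cast
      rw [hzc, hz, Complex.cos]
      have e1 : Complex.exp (-((↑σ₀ + ↑t * Complex.I + w) * ↑(lam i))) =
          Complex.exp (-(↑σ₀ * ↑(lam i))) * Complex.exp (-(w * ↑(lam i))) *
            Complex.exp (-(↑t * ↑(lam i)) * Complex.I) := by
        rw [← Complex.exp_add, ← Complex.exp_add]; congr 1; ring
      have e2 : Complex.exp (-((↑σ₀ - ↑t * Complex.I + w) * ↑(lam i))) =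
          Complex.exp (-(↑σ₀ * ↑(lam i))) * Complex.exp (-(w * ↑(lam i))) *
            Complex.exp ((↑t * ↑(lam i)) * Complex.I) := by
        rw [← Complex.exp_add, ← Complex.exp_add]; congr 1; ring
      rw [e1, e2]
      ring) hγ
  -- the order
  have hord0 : meromorphicOrderAt Φ 0 = ((2 * n : ℤ) : WithTop ℤ) := by
    have h5 := hordx 0
    rw [Complex.ofReal_zero, add_zero, hn] at h5
    rw [h5, ← WithTop.coe_add, two_mul]
  rw [hord0] at h1
  have hmn : 2 * n = m := by exact_mod_cast h1
  -- the leading coefficient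
  have hcoef : meromorphicTrailingCoeffAt Φ 0 = ((‖l‖ ^ 2 : ℝ) : ℂ) := by
    have h5 : Φ = (fun s => F (z + s)) * (fun s => F (conj z + s)) := rfl
    rw [h5, MeromorphicAt.meromorphicTrailingCoeffAt_mul (hm1 0) (hm2 0), coeff_sh, coeff_sh,
      (D.conj_order hn).2, ← hl, Complex.mul_conj, Complex.normSq_eq_norm_sq]
  rw [hcoef] at h2
  have hlpos : 0 < ‖l‖ := norm_pos_iff.2 hl0
  have hre : r₀.re = 2 * Real.log ‖l‖ := by
    have h5 := congrArg norm h2
    rw [Complex.norm_exp, Complex.norm_real, Real.norm_of_nonneg (by positivity)] at h5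
    have h6 := congrArg Real.log h5
    rw [Real.log_exp, Real.log_pow] at h6
    rw [h6]
    norm_num
  -- the number of zeros
  have hN : (∑ᶠ x ∈ Ioc (0 : ℝ) B, (meromorphicOrderAt Φ (x : ℂ)).untop₀ : ℤ) =
      2 * rayN F σ₀ t := by
    have h5 : ∀ x : ℝ, (meromorphicOrderAt Φ (x : ℂ)).untop₀ =
        2 * (meromorphicOrderAt F (z + x)).untop₀ := by
      intro x
      obtain ⟨k, hk⟩ := WithTop.ne_top_iff_exists.1 (D.ne_top (z + x))
      rw [hordx, ← hk, ← WithTop.coe_add]
      simp only [WithTop.untop₀_coe]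
      ring
    have h6 : (∑ᶠ x ∈ Ioc (0 : ℝ) B, (meromorphicOrderAt Φ (x : ℂ)).untop₀) =
        ∑ᶠ x ∈ Ioi (0 : ℝ), (meromorphicOrderAt Φ (x : ℂ)).untop₀ := by
      refine (finsum_mem_inter_support_eq' _ _ _ fun σ hσ => ?_).symm
      rw [Function.mem_support] at hσ
      constructor
      · intro h
        refine ⟨h, ?_⟩
        by_contra h7
        push Not at h7
        apply hσ
        rw [h5, D.order_right (s := z + σ) (by
          rw [Complex.add_re, hre1, Complex.ofReal_re]; linarith)]
        rfl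
      · exact fun h => h.1
    rw [h6]
    unfold rayN
    have h8 : Ioi σ₀ = (fun x : ℝ => σ₀ + x) '' Ioi (0 : ℝ) := by
      rw [Set.image_const_add_Ioi, add_zero]
    rw [h8, finsum_mem_image ((add_right_injective σ₀).injOn)]
    rw [← smul_eq_mul, smul_finsum]
    refine finsum_congr fun x => ?_
    rw [smul_finsum]
    refine finsum_congr fun _ => ?_
    have h9 : z + (x : ℂ) = ((σ₀ + x : ℝ) : ℂ) + t * Complex.I := by
      rw [hz]
      push_cast
      ring
    rw [h5, smul_eq_mul, h9]
  rw [hN] at h3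
  have hr0 : r₀ = 2 * (Real.log ‖l‖ - Real.pi * rayN F σ₀ t * Complex.I) := by
    apply Complex.ext
    · rw [hre]
      simp
    · rw [h3]
      simp
      ring
  refine ⟨n, l, hn, rfl, hl0, ?_⟩
  refine Asymptotics.IsBigO.of_bound (C / 2) ?_
  filter_upwards [eventually_ge_atTop T₀, eventually_gt_atTop 0] with T hT hT1
  have h5 := h4 T hT
  rw [Real.norm_eq_abs, abs_of_pos (by positivity : 0 < 1 / T), mul_one_div]
  have h6 : cmean lam (fun i => 2 * offc lam c σ₀ t i) γ T =
      2 * cmean lam (offc lam c σ₀ t) γ T := by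
    unfold cmean
    rw [← tsum_mul_left]
    refine tsum_congr fun i => ?_
    push_cast
    ring
  rw [h6, hr0, ← hmn] at h5
  have h7 : -(2 * cmean lam (offc lam c σ₀ t) γ T) - (((2 * n : ℤ) : ℂ) * (↑(Real.log T) - Lam γ) -
      2 * (↑(Real.log ‖l‖) - ↑Real.pi * ↑(rayN F σ₀ t) * Complex.I)) =
      (-2 : ℂ) * (cmean lam (offc lam c σ₀ t) γ T - (-↑n * (↑(Real.log T) - Lam γ) +
        ↑(Real.log ‖l‖) - ↑Real.pi * ↑(rayN F σ₀ t) * Complex.I)) := by
    push_cast
    ring
  rw [h7, norm_mul] at h5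
  have h8 : ‖(-2 : ℂ)‖ = 2 := by rw [norm_neg]; norm_num
  rw [h8] at h5
  rw [div_div, mul_comm 2 T, ← div_div]
  linarith

end Pool.Agent.N41.RM
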