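import Pool.Agent.N41.RM.Moebius

/-! Numbers of points over the extensions of the residue fields; the leading coefficient as a
limit. -/

set_option autoImplicit false

namespace Pool.Agent.N41.RM

open Filter Topology Set NumberField IsDedekindDomain Polynomial
open Pool.Agent.TH958.BV (cone)

/-! ### The leading coefficient as a limit -/

theorem lim_of_order {F : ℂ → ℂ} {x : ℂ} (h : MeromorphicAt F x) {r : ℤ} {B : ℂ}
    (h1 : meromorphicOrderAt F x = r) (h2 : meromorphicTrailingCoeffAt F x = B) :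
    Tendsto (fun s => (s - x) ^ (-r) * F s) (𝓝[≠] x) (𝓝 B) := by
  have h3 := h.tendsto_nhds_meromorphicTrailingCoeffAt
  rw [h1, h2] at h3
  exact h3

theorem order_of_lim {F : ℂ → ℂ} {x : ℂ} (h : MeromorphicAt F x) {r : ℤ} {B : ℂ} (hB : B ≠ 0)
    (h1 : Tendsto (fun s => (s - x) ^ (-r) * F s) (𝓝[≠] x) (𝓝 B)) :
    meromorphicOrderAt F x = r ∧ meromorphicTrailingCoeffAt F x = B := by
  have hp : MeromorphicAt (fun s : ℂ => (s - x) ^ (-r)) x := by fun_prop
  have hG : MeromorphicAt (fun s : ℂ => (s - x) ^ (-r) * F s) x := hp.mul h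
  have h2 := (tendsto_ne_zero_iff_meromorphicOrderAt_eq_zero hG).1 ⟨B, hB, h1⟩
  have h3 : meromorphicOrderAt (fun s : ℂ => (s - x) ^ (-r)) x = ((-r : ℤ) : WithTop ℤ) :=
    fun_meromorphicOrderAt_zpow_id_sub_const
  have h4 := fun_meromorphicOrderAt_mul hp h
  rw [h2, h3] at h4
  have h5 : meromorphicOrderAt F x = r := by
    cases hF : meromorphicOrderAt F x with
    | top => rw [hF] at h4; simp at h4
    | coe n =>
      rw [hF] at h4
      have h6 : (0 : ℤ) = -r + n := by exact_mod_cast h4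
      have h7 : n = r := by omega
      rw [h7]
  exact ⟨h5, tendsto_nhds_unique (lim_of_order h h5 rfl) h1⟩

/-! ### The local factor of an abelian variety over the extensions of the residue field -/

/-- the sum of the logarithms is real -/
lemma sum_log_real {M : ℕ} {α : Fin M → ℂ} {q : ℝ} (hq : 1 < q) (hα : ∀ j, ‖α j‖ ≤ √q)
    (hst : Finset.univ.val.map (fun j => (starRingEnd ℂ) (α j)) = Finset.univ.val.map α) :
    (starRingEnd ℂ) (∑ j, Complex.log (1 - α j / q)) = ∑ j, Complex.log (1 - α j / q) := by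
  have hsq : √q < q := by
    rw [Real.sqrt_lt' (by linarith)]
    nlinarith
  have h1 : ∀ j, (starRingEnd ℂ) (Complex.log (1 - α j / q)) =
      Complex.log (1 - (starRingEnd ℂ) (α j) / q) := by
    intro j
    rw [← Complex.log_conj]
    · congr 1
      rw [map_sub, map_one, map_div₀, Complex.conj_ofReal]
    · intro harg
      have h2 : ‖-(α j / q)‖ < 1 := by
        rw [norm_neg, norm_div, Complex.norm_real, Real.norm_of_nonneg (by linarith),
          div_lt_one (by linarith)]
        exact (hα j).trans_lt hsq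
      have h3 := Complex.mem_slitPlane_of_norm_lt_one h2
      rw [← sub_eq_add_neg] at h3
      exact (Complex.mem_slitPlane_iff_arg.1 h3).1 harg
  rw [map_sum]
  simp_rw [h1]
  have h4 : ∀ β : Fin M → ℂ, ∑ j, Complex.log (1 - β j / q) =
      ((Finset.univ.val.map β).map fun z => Complex.log (1 - z / q)).sum := by
    intro β
    rw [Multiset.map_map]
    rfl
  rw [h4 α, h4 fun j => (starRingEnd ℂ) (α j), hst]

/-- the local identity at the central point -/
theorem log_points {M : ℕ} {α : Fin M → ℂ} {q : ℝ} (hq : 1 < q) (hα : ∀ j, ‖α j‖ = √q)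
    (hst : Finset.univ.val.map (fun j => (starRingEnd ℂ) (α j)) = Finset.univ.val.map α)
    {A : ℝ} (hA : 0 ≤ A) (hN : (A : ℂ) = ∏ j, (1 - α j)) :
    ((Real.log (A / √q ^ M) : ℝ) : ℂ) = ∑ j, Complex.log (1 - α j / q) := by
  have hq0 : (0 : ℝ) < q := by linarith
  have hsq0 : 0 < √q := Real.sqrt_pos.2 hq0
  have hsq : √q < q := by
    rw [Real.sqrt_lt' (by linarith)]
    nlinarith
  set Lg := ∑ j, Complex.log (1 - α j / q) with hLg
  have hreal : (Lg.re : ℂ) = Lg :=
    Complex.conj_eq_iff_re.1 (sum_log_real hq (fun j => (hα j).le) hst)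
  have hne : ∀ j, 1 - α j / q ≠ 0 := by
    intro j h0
    have h1 : α j / q = 1 := (sub_eq_zero.1 h0).symm
    have h2 : ‖α j / q‖ = 1 := by rw [h1, norm_one]
    rw [norm_div, Complex.norm_real, Real.norm_of_nonneg hq0.le, hα j, div_eq_one_iff_eq hq0.ne'] at h2
    linarith
  have hexp : Complex.exp Lg = ∏ j, (1 - α j / q) := by
    rw [hLg, Complex.exp_sum]
    exact Finset.prod_congr rfl fun j _ => Complex.exp_log (hne j)
  have hterm : ∀ j, ‖1 - α j / q‖ = ‖1 - α j‖ / √q := by
    intro j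
    have h1 : α j * (starRingEnd ℂ) (α j) = q := by
      rw [Complex.mul_conj, Complex.normSq_eq_norm_sq, hα j, Real.sq_sqrt hq0.le]
    have h2 : ‖(starRingEnd ℂ) (α j)‖ = √q := by rw [RCLike.norm_conj, hα j]
    have h3 : (1 - α j / q) * (starRingEnd ℂ) (α j) = -(starRingEnd ℂ) (1 - α j) := by
      have hqc : (q : ℂ) ≠ 0 := by exact_mod_cast hq0.ne'
      rw [map_sub, map_one, sub_mul, one_mul, div_mul_eq_mul_div, h1, div_self hqc]
      ring
    have h4 := congrArg norm h3
    rw [norm_mul, h2, norm_neg, RCLike.norm_conj] at h4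
    rw [← h4]
    field_simp
  have hnorm : ‖Complex.exp Lg‖ = A / √q ^ M := by
    rw [hexp, norm_prod]
    simp_rw [hterm]
    rw [Finset.prod_div_distrib, ← norm_prod, ← hN, Complex.norm_real, Real.norm_of_nonneg hA,
      Finset.prod_const, Finset.card_univ, Fintype.card_fin]
  rw [← hnorm, Complex.norm_exp, Real.log_exp, hreal]

/-- the local identity over the extension of degree `e` -/
theorem log_points_pow {g : ℕ} {α : Fin (2 * g) → ℂ} {q : ℝ} (hq : 1 < q) (hα : ∀ j, ‖α j‖ = √q)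
    (hst : Finset.univ.val.map (fun j => (starRingEnd ℂ) (α j)) = Finset.univ.val.map α)
    {e : ℕ} (he : 1 ≤ e) {A : ℝ} (hA : 0 ≤ A) (hN : (A : ℂ) = ∏ j, (1 - α j ^ e)) :
    ((Real.log (A / q ^ (g * e)) : ℝ) : ℂ) = ∑ j, Complex.log (1 - (α j / q) ^ e) := by
  have hq0 : (0 : ℝ) < q := by linarith
  have h1 := log_points (q := q ^ e) (α := fun j => α j ^ e) (one_lt_pow₀ hq (by omega))
    (fun j => by
      rw [norm_pow, hα j, Real.sqrt_eq_rpow, Real.sqrt_eq_rpow, ← Real.rpow_natCast,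
        ← Real.rpow_natCast, ← Real.rpow_mul hq0.le, ← Real.rpow_mul hq0.le, mul_comm])
    (by
      have h2 := congrArg (Multiset.map fun z : ℂ => z ^ e) hst
      rw [Multiset.map_map, Multiset.map_map] at h2
      simpa [Function.comp_def, map_pow] using h2) hA hN
  have h2 : √(q ^ e) ^ (2 * g) = q ^ (g * e) := by
    rw [pow_mul, Real.sq_sqrt (by positivity), ← pow_mul, mul_comm]
  rw [h2] at h1
  rw [h1]
  refine Finset.sum_congr rfl fun j _ => ?_
  rw [div_pow]
  push_cast
  rfl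

/-! ### Points with coordinates in the field with `q^e` elements -/

variable {K : Type} [Field K] [NumberField K] {n : ℕ}

/-- the nonzero solutions with coordinates in the algebraic closure of the residue field fixed by the
power map `x ↦ x^(q^e)` -/
noncomputable def fcone (X : Set (MvPolynomial (Fin n) (𝓞 K))) (v : HeightOneSpectrum (𝓞 K))
    (e : ℕ) : ℕ :=
  letI : Field (𝓞 K ⧸ v.asIdeal) := Pool.Agent.R409.RA.fieldQuot v
  Nat.card {u : Fin n → AlgebraicClosure (𝓞 K ⧸ v.asIdeal) // u ≠ 0 ∧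
    (∀ j, u j ^ (Ideal.absNorm v.asIdeal ^ e) = u j) ∧
    ∀ f ∈ X, MvPolynomial.eval₂ ((algebraMap (𝓞 K ⧸ v.asIdeal)
      (AlgebraicClosure (𝓞 K ⧸ v.asIdeal))).comp (Ideal.Quotient.mk v.asIdeal)) u f = 0}

theorem fcone_eq (X : Set (MvPolynomial (Fin n) (𝓞 K))) (v : HeightOneSpectrum (𝓞 K))
    {e : ℕ} (he : 1 ≤ e) : ∃ (κ : Type) (_ : Field κ) (_ : Finite κ) (φ : 𝓞 K →+* κ),
      RingHom.ker φ = v.asIdeal ∧ Nat.card κ = Ideal.absNorm v.asIdeal ^ e ∧
      fcone X v e = cone X φ := by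
  classical
  have hfin : Finite (𝓞 K ⧸ v.asIdeal) := Pool.Agent.R409.RA.finiteQuot v
  obtain ⟨p, hc⟩ := CharP.exists (𝓞 K ⧸ v.asIdeal)
  have hp : Fact p.Prime := ⟨CharP.char_is_prime (𝓞 K ⧸ v.asIdeal) p⟩
  have he' : NeZero e := ⟨by omega⟩
  letI : Algebra (ZMod p) (𝓞 K ⧸ v.asIdeal) := ZMod.algebra _ p
  set κ := FiniteField.Extension (𝓞 K ⧸ v.asIdeal) p e with hκ
  set ι : κ →ₐ[𝓞 K ⧸ v.asIdeal] AlgebraicClosure (𝓞 K ⧸ v.asIdeal) := IsAlgClosed.lift with hι
  have hcard : Nat.card κ = Ideal.absNorm v.asIdeal ^ e := by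
    rw [hκ, FiniteField.natCard_extension]
    rfl
  refine ⟨κ, inferInstance, inferInstance,
    (algebraMap (𝓞 K ⧸ v.asIdeal) κ).comp (Ideal.Quotient.mk v.asIdeal), ?_, hcard, ?_⟩
  · rw [RingHom.ker_comp_of_injective]
    · exact Ideal.mk_ker
    · exact RingHom.injective _
  -- the image of `ι`
  have hq2 : 2 ≤ Ideal.absNorm v.asIdeal := Pool.Agent.TH339.MP.two_le_nm v
  have hQ : 1 < Ideal.absNorm v.asIdeal ^ e := Nat.one_lt_pow (by omega) (by omega)
  have hιinj : Function.Injective ι := ι.toRingHom.injective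
  have hrange : ∀ w : AlgebraicClosure (𝓞 K ⧸ v.asIdeal),
      w ^ (Ideal.absNorm v.asIdeal ^ e) = w ↔ ∃ y : κ, ι y = w := by
    have : Fintype κ := Fintype.ofFinite κ
    have hpow : ∀ y : κ, y ^ (Ideal.absNorm v.asIdeal ^ e) = y := by
      intro y
      rw [← hcard, Nat.card_eq_fintype_card]
      exact FiniteField.pow_card y
    set Pl : (AlgebraicClosure (𝓞 K ⧸ v.asIdeal))[X] :=
      Polynomial.X ^ (Ideal.absNorm v.asIdeal ^ e) - Polynomial.X with hPl
    have hPl0 : Pl ≠ 0 := FiniteField.X_pow_card_sub_X_ne_zero _ hQ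
    have hdeg : Pl.natDegree = Ideal.absNorm v.asIdeal ^ e :=
      FiniteField.X_pow_card_sub_X_natDegree_eq _ hQ
    have h1 : Finset.univ.image (fun y : κ => ι y) = Pl.roots.toFinset := by
      refine Finset.eq_of_subset_of_card_le (fun w hw => ?_) ?_
      · obtain ⟨y, -, rfl⟩ := Finset.mem_image.1 hw
        rw [Multiset.mem_toFinset, Polynomial.mem_roots hPl0, Polynomial.IsRoot.def, hPl]
        rw [Polynomial.eval_sub, Polynomial.eval_pow, Polynomial.eval_X, ← map_pow, hpow, sub_self]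
      · rw [Finset.card_image_of_injective _ hιinj, Finset.card_univ,
          ← Nat.card_eq_fintype_card, hcard]
        exact (Multiset.toFinset_card_le _).trans ((Polynomial.card_roots' _).trans hdeg.le)
    intro w
    constructor
    · intro hw
      have h2 : w ∈ Pl.roots.toFinset := by
        rw [Multiset.mem_toFinset, Polynomial.mem_roots hPl0, Polynomial.IsRoot.def, hPl]
        rw [Polynomial.eval_sub, Polynomial.eval_pow, Polynomial.eval_X, hw, sub_self]
      rw [← h1, Finset.mem_image] at h2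
      obtain ⟨y, -, hy⟩ := h2
      exact ⟨y, hy⟩
    · rintro ⟨y, rfl⟩
      rw [← map_pow, hpow]
  have heval : ∀ (u : Fin n → κ) (f : MvPolynomial (Fin n) (𝓞 K)),
      MvPolynomial.eval₂ ((algebraMap (𝓞 K ⧸ v.asIdeal)
        (AlgebraicClosure (𝓞 K ⧸ v.asIdeal))).comp (Ideal.Quotient.mk v.asIdeal))
        (fun j => ι (u j)) f = ι (MvPolynomial.eval₂ ((algebraMap (𝓞 K ⧸ v.asIdeal) κ).comp
          (Ideal.Quotient.mk v.asIdeal)) u f) := by
    intro u f
    have h1 := MvPolynomial.eval₂_comp_left (ι : κ →+* AlgebraicClosure (𝓞 K ⧸ v.asIdeal))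
      ((algebraMap (𝓞 K ⧸ v.asIdeal) κ).comp (Ideal.Quotient.mk v.asIdeal)) u f
    have h2 : (ι : κ →+* AlgebraicClosure (𝓞 K ⧸ v.asIdeal)).comp
        ((algebraMap (𝓞 K ⧸ v.asIdeal) κ).comp (Ideal.Quotient.mk v.asIdeal)) =
        (algebraMap (𝓞 K ⧸ v.asIdeal)
          (AlgebraicClosure (𝓞 K ⧸ v.asIdeal))).comp (Ideal.Quotient.mk v.asIdeal) := by
      rw [← RingHom.comp_assoc, AlgHom.comp_algebraMap]
    rw [h2] at h1
    exact h1.symm
  unfold fcone cone
  refine (Nat.card_congr (Equiv.ofBijective (fun u : {u : Fin n → κ // u ≠ 0 ∧ ∀ f ∈ X,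
    MvPolynomial.eval₂ ((algebraMap (𝓞 K ⧸ v.asIdeal) κ).comp (Ideal.Quotient.mk v.asIdeal)) u f =
      0} => ⟨fun j => ι (u.1 j), by
        intro h0
        apply u.2.1
        funext j
        have h1 := congrFun h0 j
        apply hιinj
        rw [Pi.zero_apply, map_zero]
        exact h1, fun j => (hrange _).2 ⟨u.1 j, rfl⟩, by
        intro f hf
        rw [heval, u.2.2 f hf, map_zero]⟩) ⟨?_, ?_⟩)).symm
  · intro u u' h
    apply Subtype.ext
    funext j
    have h1 := congrFun (congrArg Subtype.val h) j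
    exact hιinj h1
  · rintro ⟨w, h0, h1, h2⟩
    choose y hy using fun j => (hrange (w j)).1 (h1 j)
    refine ⟨⟨y, ?_, ?_⟩, ?_⟩
    · rintro rfl
      apply h0
      funext j
      rw [← hy j, Pi.zero_apply, map_zero, Pi.zero_apply]
    · intro f hf
      apply hιinj
      rw [← heval, map_zero]
      have h3 : (fun j => ι (y j)) = w := funext hy
      rw [h3]
      exact h2 f hf
    · apply Subtype.ext
      funext j
      exact hy j

end Pool.Agent.N41.RM
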