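import Pool.Agent.N41.RM.GenS
import Pool.Agent.TH958.An.Arith
import Pool.Agent.TH958.An.Core

/-! Closed points of schemes of finite type over the integers and points over finite fields. -/

set_option autoImplicit false

namespace Pool.Agent.N41.RM

open Filter Topology Set
open Pool.Agent.H126R3 (exists_F Qc)
open Pool.Agent.TH958.An (Pt Res qy ptOf pk qy_eq ringChar_eq mem_ptOf fiberEquiv pk_ptOf)
open Pool.Agent.TH958.BV (cone)

section
variable {R : Type} [CommRing R] [hR : Algebra.FiniteType ℤ R]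

/-- the number of points with values in `F` above a closed point -/
theorem card_fib (y : Pt R) (F : Type) [Field F] [Fintype F] (p : Nat.Primes) (m : ℕ)
    (h : Fintype.card F = (p : ℕ) ^ m) (hp : (pk y).1 = p) (hd : (pk y).2 + 1 ∣ m) :
    Nat.card {φ : R →+* F // ptOf φ = y} = (pk y).2 + 1 := by
  have hpf : Fact (p : ℕ).Prime := ⟨p.2⟩
  have := Fintype.ofFinite (Res y)
  rw [Nat.card_congr (fiberEquiv (F := F) y)]
  have hc : CharP F p := charP_of_card_eq_prime_pow h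
  have hc2 : CharP (Res y) p := by
    have h1 := ringChar_eq y
    rw [hp] at h1
    exact ringChar.of_eq h1
  letI := ZMod.algebra F p
  letI := ZMod.algebra (Res y) p
  have h1 : Module.finrank (ZMod p) (Res y) = (pk y).2 + 1 := by
    have h2 := Module.card_eq_pow_finrank (K := ZMod p) (V := Res y)
    have h3 := qy_eq y
    rw [qy, Nat.card_eq_fintype_card, hp] at h3
    rw [h3, ZMod.card] at h2
    exact (Nat.pow_right_injective hpf.out.two_le h2).symm
  have h2 : Module.finrank (ZMod p) F = m := by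
    have h2 := Module.card_eq_pow_finrank (K := ZMod p) (V := F)
    rw [h, ZMod.card] at h2
    exact (Nat.pow_right_injective hpf.out.two_le h2).symm
  have e : (Res y →+* F) ≃ (Res y →ₐ[ZMod p] F) :=
    { toFun := fun φ => (AlgHom.mk φ (fun r =>
        congrArg (fun g : ZMod p →+* F => g r)
          (Subsingleton.elim (φ.comp (algebraMap (ZMod p) (Res y))) (algebraMap (ZMod p) F))) :
            Res y →ₐ[ZMod p] F)
      invFun := fun φ => (φ : Res y →+* F)
      left_inv := fun φ => by ext x; rfl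
      right_inv := fun φ => by ext x; rfl }
  rw [Nat.card_congr e, FiniteField.natCard_algHom_of_finrank_dvd, h1]
  rw [h1, h2]
  exact hd

variable (R) in
theorem exists_gen : ∃ n : ℕ, ∀ (F : Type) [Field F] [Fintype F],
    Nat.card (R →+* F) ≤ Nat.card F ^ n := by
  obtain ⟨n, f, hf⟩ := Algebra.FiniteType.iff_quotient_mvPolynomial''.1 hR
  refine ⟨n, fun F _ _ => ?_⟩
  have h2 : Nat.card F ^ n = Nat.card (Fin n → F) := by
    rw [Nat.card_fun, Nat.card_fin]
  rw [h2]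
  refine Nat.card_le_card_of_injective (fun (φ : R →+* F) (i : Fin n) =>
    φ (f (MvPolynomial.X i))) ?_
  intro φ ψ h
  ext x
  obtain ⟨p, rfl⟩ := hf x
  have h1 : φ.comp (f : MvPolynomial (Fin n) ℤ →+* R) = ψ.comp (f : MvPolynomial (Fin n) ℤ →+* R) := by
    apply MvPolynomial.ringHom_ext
    · intro c
      exact congrArg (fun g : ℤ →+* F => g c) (RingHom.ext_int
        ((φ.comp (f : MvPolynomial (Fin n) ℤ →+* R)).comp MvPolynomial.C)
        ((ψ.comp (f : MvPolynomial (Fin n) ℤ →+* R)).comp MvPolynomial.C))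
    · intro i
      exact congrFun h i
  exact congrArg (fun g => g p) h1

variable (R) in
theorem summable_pt : ∃ A : ℝ, 1 ≤ A ∧ ∀ σ : ℝ, A < σ →
    Summable fun y : Pt R => (qy y : ℝ) ^ (-σ) := by
  obtain ⟨n, hn⟩ := exists_gen R
  have D : Pool.Agent.TH958.An.Dat (Y := Pt R) pk (n + 1) :=
    { fin := fun c => Fintype.ofFinite _
      C := 1
      hC := zero_le_one
      hcard := fun c => by
        obtain ⟨F, _, _, hF⟩ := exists_F c
        have h1 := (Pool.Agent.TH958.An.card_Yc_le (R := R) c hF).trans (hn F)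
        have h2 : (Nat.card F : ℝ) = (Qc c : ℝ) := by
          rw [Nat.card_eq_fintype_card, hF, Qc]
        have h3 : (1 : ℝ) ≤ (Qc c : ℝ) := by
          exact_mod_cast Pool.Agent.H126R3.Qc_pos c
        rw [one_mul]
        calc (Nat.card {y : Pt R // pk y = c} : ℝ) ≤ (Nat.card F : ℝ) ^ n := by exact_mod_cast h1
          _ = (Qc c : ℝ) ^ (n : ℝ) := by rw [h2, Real.rpow_natCast]
          _ ≤ (Qc c : ℝ) ^ ((n + 1 : ℕ) : ℝ) :=
            Real.rpow_le_rpow_of_exponent_le h3 (by push_cast; linarith)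
      G := fun _ => False
      ag := fun _ => 0
      hag := fun y => by rw [abs_zero]; positivity
      h0 := fun _ _ => rfl
      h3 := fun _ h => h.elim
      he := by omega }
  refine ⟨((n + 1 : ℕ) : ℝ) + 1, by
    have : (0 : ℝ) ≤ ((n + 1 : ℕ) : ℝ) := Nat.cast_nonneg _
    linarith, fun σ hσ => ?_⟩
  refine (Pool.Agent.TH958.An.summable_y D σ hσ).congr fun y => ?_
  have h1 : Pool.Agent.TH958.An.qq pk y = qy y := by
    rw [qy_eq]
    rfl
  rw [h1]

instance countable_pt : Countable (Pt R) :=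
  (Equiv.sigmaFiberEquiv (pk (R := R))).symm.injective.countable

theorem two_le_qy (y : Pt R) : 2 ≤ qy y := by
  rw [qy_eq]
  calc 2 ≤ ((pk y).1 : ℕ) := (pk y).1.2.two_le
    _ ≤ ((pk y).1 : ℕ) ^ ((pk y).2 + 1) := Nat.le_self_pow (by omega) _

/-! ### Regrouping -/

/-- the closed points of the open subscheme where `N₀` is invertible -/
abbrev YP (N₀ : R) : Type := {y : Pt R // N₀ ∉ y.asIdeal}

variable (N₀ : R)

/-- the field of definition of the `k+1`-st power of Frobenius at `y` -/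
noncomputable def prx (x : YP N₀ × ℕ) : Nat.Primes × ℕ :=
  ((pk x.1.1).1, ((pk x.1.1).2 + 1) * (x.2 + 1) - 1)

variable {N₀}

theorem prx_iff (x : YP N₀ × ℕ) (c : Nat.Primes × ℕ) : prx N₀ x = c ↔
    (pk x.1.1).1 = c.1 ∧ ((pk x.1.1).2 + 1) * (x.2 + 1) = c.2 + 1 := by
  have h0 : 0 < ((pk x.1.1).2 + 1) * (x.2 + 1) := by positivity
  unfold prx
  rw [Prod.ext_iff]
  refine and_congr Iff.rfl ?_
  show ((pk x.1.1).2 + 1) * (x.2 + 1) - 1 = c.2 ↔ _
  omega

/-- points with values in `F` and closed points with powers of Frobenius -/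
noncomputable def regr (c : Nat.Primes × ℕ) {F : Type} [Field F] [Fintype F]
    (h : Fintype.card F = (c.1 : ℕ) ^ (c.2 + 1)) : {φ : R →+* F // φ N₀ ≠ 0} ≃
    Σ x : {x : YP N₀ × ℕ // prx N₀ x = c}, {φ : R →+* F // ptOf φ = x.1.1.1} where
  toFun φ := ⟨⟨(⟨ptOf φ.1, by rw [mem_ptOf]; exact φ.2⟩,
      (c.2 + 1) / ((pk (ptOf φ.1)).2 + 1) - 1), (prx_iff _ _).2 ⟨(pk_ptOf F φ.1 c.1 c.2 h).1, by
        have h1 := (pk_ptOf F φ.1 c.1 c.2 h).2
        have h2 := Nat.div_pos (Nat.le_of_dvd (by omega) h1) (by omega)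
        show ((pk (ptOf φ.1)).2 + 1) * ((c.2 + 1) / ((pk (ptOf φ.1)).2 + 1) - 1 + 1) = c.2 + 1
        rw [Nat.sub_add_cancel h2, Nat.mul_div_cancel' h1]⟩⟩, ⟨φ.1, rfl⟩⟩
  invFun w := ⟨w.2.1, by
    rw [Ne, ← mem_ptOf, w.2.2]
    exact w.1.1.1.2⟩
  left_inv φ := rfl
  right_inv w := by
    rcases w with ⟨⟨⟨⟨y, hy⟩, k⟩, hx⟩, ⟨φ, hφ⟩⟩
    change ptOf φ = y at hφ
    subst hφ
    have h1 := ((prx_iff _ _).1 hx).2
    change ((pk (ptOf φ)).2 + 1) * (k + 1) = c.2 + 1 at h1
    obtain rfl : k = (c.2 + 1) / ((pk (ptOf φ)).2 + 1) - 1 := by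
      rw [← h1, Nat.mul_div_cancel_left _ (by omega)]
      omega
    rfl

theorem card_fib' (c : Nat.Primes × ℕ) {F : Type} [Field F] [Fintype F]
    (h : Fintype.card F = (c.1 : ℕ) ^ (c.2 + 1)) (x : {x : YP N₀ × ℕ // prx N₀ x = c}) :
    Nat.card {φ : R →+* F // ptOf φ = x.1.1.1} = (pk x.1.1.1).2 + 1 := by
  obtain ⟨h1, h2⟩ := (prx_iff _ _).1 x.2
  exact card_fib x.1.1.1 F c.1 (c.2 + 1) h h1 ⟨_, h2.symm⟩

instance finite_prx (c : Nat.Primes × ℕ) : Finite {x : YP N₀ × ℕ // prx N₀ x = c} := by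
  obtain ⟨F, _, _, hF⟩ := exists_F c
  have h : Function.Surjective (fun φ : {φ : R →+* F // φ N₀ ≠ 0} => (regr c hF φ).1) := by
    intro x
    have h1 := card_fib' c hF x
    have h2 : Nonempty {φ : R →+* F // ptOf φ = x.1.1.1} := by
      rw [← not_isEmpty_iff]
      intro h3
      rw [Nat.card_of_isEmpty] at h1
      omega
    obtain ⟨φ⟩ := h2
    refine ⟨(regr c hF).symm ⟨x, φ⟩, ?_⟩
    simp only
    rw [Equiv.apply_symm_apply]
  exact Finite.of_surjective _ h

theorem sum_regr (c : Nat.Primes × ℕ) {F : Type} [Field F] [Fintype F]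
    (h : Fintype.card F = (c.1 : ℕ) ^ (c.2 + 1)) [Fintype {φ : R →+* F // φ N₀ ≠ 0}]
    [Fintype {x : YP N₀ × ℕ // prx N₀ x = c}] (g : YP N₀ × ℕ → ℂ)
    (G : {φ : R →+* F // φ N₀ ≠ 0} → ℂ) (hG : ∀ φ, G φ = g (regr c h φ).1.1) :
    ∑ φ, G φ = ∑ x : {x : YP N₀ × ℕ // prx N₀ x = c},
      (((pk x.1.1.1).2 + 1 : ℕ) : ℂ) * g x.1 := by
  classical
  letI : ∀ x : {x : YP N₀ × ℕ // prx N₀ x = c}, Fintype {φ : R →+* F // ptOf φ = x.1.1.1} :=
    fun x => Fintype.ofFinite _
  have h1 : ∑ φ, G φ = ∑ w : (Σ x : {x : YP N₀ × ℕ // prx N₀ x = c},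
      {φ : R →+* F // ptOf φ = x.1.1.1}), g w.1.1 :=
    Fintype.sum_equiv (regr c h) _ (fun w => g w.1.1) (fun φ => hG φ)
  rw [h1, Fintype.sum_sigma]
  refine Finset.sum_congr rfl fun x _ => ?_
  have h2 : ∑ _φ : {φ : R →+* F // ptOf φ = x.1.1.1}, g x.1 =
      (((pk x.1.1.1).2 + 1 : ℕ) : ℂ) * g x.1 := by
    rw [Finset.sum_const, Finset.card_univ, ← Nat.card_eq_fintype_card, card_fib' c h x,
      nsmul_eq_mul]
  exact h2

end

end Pool.Agent.N41.RM
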