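import Pool.Agent.N41.RM.FamLaw
import Pool.Agent.N41.RM.Sch

/-! Closed points of schemes of finite type over the integers, and their points over finite fields. -/

set_option autoImplicit false

namespace Pool.Agent.N41.RM.SchZ

open CategoryTheory AlgebraicGeometry
open Pool.Agent.N41.RM.Fam (Pnt Bdd)

section affine

theorem finType {K : CommRingCat.{0}} (g : Spec K ⟶ Spec (CommRingCat.of ℤ))
    [LocallyOfFiniteType g] : Algebra.FiniteType ℤ K := by
  obtain ⟨φ, rfl⟩ := Spec.map_surjective g
  have h := (HasRingHomProperty.Spec_iff (P := @LocallyOfFiniteType)).1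
    (inferInstance : LocallyOfFiniteType (Spec.map φ))
  have h1 : @Algebra.FiniteType ℤ K _ _ φ.hom.toAlgebra := h
  have h2 : φ.hom.toAlgebra = Ring.toIntAlgebra K := Subsingleton.elim _ _
  rwa [h2] at h1

theorem locft_of_finite (K : CommRingCat.{0}) [Finite K] (g : Spec K ⟶ Spec (CommRingCat.of ℤ)) :
    LocallyOfFiniteType g := by
  obtain ⟨φ, rfl⟩ := Spec.map_surjective g
  rw [HasRingHomProperty.Spec_iff (P := @LocallyOfFiniteType)]
  letI := φ.hom.toAlgebra
  change Algebra.FiniteType ℤ K
  have : Module.Finite ℤ K := Module.Finite.of_finite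
  infer_instance

end affine

variable {X : Scheme.{0}} (f : X ⟶ Spec (CommRingCat.of ℤ)) [LocallyOfFiniteType f]

include f in
theorem jac : JacobsonSpace X := by
  have : IsJacobsonRing ℤ := Pool.Agent.H126R3.jac_int
  exact LocallyOfFiniteType.jacobsonSpace f

include f in
theorem finite_res {x : X} (hx : IsClosed ({x} : Set X)) : Finite (X.residueField x) := by
  have := jac f
  have h1 := isClosed_singleton_iff_locallyOfFiniteType.1 hx
  have h2 := finType (X.fromSpecResidueField x ≫ f)
  exact Pool.Agent.H126R3.finite_of_finiteType (X.residueField x)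

include f in
theorem closed_of_hom {x : X} {F : Type} [Field F] [Finite F] (φ : X.residueField x →+* F) :
    IsClosed ({x} : Set X) := by
  have := jac f
  rw [isClosed_singleton_iff_locallyOfFiniteType]
  have h1 : Finite (X.residueField x) := Finite.of_injective φ φ.injective
  have h2 := locft_of_finite (X.residueField x) (X.fromSpecResidueField x ≫ f)
  exact locallyOfFiniteType_of_comp _ f

/-- the points with values in a finite field and the closed points -/
noncomputable def pntEquiv (F : Type) [Field F] [Finite F] :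
    (Spec (CommRingCat.of F) ⟶ X) ≃
      Σ y : {x : X // IsClosed ({x} : Set X)}, (X.residueField y.1 →+* F) :=
  (Scheme.SpecToEquivOfField F X).trans
    { toFun := fun w => ⟨⟨w.1, closed_of_hom f (F := F) w.2.hom⟩, w.2.hom⟩
      invFun := fun w => ⟨w.1.1, CommRingCat.ofHom w.2⟩
      left_inv := fun w => rfl
      right_inv := fun w => rfl }

theorem card_affine {U : Scheme.{0}} [IsAffine U] (g : U ⟶ Spec (CommRingCat.of ℤ))
    [LocallyOfFiniteType g] : ∃ n : ℕ, ∀ (F : Type) [Field F] [Finite F],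
      Finite (Spec (CommRingCat.of F) ⟶ U) ∧
        Nat.card (Spec (CommRingCat.of F) ⟶ U) ≤ Nat.card F ^ n := by
  have h1 : Algebra.FiniteType ℤ Γ(U, ⊤) := finType (U.isoSpec.inv ≫ g)
  obtain ⟨n, hn⟩ := Pool.Agent.N41.RM.exists_gen Γ(U, ⊤)
  refine ⟨n, fun F _ _ => ?_⟩
  have := Fintype.ofFinite F
  have e : (Spec (CommRingCat.of F) ⟶ U) ≃ (Γ(U, ⊤) →+* F) :=
    (Iso.homToEquiv U.isoSpec).trans
      (Spec.homEquiv.trans
        { toFun := fun φ => φ.hom
          invFun := fun φ => CommRingCat.ofHom φ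
          left_inv := fun φ => rfl
          right_inv := fun φ => rfl })
  have h2 : Finite (Γ(U, ⊤) →+* F) := Pool.Agent.TH958.An.finite_hom F
  refine ⟨Finite.of_equiv _ e.symm, ?_⟩
  rw [Nat.card_congr e]
  exact hn F

include f in
theorem card_le [CompactSpace X] : ∃ C n : ℕ, ∀ (F : Type) [Field F] [Finite F],
    Finite (Spec (CommRingCat.of F) ⟶ X) ∧
      Nat.card (Spec (CommRingCat.of F) ⟶ X) ≤ C * Nat.card F ^ n := by
  classical
  let 𝒰 := X.affineCover.finiteSubcover
  have hloc : ∀ i : 𝒰.I₀, LocallyOfFiniteType (𝒰.f i ≫ f) := fun i => inferInstance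
  have haff : ∀ i : 𝒰.I₀, IsAffine (𝒰.X i) := fun i => inferInstance
  have h := fun i : 𝒰.I₀ => card_affine (𝒰.f i ≫ f)
  choose n hn using h
  refine ⟨Fintype.card 𝒰.I₀, ∑ i, n i, fun F _ _ => ?_⟩
  have hfin : ∀ i, Finite (Spec (CommRingCat.of F) ⟶ 𝒰.X i) := fun i => (hn i F).1
  have hs : Function.Surjective (fun w : Σ i, (Spec (CommRingCat.of F) ⟶ 𝒰.X i) =>
      w.2 ≫ 𝒰.f w.1) := by
    intro g
    obtain ⟨i, y, hy⟩ := 𝒰.exists_eq (g (IsLocalRing.closedPoint F))
    have hr : Set.range g ⊆ Set.range (𝒰.f i) := by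
      rintro _ ⟨z, rfl⟩
      refine ⟨y, ?_⟩
      rw [hy]
      congr 1
      exact Subsingleton.elim _ _
    exact ⟨⟨i, IsOpenImmersion.lift (𝒰.f i) g hr⟩, IsOpenImmersion.lift_fac _ _ hr⟩
  refine ⟨Finite.of_surjective _ hs, ?_⟩
  refine (Nat.card_le_card_of_surjective _ hs).trans ?_
  rw [Nat.card_sigma, ← Finset.card_univ, Finset.card_eq_sum_ones, Finset.sum_mul]
  refine Finset.sum_le_sum fun i _ => ?_
  rw [one_mul]
  refine ((hn i F).2).trans ?_
  exact Nat.pow_le_pow_right Nat.card_pos
    (Finset.single_le_sum (f := n) (fun _ _ => Nat.zero_le _) (Finset.mem_univ i))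

variable (X) in
/-- the closed points -/
abbrev Cl : Type := {x : X // IsClosed ({x} : Set X)}

include f in
theorem finite_cl (y : Cl X) : Finite (X.residueField y.1) := finite_res f y.2

end Pool.Agent.N41.RM.SchZ
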